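import Pool.Agent.Work.MP_d3517d_nt.NF.Defs
import Pool.Agent.Work.MP_d3517d_nt.ES.HeckeQ

/-!
# Fourier coefficients on the spaces `Sp N k` (MP_d3517d_nt, part NF, module N0)
-/

open UpperHalfPlane CongruenceSubgroup OnePoint
open scoped MatrixGroups ModularForm ComplexConjugate Manifold

noncomputable section

namespace Gouvea.NF

variable {k : ℕ}

lemma qe_of_mem {N : ℕ} (hN : 0 < N) {f : ℍ → ℂ} (hf : f ∈ Sp N k) : ES.QE f := by
  have : NeZero N := ⟨hN.ne'⟩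
  obtain ⟨F, rfl⟩ := hf
  exact ES.qe_cusp F

lemma U_eq_Ul (q : ℕ) [NeZero q] (f : ℍ → ℂ) : U k q f = ES.Ul k q f := rfl

lemma B_eq_Vl (d : ℕ) [NeZero d] (f : ℍ → ℂ) : B d f = ES.Vl d f := by
  funext τ
  rw [ES.Vl_apply]
  rfl

theorem coef_add {N : ℕ} (hN : 0 < N) {f g : ℍ → ℂ} (hf : f ∈ Sp N k) (hg : g ∈ Sp N k) (n : ℕ) :
    coef (f + g) n = coef f n + coef g n :=
  ES.coef_add (qe_of_mem hN hf) (qe_of_mem hN hg) n

theorem coef_smul {N : ℕ} (hN : 0 < N) {f : ℍ → ℂ} (hf : f ∈ Sp N k) (c : ℂ) (n : ℕ) :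
    coef (c • f) n = c * coef f n :=
  ES.coef_smul (qe_of_mem hN hf) c n

theorem coef_zero {N : ℕ} (hN : 0 < N) {f : ℍ → ℂ} (hf : f ∈ Sp N k) : coef f 0 = 0 := by
  have : NeZero N := ⟨hN.ne'⟩
  obtain ⟨F, rfl⟩ := hf
  exact ES.coef_zero_cusp F

theorem coef_B {N d : ℕ} [NeZero d] (hN : 0 < N) {f : ℍ → ℂ} (hf : f ∈ Sp N k) (n : ℕ) :
    coef (B d f) n = if d ∣ n then coef f (n / d) else 0 := by
  rw [B_eq_Vl]
  exact ES.coef_Vl (qe_of_mem hN hf) d n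

theorem coef_U {N q : ℕ} [NeZero q] (hN : 0 < N) {f : ℍ → ℂ} (hf : f ∈ Sp N k) (n : ℕ) :
    coef (U k q f) n = coef f (q * n) := by
  rw [U_eq_Ul]
  exact ES.coef_Ul (qe_of_mem hN hf) k q n

theorem coef_ext {M N : ℕ} (hM : 0 < M) (hN : 0 < N) {f g : ℍ → ℂ} (hf : f ∈ Sp M k)
    (hg : g ∈ Sp N k) (h : ∀ n, coef f n = coef g n) : f = g :=
  ES.coef_inj (qe_of_mem hM hf) (qe_of_mem hN hg) h

/-- the coefficients of a function of the span: `B_d f` and `U_q f` are again such functions -/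
lemma qe_B {f : ℍ → ℂ} (hf : ES.QE f) (d : ℕ) [NeZero d] : ES.QE (B d f) := by
  rw [B_eq_Vl]
  exact ES.qe_Vl hf d

lemma qe_U {f : ℍ → ℂ} (hf : ES.QE f) (q : ℕ) [NeZero q] : ES.QE (U k q f) := by
  rw [U_eq_Ul]
  exact ES.qe_Ul hf k q

end Gouvea.NF
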