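import Pool.Agent.Work.MP_d3517d_nt.NF.AmbA
import Pool.Agent.Work.MP_d3517d_nt.NF.AmbC
import Pool.Agent.Work.MP_d3517d_nt.ES.HeckeCusp

/-!
# The operators `U_q` and `T_l` on the spaces `Sp N k` (MP_d3517d_nt, part NF, module N0)
-/

open UpperHalfPlane CongruenceSubgroup OnePoint
open scoped MatrixGroups ModularForm ComplexConjugate Manifold

noncomputable section

namespace Gouvea.NF

variable {k : ℕ}

theorem U_mem_of_dvd {N q : ℕ} [NeZero q] (hN : 0 < N) (hq : q.Prime) (h : q ∣ N) {f : ℍ → ℂ}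
    (hf : f ∈ Sp N k) : U k q f ∈ Sp N k := by
  have : NeZero N := ⟨hN.ne'⟩
  obtain ⟨F, rfl⟩ := hf
  exact ⟨ES.UlC k hq h F, ES.coe_UlC k hq h F⟩

theorem U_mem {N q : ℕ} [NeZero q] (hN : 0 < N) (hq : q.Prime) {f : ℍ → ℂ} (hf : f ∈ Sp N k) :
    U k q f ∈ Sp (N * q) k :=
  U_mem_of_dvd (Nat.mul_pos hN hq.pos) hq (dvd_mul_left q N)
    (Sp_mono (dvd_mul_right N q) (Nat.mul_pos hN hq.pos) hf)

theorem Tl_mem {N l : ℕ} [NeZero l] (hN : 0 < N) (hl : l.Prime) (h : ¬ l ∣ N) {f : ℍ → ℂ}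
    (hf : f ∈ Sp N k) : Tl k l f ∈ Sp N k := by
  have : NeZero N := ⟨hN.ne'⟩
  obtain ⟨F, rfl⟩ := hf
  exact ⟨ES.TlC k hl h F, ES.coe_TlC k hl h F⟩

theorem tri_det_pos {a b d : ℝ} (h : a * d ≠ 0) (hp : 0 < a * d) :
    0 < (tri a b d h).det.val := by
  rw [ES.tri_det]
  exact hp

theorem U_add (q : ℕ) [NeZero q] (f g : ℍ → ℂ) : U k q (f + g) = U k q f + U k q g := by
  unfold U
  simp only [SlashAction.add_slash, Finset.sum_add_distrib]

theorem U_smul (q : ℕ) [NeZero q] (c : ℂ) (f : ℍ → ℂ) : U k q (c • f) = c • U k q f := by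
  have hq : (0 : ℝ) < q := by exact_mod_cast Nat.pos_of_ne_zero (NeZero.ne q)
  unfold U
  rw [Finset.smul_sum]
  exact Finset.sum_congr rfl fun b _ => ES.smul_slash_pos (tri_det_pos _ (by simpa using hq)) _ _ _

theorem Tl_eq (l : ℕ) [NeZero l] (f : ℍ → ℂ) (hk : 0 < k) :
    Tl k l f = (l : ℂ) ^ (k - 1) • B l f + U k l f := by
  rw [ES.Tl_eq, B_eq_Vl, U_eq_Ul, ← zpow_natCast, Nat.cast_sub (show 1 ≤ k from hk), Nat.cast_one,
    add_comm]

end Gouvea.NF
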