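import Pool.Agent.Work.MP_d3517d_nt.ES.Main
import Pool.Agent.Work.MP_d3517d_nt.ES.InjTwo
import Pool.Agent.Work.MP_d3517d_nt.ES.InjZero
import Pool.Agent.Work.MP_d3517d_nt.NF.AmbB

/-!
# The Hecke eigenvalues are algebraic integers (MP_d3517d_nt)

`isIntegral_coef`: the coefficients `a_l`, `l` a prime not dividing `N`, of a newform of level
`N` and any weight are algebraic integers.
-/

open UpperHalfPlane CongruenceSubgroup Polynomial Gouvea.PS
open scoped MatrixGroups ModularForm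

noncomputable section

namespace Gouvea.ES

/-- an eigenvalue of an integral matrix is integral -/
theorem isIntegral_of_mulVec {ι : Type*} [Fintype ι] [DecidableEq ι] (A : Matrix ι ι ℤ)
    {v : ι → ℂ} (hv : v ≠ 0) {a : ℂ} (h : (A.map (Int.cast : ℤ → ℂ)).mulVec v = a • v) :
    IsIntegral ℤ a := by
  have h1 : Module.End.HasEigenvector (Matrix.toLin' (A.map (Int.cast : ℤ → ℂ))) a v := by
    refine ⟨Module.End.mem_eigenspace_iff.2 ?_, hv⟩
    rw [Matrix.toLin'_apply, h]
  have h2 := (Module.End.hasEigenvalue_iff_isRoot_charpoly _ _).1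
    (Module.End.hasEigenvalue_of_hasEigenvector h1)
  rw [Matrix.charpoly_toLin'] at h2
  have h3 : (A.map (Int.cast : ℤ → ℂ)).charpoly = A.charpoly.map (algebraMap ℤ ℂ) := by
    rw [← Matrix.charpoly_map]
    rfl
  rw [h3] at h2
  refine ⟨A.charpoly, Matrix.charpoly_monic _, ?_⟩
  rwa [Polynomial.IsRoot.def, Polynomial.eval_map] at h2

variable {M : ℕ} [NeZero M] {n : ℕ}

omit [NeZero M] in
theorem gQ_ofG0 (hM : 4 ∣ M) (γ : SL(2, ℤ)) (hγ : γ ∈ Gamma0 M) :
    gQ (ofG0 hM γ hγ) = Matrix.SpecialLinearGroup.mapGL ℚ γ := by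
  ext i j
  rw [gQ_apply]
  simp [ofG0]

/-- **The symbol of a cusp form of level `M`, `4 ∣ M`, is injective in all weights.** -/
theorem symL'_inj (hM : 4 ∣ M) (f : Gouvea.Cusp M (n + 2)) (h : symL' M n f = 0) : f = 0 := by
  have h0 : ∀ x y : PS.Cusp, sym n (f : ℍ → ℂ) (toP x) (toP y) = 0 := by
    intro x y
    ext i
    rw [coeff_zero]
    rcases Nat.lt_or_ge n i with hi | hi
    · exact coeff_eq_zero_of_natDegree_lt ((natDegree_sym_le n _ _ _).trans_lt hi)
    · exact congrFun (congrFun (congrFun (congrArg Subtype.val h) x) y)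
        ⟨i, Nat.lt_succ_of_le hi⟩
  rcases Nat.eq_zero_or_pos n with rfl | hn
  · refine sym_inj_zero f fun γ hγ => ?_
    have h1 := h0 (ofG0 hM γ hγ • PS.inf) PS.inf
    rw [toP_smul, toP_inf, gQ_ofG0] at h1
    exact h1
  · refine sym_inj_all (Γ := Gam0 M) hn f (D := {q : ℚ | ∃ c, toP c = (q : OnePoint ℚ)})
      dense_cusps' ?_
    rintro x ⟨c, hc⟩
    have h1 := h0 c PS.inf
    rwa [hc, toP_inf] at h1

/-- eigenvalues at level `M`, `4 ∣ M` -/
theorem isIntegral_opC (hM : 4 ∣ M) (hn : Even n) (q : Nat.Primes) (f : Gouvea.Cusp M (n + 2))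
    (hf : f ≠ 0) (a : ℂ) (h : opC M (n + 2) q f = a • f) : IsIntegral ℤ a := by
  have h1 : opS ℂ M n hM q (symL' M n f) = a • symL' M n f := by
    rw [opS_symL', h, map_smul]
  have h2 : symL' M n f ≠ 0 := fun h0 => hf (symL'_inj hM f h0)
  have h3 : Psi ℂ M n hn (symL' M n f) ≠ 0 := by
    intro h0
    exact h2 ((Psi ℂ M n hn).map_eq_zero_iff.1 h0)
  have hmem : hecke ℂ M n q (symL' M n f).1 ∈ Sym ℂ M n :=
    hecke_mem q.2 hM (NeZero.ne M) (symL' M n f).2
  have h4 := Psi_hecke hn (symL' M n f) hmem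
  have h5 : (⟨hecke ℂ M n q (symL' M n f).1, hmem⟩ : Sym ℂ M n) =
      opS ℂ M n hM q (symL' M n f) := rfl
  rw [h5, h1, map_smul] at h4
  classical
  exact isIntegral_of_mulVec (Tm M n q) h3 h4.symm

end Gouvea.ES

namespace Gouvea.NF

variable {k : ℕ}

/-- cusp forms of weight zero and of odd weight vanish -/
theorem coef_one_eq_zero {N : ℕ} (hN : 0 < N) (hk : k = 0 ∨ Odd k) (f : Cusp N k) : f = 0 := by
  have : NeZero N := ⟨hN.ne'⟩
  let G : ModularForm (Gam0 N) k :=
    { toFun := f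
      slash_action_eq' := f.slash_action_eq'
      holo' := f.holo'
      bdd_at_cusps' := fun hc g hg => (f.zero_at_cusps' hc g hg).boundedAtFilter }
  rcases hk with rfl | hk
  · obtain ⟨c, hc⟩ := ModularForm.eq_const_of_weight_zero (𝒢 := Gam0 N) G
    have hc' : (f : ℍ → ℂ) = Function.const ℍ c := hc
    have h0 : IsZeroAtImInfty (f : ℍ → ℂ) := CuspFormClass.zero_at_infty f
    refine DFunLike.coe_injective ?_
    change (f : ℍ → ℂ) = 0
    rw [hc'] at h0 ⊢
    have h1 : c = 0 := tendsto_nhds_unique tendsto_const_nhds h0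
    rw [h1]
    rfl
  · have hneg : (-1 : GL (Fin 2) ℝ) ∈ Gam0 N := by
      refine ⟨-1, ?_, ?_⟩
      · rw [SetLike.mem_coe, Gamma0_mem]
        simp
      · ext i j
        fin_cases i <;> fin_cases j <;> simp
    have h1 : G = 0 := ModularForm.eq_zero_of_neg_one_mem hneg (by exact_mod_cast hk) G
    refine DFunLike.coe_injective ?_
    exact congrArg (fun g : ModularForm (Gam0 N) k => (g : ℍ → ℂ)) h1

/-- an eigenvalue of `U_q` or `T_l` at a level divisible by `4` -/
theorem isIntegral_U {M q : ℕ} (hM : 0 < M) (h4 : 4 ∣ M) (hq : q.Prime) (hqM : q ∣ M) {f : ℍ → ℂ}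
    (hf : f ∈ Sp M k) (h1 : coef f 1 ≠ 0) (a : ℂ) [NeZero q] (h : U k q f = a • f) :
    IsIntegral ℤ a := by
  have : NeZero M := ⟨hM.ne'⟩
  obtain ⟨F, rfl⟩ := hf
  have hF : F ≠ 0 := by
    rintro rfl
    apply h1
    have := coef_smul (k := k) hM ((Sp M k).zero_mem) 0 1
    rw [zero_smul, zero_mul] at this
    exact this
  by_cases hk : k = 0 ∨ Odd k
  · exact absurd (coef_one_eq_zero hM hk F) hF
  · rw [not_or, Nat.not_odd_iff_even] at hk
    obtain ⟨n, rfl⟩ : ∃ n, k = n + 2 := by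
      obtain ⟨m, hm⟩ := hk.2
      exact ⟨k - 2, by omega⟩
    refine ES.isIntegral_opC h4 ((Nat.even_add.1 hk.2).2 even_two) ⟨q, hq⟩ F hF a ?_
    refine DFunLike.coe_injective ?_
    rw [ES.opC_coe_dvd M (n + 2) ⟨q, hq⟩ hqM F]
    exact h

theorem isIntegral_T {M q : ℕ} (hM : 0 < M) (h4 : 4 ∣ M) (hq : q.Prime) (hqM : ¬ q ∣ M)
    {f : ℍ → ℂ} (hf : f ∈ Sp M k) (h1 : coef f 1 ≠ 0) (a : ℂ) [NeZero q]
    (h : Tl k q f = a • f) : IsIntegral ℤ a := by
  have : NeZero M := ⟨hM.ne'⟩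
  obtain ⟨F, rfl⟩ := hf
  have hF : F ≠ 0 := by
    rintro rfl
    apply h1
    have := coef_smul (k := k) hM ((Sp M k).zero_mem) 0 1
    rw [zero_smul, zero_mul] at this
    exact this
  by_cases hk : k = 0 ∨ Odd k
  · exact absurd (coef_one_eq_zero hM hk F) hF
  · rw [not_or, Nat.not_odd_iff_even] at hk
    obtain ⟨n, rfl⟩ : ∃ n, k = n + 2 := by
      obtain ⟨m, hm⟩ := hk.2
      exact ⟨k - 2, by omega⟩
    refine ES.isIntegral_opC h4 ((Nat.even_add.1 hk.2).2 even_two) ⟨q, hq⟩ F hF a ?_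
    refine DFunLike.coe_injective ?_
    rw [ES.opC_coe_not_dvd M (n + 2) ⟨q, hq⟩ hqM F]
    exact h

theorem coef_Tl_one {N l : ℕ} [NeZero l] (hN : 0 < N) (hl : l.Prime) {f : ℍ → ℂ}
    (hf : f ∈ Sp N k) : coef (Tl k l f) 1 = coef f l :=
  ES.coef_Tl_one (qe_of_mem hN hf) k l hl.one_lt

/-- **The eigenvalues of the Hecke operators are algebraic integers.** -/
theorem isIntegral_eigenvalue {N l : ℕ} [NeZero l] (hN : 0 < N) (hl : l.Prime) (h : ¬ l ∣ N)
    {f : ℍ → ℂ} (hf : f ∈ Sp N k) (h1 : coef f 1 = 1) {a : ℂ} (ha : Tl k l f = a • f) :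
    IsIntegral ℤ a := by
  have h4N : 0 < 4 * N := by omega
  have hf4 : f ∈ Sp (4 * N) k := Sp_mono (dvd_mul_left N 4) h4N hf
  by_cases hl2 : l = 2
  · subst hl2
    rcases Nat.eq_zero_or_pos k with hk | hk
    · obtain ⟨F, rfl⟩ := hf
      rw [coef_one_eq_zero hN (Or.inl hk) F] at h1
      have := coef_smul (k := k) hN ((Sp N k).zero_mem) 0 1
      rw [zero_smul, zero_mul] at this
      exact absurd (this.symm.trans h1) (by simp)
    -- the roots of `x ^ 2 - a x + 2 ^ (k - 1)`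
    obtain ⟨b, hb⟩ : ∃ b : ℂ, b * b - a * b + 2 ^ (k - 1) = 0 := by
      obtain ⟨b, hb⟩ := IsAlgClosed.exists_root
        (Polynomial.X ^ 2 + Polynomial.C (-a) * Polynomial.X + Polynomial.C ((2 : ℂ) ^ (k - 1)))
        (by
          have : (Polynomial.X ^ 2 + Polynomial.C (-a) * Polynomial.X +
            Polynomial.C ((2 : ℂ) ^ (k - 1))).degree = 2 := by compute_degree!
          rw [this]
          decide)
      refine ⟨b, ?_⟩
      have h2 := hb
      rw [Polynomial.IsRoot.def] at h2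
      simp only [Polynomial.eval_add, Polynomial.eval_pow, Polynomial.eval_X,
        Polynomial.eval_mul, Polynomial.eval_C] at h2
      linear_combination h2
    have hBmem : B 2 f ∈ Sp (4 * N) k := by
      have := B_mem (d := 2) hN hf
      refine Sp_mono ?_ h4N this
      exact ⟨2, by ring⟩
    have hT := Tl_eq (k := k) 2 f hk
    rw [ha] at hT
    have hUB : U k 2 (B 2 f) = f := by
      rw [U_eq_Ul, B_eq_Vl]
      exact ES.Ul_Vl (qe_of_mem hN hf) k 2
    -- integrality of both roots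
    have key : ∀ x y : ℂ, x + y = a → x * y = 2 ^ (k - 1) → IsIntegral ℤ x := by
      intro x y hxy hxy'
      have hg : f + (-y) • B 2 f ∈ Sp (4 * N) k :=
        (Sp (4 * N) k).add_mem hf4 ((Sp (4 * N) k).smul_mem _ hBmem)
      refine isIntegral_U h4N (dvd_mul_right 4 N) Nat.prime_two
        ((by norm_num : (2 : ℕ) ∣ 4).trans (dvd_mul_right 4 N)) hg ?_ x ?_
      · rw [coef_add h4N hf4 ((Sp (4 * N) k).smul_mem _ hBmem), coef_smul h4N hBmem,
          coef_B hN hf, h1, if_neg (by norm_num), mul_zero, add_zero]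
        exact one_ne_zero
      · rw [U_add, U_smul, hUB]
        have hU : U k 2 f = a • f - (2 : ℂ) ^ (k - 1) • B 2 f := by
          rw [hT]
          push_cast
          abel
        rw [hU, smul_add, smul_smul, ← hxy, ← hxy']
        module
    have hx := key (a - b) b (by ring) (by linear_combination -hb)
    have hy := key b (a - b) (by ring) (by linear_combination -hb)
    have hadd := hx.add hy
    rwa [sub_add_cancel] at hadd
  · have hl4 : ¬ l ∣ 4 * N := by
      intro hd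
      rcases (Nat.Prime.dvd_mul hl).1 hd with h5 | h5
      · exact hl2 ((Nat.prime_dvd_prime_iff_eq hl Nat.prime_two).1
          (hl.dvd_of_dvd_pow (show l ∣ 2 ^ 2 by norm_num; exact h5)))
      · exact h h5
    exact isIntegral_T h4N (dvd_mul_right 4 N) hl hl4 hf4 (by rw [h1]; exact one_ne_zero) a ha

/-- **The coefficients of newforms are algebraic integers.** -/
theorem isIntegral_coef {N l : ℕ} (hN : 0 < N) (hl : l.Prime) (h : ¬ l ∣ N) {f : Cusp N k}
    (hf : IsNewform N k f) : IsIntegral ℤ (coef f l) := by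
  have : NeZero l := ⟨hl.ne_zero⟩
  obtain ⟨a, ha⟩ := hf.eigen l hl h
  have h1 : coef f l = a := by
    rw [← coef_Tl_one hN hl (coe_mem_Sp f), ha, coef_smul hN (coe_mem_Sp f), hf.norm, mul_one]
  rw [h1]
  exact isIntegral_eigenvalue hN hl h (coe_mem_Sp f) hf.norm ha

end Gouvea.NF
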