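import Pool.Agent.Work.MP_d3517d_nt.NF.Defs

/-!
# Newforms (MP_d3517d_nt, part NF): change of level in the ambient space
-/

open UpperHalfPlane CongruenceSubgroup OnePoint Matrix
open scoped MatrixGroups ModularForm ComplexConjugate Manifold

noncomputable section

namespace Gouvea.NF

variable {k : ℕ}

theorem isCusp_Gam0 {N : ℕ} (hN : 0 < N) {c : OnePoint ℝ} :
    IsCusp c (Gam0 N) ↔ IsCusp c 𝒮ℒ := by
  have : NeZero N := ⟨hN.ne'⟩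
  exact Subgroup.IsArithmetic.isCusp_iff_isCusp_SL2Z _

/-- Membership in `Sp N k` in terms of functions. -/
theorem mem_Sp_iff {N : ℕ} (hN : 0 < N) {f : ℍ → ℂ} : f ∈ Sp N k ↔
    MDiff f ∧ (∀ c : OnePoint ℝ, IsCusp c 𝒮ℒ → c.IsZeroAt f (k : ℤ)) ∧
      ∀ γ ∈ Gamma0 N, f ∣[(k : ℤ)] (γ : SL(2, ℤ)) = f := by
  constructor
  · rintro ⟨F, rfl⟩
    refine ⟨F.holo', fun c hc => F.zero_at_cusps' ((isCusp_Gam0 hN).2 hc), fun γ hγ => ?_⟩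
    rw [ModularForm.SL_slash]
    exact F.slash_action_eq' _ ⟨γ, hγ, rfl⟩
  · rintro ⟨h1, h2, h3⟩
    refine ⟨{ toFun := f
              slash_action_eq' := ?_
              holo' := h1
              zero_at_cusps' := fun hc => h2 _ ((isCusp_Gam0 hN).1 hc) }, rfl⟩
    rintro _ ⟨γ, hγ, rfl⟩
    exact h3 γ hγ

theorem InV_of_mem {N : ℕ} (hN : 0 < N) {f : ℍ → ℂ} (hf : f ∈ Sp N k) : InV k f := by
  obtain ⟨h1, h2, h3⟩ := (mem_Sp_iff hN).1 hf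
  refine ⟨h1, h2, N, hN, fun γ hγ => h3 γ ?_⟩
  rw [Gamma0_mem]
  exact (Gamma_mem.1 hγ).2.2.1

theorem Gamma0_le_of_dvd {M N : ℕ} (h : M ∣ N) : Gamma0 N ≤ Gamma0 M := by
  intro γ hγ
  rw [Gamma0_mem, ZMod.intCast_zmod_eq_zero_iff_dvd] at hγ ⊢
  exact (Int.natCast_dvd_natCast.2 h).trans hγ

theorem Sp_mono {M N : ℕ} (h : M ∣ N) (hN : 0 < N) : Sp M k ≤ Sp N k := by
  intro f hf
  have hM : 0 < M := Nat.pos_of_dvd_of_pos h hN
  obtain ⟨h1, h2, h3⟩ := (mem_Sp_iff hM).1 hf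
  exact (mem_Sp_iff hN).2 ⟨h1, h2, fun γ hγ => h3 γ (Gamma0_le_of_dvd h hγ)⟩

/-- `GL₂(ℚ)` permutes the cusps of `SL₂(ℤ)`. -/
theorem isCusp_qR_smul (a : GL (Fin 2) ℚ) {c : OnePoint ℝ} (hc : IsCusp c 𝒮ℒ) :
    IsCusp (qR a • c) 𝒮ℒ := by
  rw [isCusp_SL2Z_iff] at hc ⊢
  obtain ⟨x, rfl⟩ := hc
  exact ⟨a • x, OnePoint.map_smul (algebraMap ℚ ℝ) a x⟩

theorem zero_slash_qR (a : GL (Fin 2) ℚ) {f : ℍ → ℂ}
    (h : ∀ c : OnePoint ℝ, IsCusp c 𝒮ℒ → c.IsZeroAt f (k : ℤ)) (c : OnePoint ℝ)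
    (hc : IsCusp c 𝒮ℒ) : c.IsZeroAt (f ∣[(k : ℤ)] qR a) (k : ℤ) :=
  IsZeroAt.smul_iff.1 (h _ (isCusp_qR_smul a hc))

theorem isZeroAt_smul (x : ℂ) {f : ℍ → ℂ} {c : OnePoint ℝ} (h : c.IsZeroAt f (k : ℤ)) :
    c.IsZeroAt (x • f) (k : ℤ) := by
  intro g hg
  rw [ModularForm.smul_slash]
  exact Filter.ZeroAtFilter.smul _ (h g hg)

theorem MDiff_smul (x : ℂ) {f : ℍ → ℂ} (h : MDiff f) : MDiff (x • f) := by
  exact h.const_smul x

theorem SL_smul (x : ℂ) (f : ℍ → ℂ) (γ : SL(2, ℤ)) :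
    (x • f) ∣[(k : ℤ)] γ = x • f ∣[(k : ℤ)] γ := ModularForm.SL_smul_slash _ _ _ _

theorem InV_add {f g : ℍ → ℂ} (hf : InV k f) (hg : InV k g) : InV k (f + g) := by
  obtain ⟨h1, h2, M, hM, h3⟩ := hf
  obtain ⟨g1, g2, N, hN, g3⟩ := hg
  refine ⟨h1.add g1, fun c hc => (h2 c hc).add (g2 c hc), M * N, Nat.mul_pos hM hN,
    fun γ hγ => ?_⟩
  have key : ∀ L : ℕ, L ∣ M * N → γ ∈ Gamma L := by
    intro L hL
    rw [Gamma_mem] at hγ ⊢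
    have hL' : (L : ℤ) ∣ ((M * N : ℕ) : ℤ) := Int.natCast_dvd_natCast.2 hL
    obtain ⟨e1, e2, e3, e4⟩ := hγ
    refine ⟨?_, ?_, ?_, ?_⟩
    · have := (ZMod.intCast_eq_intCast_iff_dvd_sub 1 (γ 0 0) (M * N)).1 (by simpa using e1.symm)
      simpa using ((ZMod.intCast_eq_intCast_iff_dvd_sub 1 (γ 0 0) L).2 (hL'.trans this)).symm
    · rw [ZMod.intCast_zmod_eq_zero_iff_dvd] at e2 ⊢
      exact hL'.trans e2
    · rw [ZMod.intCast_zmod_eq_zero_iff_dvd] at e3 ⊢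
      exact hL'.trans e3
    · have := (ZMod.intCast_eq_intCast_iff_dvd_sub 1 (γ 1 1) (M * N)).1 (by simpa using e4.symm)
      simpa using ((ZMod.intCast_eq_intCast_iff_dvd_sub 1 (γ 1 1) L).2 (hL'.trans this)).symm
  rw [SlashAction.add_slash, h3 γ (key M (Dvd.intro _ rfl)), g3 γ (key N (Dvd.intro_left _ rfl))]

theorem InV_smul (c : ℂ) {f : ℍ → ℂ} (hf : InV k f) : InV k (c • f) := by
  obtain ⟨h1, h2, M, hM, h3⟩ := hf
  refine ⟨MDiff_smul c h1, fun x hx => isZeroAt_smul c (h2 x hx), M, hM, fun γ hγ => ?_⟩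
  rw [SL_smul, h3 γ hγ]

theorem qR_mapGL (γ : SL(2, ℤ)) :
    qR (SpecialLinearGroup.mapGL ℚ γ) = SpecialLinearGroup.mapGL ℝ γ := by
  ext i j
  simp [qR]

theorem InV_slash (a : GL (Fin 2) ℚ) (_ha : 0 < a.det.val) {f : ℍ → ℂ} (hf : InV k f) :
    InV k (f ∣[(k : ℤ)] qR a) := by
  obtain ⟨h1, h2, M, hM, h3⟩ := hf
  have : NeZero M := ⟨hM.ne'⟩
  obtain ⟨N, hN, h4⟩ := CongruenceSubgroup.exists_Gamma_le_conj a M
  refine ⟨h1.slash _ _, zero_slash_qR a h2, N, Nat.pos_of_ne_zero hN, fun γ hγ => ?_⟩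
  obtain ⟨δ, hδ, h5⟩ := h4 γ hγ
  have h6 : qR a * SpecialLinearGroup.mapGL ℝ γ = SpecialLinearGroup.mapGL ℝ δ * qR a := by
    rw [← qR_mapGL, ← qR_mapGL, ← map_mul, ← map_mul, h5]
    congr 1
    group
  rw [ModularForm.SL_slash, ← SlashAction.slash_mul]
  have h7 := h3 δ hδ
  rw [ModularForm.SL_slash] at h7
  have h8 : ((γ : SL(2, ℤ)) : GL (Fin 2) ℝ) = SpecialLinearGroup.mapGL ℝ γ := rfl
  rw [h8, h6, SlashAction.slash_mul]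
  congr 1

/-- the rational matrix with rows `(a, b)`, `(0, d)` -/
def triQ (a b d : ℚ) (h : a * d ≠ 0) : GL (Fin 2) ℚ :=
  Matrix.GeneralLinearGroup.mkOfDetNeZero !![a, b; 0, d] (by simpa [Matrix.det_fin_two] using h)

theorem qR_triQ (a b d : ℚ) (h : a * d ≠ 0) (h' : (a : ℝ) * (d : ℝ) ≠ 0) :
    qR (triQ a b d h) = tri a b d h' := by
  ext i j
  fin_cases i <;> fin_cases j <;> simp [qR, triQ, tri, Matrix.GeneralLinearGroup.mkOfDetNeZero]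

theorem tri_eq_qR (d : ℕ) [NeZero d] (h : ((d : ℕ) : ℝ) * (1 : ℝ) ≠ 0) :
    ∃ a : GL (Fin 2) ℚ, 0 < a.det.val ∧ qR a = tri d 0 1 h := by
  have hd : (0 : ℚ) < d := by exact_mod_cast Nat.pos_of_ne_zero (NeZero.ne d)
  refine ⟨triQ d 0 1 (by simp [NeZero.ne d]), ?_, ?_⟩
  · simpa [triQ, Matrix.det_fin_two, Matrix.GeneralLinearGroup.mkOfDetNeZero] using hd
  · rw [qR_triQ _ _ _ _ (by simp [NeZero.ne d])]
    congr 1 <;> simp

theorem slash_tri_d (d : ℕ) [NeZero d] (h : ((d : ℕ) : ℝ) * (1 : ℝ) ≠ 0) (f : ℍ → ℂ) :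
    f ∣[(k : ℤ)] tri d 0 1 h = (d : ℂ) ^ ((k : ℤ) - 1) • B d f := by
  funext z
  have hd : (0 : ℝ) < d := by exact_mod_cast Nat.pos_of_ne_zero (NeZero.ne d)
  have hdet : (tri d 0 1 h).det.val = d := by simp [tri, Matrix.det_fin_two]
  have hden : denom (tri d 0 1 h) z = 1 := by simp [tri, denom]
  have hs : σ (tri d 0 1 h) = ContinuousAlgEquiv.refl ℝ ℂ := by
    rw [σ, if_pos]
    rw [hdet]; exact hd
  rw [ModularForm.slash_apply, hdet, hden, hs, _root_.one_zpow, mul_one, abs_of_pos hd]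
  simp [B, mul_comm]

theorem B_eq_slash (d : ℕ) [NeZero d] (h : ((d : ℕ) : ℝ) * (1 : ℝ) ≠ 0) (f : ℍ → ℂ) :
    B d f = ((d : ℂ) ^ ((k : ℤ) - 1))⁻¹ • (f ∣[(k : ℤ)] tri d 0 1 h) := by
  rw [slash_tri_d, smul_smul, inv_mul_cancel₀, one_smul]
  exact zpow_ne_zero _ (by exact_mod_cast NeZero.ne d)

theorem B_mem {N d : ℕ} [NeZero d] (hN : 0 < N) {f : ℍ → ℂ} (hf : f ∈ Sp N k) :
    B d f ∈ Sp (N * d) k := by
  have hd : 0 < d := Nat.pos_of_ne_zero (NeZero.ne d)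
  have h : ((d : ℕ) : ℝ) * (1 : ℝ) ≠ 0 := by simp [NeZero.ne d]
  obtain ⟨h1, h2, h3⟩ := (mem_Sp_iff hN).1 hf
  obtain ⟨a, -, ha⟩ := tri_eq_qR d h
  rw [B_eq_slash (k := k) d h f]
  refine Submodule.smul_mem _ _ ?_
  refine (mem_Sp_iff (Nat.mul_pos hN hd)).2 ⟨h1.slash _ _, ?_, fun γ hγ => ?_⟩
  · rw [← ha]
    exact zero_slash_qR a h2
  · rw [Gamma0_mem, ZMod.intCast_zmod_eq_zero_iff_dvd] at hγ
    obtain ⟨c, hc⟩ := hγ
    have hdet := γ.det_coe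
    rw [Matrix.det_fin_two] at hdet
    let δ : SL(2, ℤ) := ⟨!![γ 0 0, d * γ 0 1; N * c, γ 1 1], by
      rw [Matrix.det_fin_two_of]
      rw [hc] at hdet
      push_cast at hdet
      linear_combination hdet⟩
    have hδ : δ ∈ Gamma0 N := by
      rw [Gamma0_mem, ZMod.intCast_zmod_eq_zero_iff_dvd]
      exact ⟨c, rfl⟩
    have h4 : tri d 0 1 h * SpecialLinearGroup.mapGL ℝ γ =
        SpecialLinearGroup.mapGL ℝ δ * tri d 0 1 h := by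
      have hc' : ((γ 1 0 : ℤ) : ℝ) = N * d * c := by rw [hc]; push_cast; ring
      ext i j
      fin_cases i <;> fin_cases j <;>
        simp [tri, Matrix.GeneralLinearGroup.mkOfDetNeZero, δ, Matrix.mul_apply, Fin.sum_univ_two,
          hc'] <;> ring
    have h5 := h3 δ hδ
    rw [ModularForm.SL_slash] at h5 ⊢
    rw [← SlashAction.slash_mul]
    have h8 : ((γ : SL(2, ℤ)) : GL (Fin 2) ℝ) = SpecialLinearGroup.mapGL ℝ γ := rfl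
    rw [h8, h4, SlashAction.slash_mul]
    congr 1

end Gouvea.NF
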