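import Pool.Agent.Work.MP_d3517d_nt.NF.AdjCore
import Pool.Agent.Work.MP_d3517d_nt.NF.AmbA

/-!
# Adjoints of `T_l`, `U_q` for the Petersson product
-/

open UpperHalfPlane CongruenceSubgroup
open scoped MatrixGroups ModularForm ComplexConjugate

noncomputable section

namespace Gouvea.NF

variable {k : ℕ}

theorem invAx (k : ℕ) : Adj.InVAx k where
  add _ _ hf hg := InV_add hf hg
  smul c _ hf := InV_smul c hf
  slash a ha _ hf := InV_slash a ha hf
  zero := InV_of_mem (N := 1) one_pos (Submodule.zero_mem _)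
  mem _ hN _ hf := InV_of_mem hN hf

theorem ip_U (P : IP k) {M N q : ℕ} [NeZero q] (hM : 0 < M) (hN : 0 < N) {f g : ℍ → ℂ}
    (hf : f ∈ Sp M k) (hg : g ∈ Sp N k) :
    P.ip (U k q f) g = (q : ℂ) ^ k * P.ip f (B q g) :=
  Adj.ip_U_of (invAx k) P hM hN hf hg

theorem ip_Tl (P : IP k) {N l : ℕ} [NeZero l] (hN : 0 < N) (hl : l.Prime) (h : ¬ l ∣ N)
    {f g : ℍ → ℂ} (hf : f ∈ Sp N k) (hg : g ∈ Sp N k) :
    P.ip (Tl k l f) g = P.ip f (Tl k l g) :=
  Adj.ip_Tl_of (invAx k) P hN hl h hf hg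

end Gouvea.NF
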