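import Pool.Agent.Work.MP_d3517d_nt.NF.EigAux
import Pool.Agent.Work.MP_d3517d_nt.NF.AdjIP
import Pool.Agent.Work.MP_d3517d_nt.NF.AmbA

/-!
# Common eigenvectors of the Hecke operators (MP_d3517d_nt, part NF)
-/

set_option autoImplicit false

open UpperHalfPlane CongruenceSubgroup Module
open scoped MatrixGroups ModularForm ComplexConjugate Manifold

noncomputable section

namespace Gouvea.NF

variable {k : ℕ}

/-- the Petersson product is a positive definite hermitian form on the cusp forms -/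
theorem hermOn_Sp (P : IP k) {N : ℕ} (hN : 0 < N) : HermOn (Sp N k) P.ip :=
  hermOn_IP P N fun _ hf => InV_of_mem hN hf

/-- a stable subspace is spanned by common eigenvectors -/
theorem exists_eigenbasis {N : ℕ} (W : Submodule ℂ (ℍ → ℂ)) (P : IP k) (hN : 0 < N)
    (hW : W ≤ Sp N k)
    (hT : ∀ (l : ℕ) [NeZero l], l.Prime → ¬ l ∣ N → ∀ f ∈ W, Tl k l f ∈ W) :
    W = Submodule.span ℂ {f | f ∈ W ∧ ∀ (l : ℕ) [NeZero l], l.Prime → ¬ l ∣ N →
      ∃ a : ℂ, Tl k l f = a • f} :=
  exists_eigenbasis_aux W P hN hW hT (fun _ hf => InV_of_mem hN hf)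
    fun _ _ hl h _ hf _ hg => ip_Tl P hN hl h hf hg

end Gouvea.NF
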