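import Mathlib

/-!
# The level independent Petersson product (MP_d3517d_nt): definitions and basic lemmas
-/

open MeasureTheory UpperHalfPlane
open scoped MatrixGroups ModularForm ENNReal ComplexConjugate

noncomputable section

namespace Gouvea

open ModularGroup (fd fdo)

/-- The elements of `SL₂(ℤ)` which leave `F` invariant. -/
def stabF (F : ℍ → ℂ) : Subgroup SL(2, ℤ) where
  carrier := {γ | ∀ z, F (γ • z) = F z}
  one_mem' := fun z => by rw [one_smul]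
  mul_mem' := fun {a b} ha hb z => by rw [mul_smul, ha, hb]
  inv_mem' := fun {a} ha z => by
    have h := ha (a⁻¹ • z)
    rw [smul_inv_smul] at h
    exact h.symm

lemma mem_stabF {F : ℍ → ℂ} {γ : SL(2, ℤ)} : γ ∈ stabF F ↔ ∀ z, F (γ • z) = F z := Iff.rfl

/-- The average of `F` over its translates by `SL₂(ℤ)`. -/
def avg (F : ℍ → ℂ) (z : ℍ) : ℂ :=
  ((stabF F).index : ℂ)⁻¹ * ∑ᶠ c : SL(2, ℤ) ⧸ stabF F, F ((Quotient.out c)⁻¹ • z)

/-- The level independent Petersson product: the integral over the standard fundamental domain of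
`SL₂(ℤ)` of the average of `petersson k f g`. It is conjugate linear in `f`. -/
def ip (k : ℤ) (f g : ℍ → ℂ) : ℂ := ∫ z in fd, avg (petersson k f g) z

lemma out_inv_smul {F : ℍ → ℂ} {Γ : Subgroup SL(2, ℤ)} (hΓ : Γ ≤ stabF F) (g : SL(2, ℤ)) (z : ℍ) :
    F ((Quotient.out (g : SL(2, ℤ) ⧸ Γ))⁻¹ • z) = F (g⁻¹ • z) := by
  have h1 : (Quotient.out (g : SL(2, ℤ) ⧸ Γ))⁻¹ * g ∈ Γ :=
    QuotientGroup.eq.1 (QuotientGroup.out_eq' (g : SL(2, ℤ) ⧸ Γ))
  have h2 := mem_stabF.1 (hΓ h1) (g⁻¹ • z)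
  rw [← mul_smul, mul_assoc, mul_inv_cancel, mul_one] at h2
  exact h2

/-- The average may be computed with any subgroup of finite index which leaves `F` invariant. -/
lemma avg_eq {F : ℍ → ℂ} (Γ : Subgroup SL(2, ℤ)) [Γ.FiniteIndex] (hΓ : Γ ≤ stabF F) (z : ℍ) :
    avg F z = (Γ.index : ℂ)⁻¹ * ∑ᶠ c : SL(2, ℤ) ⧸ Γ, F ((Quotient.out c)⁻¹ • z) := by
  classical
  have hfi : (stabF F).FiniteIndex := Subgroup.finiteIndex_of_le hΓ
  have : Fintype (SL(2, ℤ) ⧸ Γ) := Fintype.ofFinite _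
  have : Fintype (SL(2, ℤ) ⧸ stabF F) := Fintype.ofFinite _
  rw [avg, finsum_eq_sum_of_fintype, finsum_eq_sum_of_fintype]
  let E := Subgroup.quotientEquivProdOfLE hΓ
  have hE : ∀ g : SL(2, ℤ), (E (g : SL(2, ℤ) ⧸ Γ)).1 = (g : SL(2, ℤ) ⧸ stabF F) := fun g => rfl
  have h1 : ∀ c : SL(2, ℤ) ⧸ Γ, F ((Quotient.out c)⁻¹ • z) =
      F ((Quotient.out (E c).1)⁻¹ • z) := by
    intro c
    induction c using QuotientGroup.induction_on with
    | H g => rw [hE, out_inv_smul (F := F) hΓ, out_inv_smul (F := F) le_rfl]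
  have : Finite (stabF F ⧸ Γ.subgroupOf (stabF F)) := by
    have : Finite ((SL(2, ℤ) ⧸ stabF F) × stabF F ⧸ Γ.subgroupOf (stabF F)) := Finite.of_equiv _ E
    exact Finite.of_surjective (fun x : (SL(2, ℤ) ⧸ stabF F) × stabF F ⧸ Γ.subgroupOf (stabF F) =>
      x.2) (fun y => ⟨(((1 : SL(2, ℤ)) : SL(2, ℤ) ⧸ stabF F), y), rfl⟩)
  have : Fintype (stabF F ⧸ Γ.subgroupOf (stabF F)) := Fintype.ofFinite _
  rw [Finset.sum_congr rfl fun c _ => h1 c,
    E.sum_comp (fun x => F ((Quotient.out x.1)⁻¹ • z)), Fintype.sum_prod_type]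
  have h2 : ∀ d : SL(2, ℤ) ⧸ stabF F,
      ∑ _y : stabF F ⧸ Γ.subgroupOf (stabF F), F ((Quotient.out d)⁻¹ • z) =
        (Γ.relIndex (stabF F) : ℂ) * F ((Quotient.out d)⁻¹ • z) := by
    intro d
    rw [Finset.sum_const, nsmul_eq_mul, Finset.card_univ, ← Nat.card_eq_fintype_card]
    rfl
  rw [Finset.sum_congr rfl fun d _ => h2 d, ← Finset.mul_sum, ← mul_assoc]
  congr 1
  have h3 := Subgroup.relIndex_mul_index hΓ
  rw [← h3]
  have h4 : ((Γ.relIndex (stabF F) : ℕ) : ℂ) ≠ 0 := by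
    have h5 : Γ.index ≠ 0 := Subgroup.FiniteIndex.index_ne_zero
    rw [← h3] at h5
    exact_mod_cast (left_ne_zero_of_mul h5)
  push_cast
  rw [mul_inv, mul_assoc, mul_comm, mul_assoc, mul_inv_cancel₀ h4, mul_one]

end Gouvea
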