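import Pool.Agent.Work.MP_d3517d_nt.NF.PetCore

/-!
# The standard fundamental domain as a weight function (MP_d3517d_nt)
-/

open MeasureTheory UpperHalfPlane
open scoped MatrixGroups ModularForm ENNReal ComplexConjugate

noncomputable section

namespace Gouvea

open ModularGroup (fd fdo)

instance countable_SL2Z : Countable SL(2, ℤ) := by
  have h : Function.Injective (fun g : SL(2, ℤ) => fun p : Fin 2 × Fin 2 => g p.1 p.2) := by
    intro g g' hg
    ext i j
    exact congrFun hg (i, j)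
  exact h.countable

namespace PetFd

/-- The strip `|re z| ≤ 1/2`, `im z ≥ 1/2`. -/
def strip : Set ℂ := Set.Icc (-1 / 2) (1 / 2) ×ℂ Set.Ici (1 / 2)

lemma fd_subset : (UpperHalfPlane.coe '' fd : Set ℂ) ⊆ strip := by
  rintro _ ⟨z, hz, rfl⟩
  have h1 := ModularGroup.three_le_four_mul_im_sq_of_mem_fd hz
  have h2 := abs_le.1 hz.2
  have h3 := z.im_pos
  refine ⟨⟨by simpa using (by linarith [h2.1] : (-1 : ℝ) / 2 ≤ z.re), h2.2⟩, ?_⟩
  show (1 / 2 : ℝ) ≤ z.im
  nlinarith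

lemma lintegral_strip : ∫⁻ z in strip, ((((1 / ‖z.im‖₊) ^ 2 : NNReal)) : ℝ≥0∞) < ∞ := by
  have hS : strip = Complex.measurableEquivRealProd ⁻¹'
      (Set.Icc (-1 / 2 : ℝ) (1 / 2) ×ˢ Set.Ici (1 / 2 : ℝ)) := by
    ext z
    simp [strip, Complex.mem_reProdIm]
  let φ : ℝ → ℝ≥0∞ := fun y => (((1 / ‖y‖₊) ^ 2 : NNReal) : ℝ≥0∞)
  have hφm : Measurable φ := by
    refine Measurable.coe_nnreal_ennreal ?_
    exact (measurable_const.div measurable_nnnorm).pow_const 2
  have h1 : ∫⁻ z in strip, ((((1 / ‖z.im‖₊) ^ 2 : NNReal)) : ℝ≥0∞) =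
      ∫⁻ p in (Set.Icc (-1 / 2 : ℝ) (1 / 2) ×ˢ Set.Ici (1 / 2 : ℝ)), φ p.2 := by
    rw [hS]
    exact Complex.volume_preserving_equiv_real_prod.setLIntegral_comp_preimage_emb
      Complex.measurableEquivRealProd.measurableEmbedding (fun p => φ p.2) _
  rw [h1, Measure.volume_eq_prod, ← Measure.prod_restrict]
  have h2 : ∫⁻ p, φ p.2 ∂((volume.restrict (Set.Icc (-1 / 2 : ℝ) (1 / 2))).prod
      (volume.restrict (Set.Ici (1 / 2 : ℝ)))) =
      (∫⁻ _ in (Set.Icc (-1 / 2 : ℝ) (1 / 2)), 1) * ∫⁻ y in Set.Ici (1 / 2 : ℝ), φ y := by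
    rw [← lintegral_prod_mul aemeasurable_const hφm.aemeasurable]
    simp
  rw [h2]
  refine ENNReal.mul_lt_top (by simp) ?_
  rw [setLIntegral_congr Ioi_ae_eq_Ici.symm]
  have h3 : IntegrableOn (fun y : ℝ => y ^ (-2 : ℝ)) (Set.Ioi (1 / 2)) :=
    integrableOn_Ioi_rpow_of_lt (by norm_num) (by norm_num)
  have h4 := h3.2
  rw [HasFiniteIntegral] at h4
  refine lt_of_eq_of_lt (setLIntegral_congr_fun measurableSet_Ioi fun y hy => ?_) h4
  have hy0 : 0 < y := lt_trans (by norm_num) hy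
  have h5 : ‖y ^ (-2 : ℝ)‖₊ = (1 / ‖y‖₊) ^ 2 := by
    ext
    rw [coe_nnnorm, Real.norm_of_nonneg (Real.rpow_nonneg hy0.le _)]
    push_cast
    rw [Real.norm_of_nonneg hy0.le, Real.rpow_neg hy0.le]
    norm_num
  simp only [φ, enorm_eq_nnnorm, h5]

lemma volume_fd_lt_top : (volume : Measure ℍ) fd < ∞ := by
  rw [volume_eq_lintegral]
  exact lt_of_le_of_lt (lintegral_mono_set fd_subset) lintegral_strip

lemma null_of_coe {s : Set ℍ} (h : (volume : Measure ℂ) (UpperHalfPlane.coe '' s) = 0) :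
    (volume : Measure ℍ) s = 0 := by
  rw [volume_eq_lintegral]
  exact setLIntegral_measure_zero _ _ h

lemma volume_re_eq (a : ℝ) : (volume : Measure ℂ) {z | z.re = a} = 0 := by
  have h1 : {z : ℂ | z.re = a} = Complex.measurableEquivRealProd ⁻¹' ({a} ×ˢ Set.univ) := by
    ext z
    simp
  rw [h1, Complex.volume_preserving_equiv_real_prod.measure_preimage
    ((measurableSet_singleton a).prod MeasurableSet.univ).nullMeasurableSet,
    Measure.volume_eq_prod, Measure.prod_prod]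
  simp

lemma volume_bdry : (volume : Measure ℍ) (fd \ fdo) = 0 := by
  refine null_of_coe (measure_mono_null (t := Metric.sphere (0 : ℂ) 1 ∪
    ({z | z.re = 1 / 2} ∪ {z | z.re = -(1 / 2)})) ?_ ?_)
  · rintro _ ⟨z, ⟨hz, hz'⟩, rfl⟩
    by_cases h1 : 1 < Complex.normSq (z : ℂ)
    · right
      have h2 : ¬ |z.re| < 1 / 2 := fun h => hz' ⟨h1, h⟩
      have h3 : |z.re| = 1 / 2 := le_antisymm hz.2 (not_lt.1 h2)
      rcases abs_eq (by norm_num : (0 : ℝ) ≤ 1 / 2) |>.1 h3 with h4 | h4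
      · left; exact h4
      · right; exact h4
    · left
      have h2 : Complex.normSq (z : ℂ) = 1 := le_antisymm (not_lt.1 h1) hz.1
      rw [mem_sphere_zero_iff_norm]
      rw [Complex.normSq_eq_norm_sq] at h2
      nlinarith [norm_nonneg (z : ℂ)]
  · rw [measure_union_null_iff, measure_union_null_iff]
    exact ⟨Measure.addHaar_sphere _ _ _, volume_re_eq _, volume_re_eq _⟩

lemma ae_good : ∀ᵐ z : ℍ, ∀ g : SL(2, ℤ), g • z ∈ fd → g • z ∈ fdo := by
  rw [ae_all_iff]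
  intro g
  have h1 : ∀ᵐ z : ℍ, ¬ z ∈ fd \ fdo := measure_eq_zero_iff_ae_notMem.1 volume_bdry
  have h2 := PetCore.ae_smul h1 (Matrix.SpecialLinearGroup.mapGL ℝ g)
  filter_upwards [h2] with z hz hz1
  by_contra h3
  exact hz ⟨hz1, h3⟩

/-- Almost every orbit meets the fundamental domain exactly twice. -/
lemma ae_hasSum : ∀ᵐ z : ℍ, HasSum (fun g : SL(2, ℤ) => fd.indicator (fun _ => (1 : ℝ)) (g • z))
    2 := by
  filter_upwards [ae_good] with z hz
  obtain ⟨g₀, hg₀⟩ := ModularGroup.exists_smul_mem_fd z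
  have hne : g₀ ≠ -g₀ := by
    intro h
    have h1 := congrArg (fun g : SL(2, ℤ) => (g : Matrix (Fin 2) (Fin 2) ℤ)) h
    have hdet := g₀.det_coe
    have h2 : (g₀ : Matrix (Fin 2) (Fin 2) ℤ) = 0 := by
      have h3 : (g₀ : Matrix (Fin 2) (Fin 2) ℤ) = -(g₀ : Matrix (Fin 2) (Fin 2) ℤ) := by
        simpa using h1
      ext i j
      have := congrFun (congrFun h3 i) j
      simp only [Matrix.neg_apply] at this
      simp only [Matrix.zero_apply]
      omega
    rw [h2] at hdet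
    simp at hdet
  have hkey : ∀ g : SL(2, ℤ), g • z ∈ fd → g = g₀ ∨ g = -g₀ := by
    intro g hg
    have h1 := hz g₀ hg₀
    have h2 : (g * g₀⁻¹) • (g₀ • z) ∈ fd := by
      rw [mul_smul, inv_smul_smul]
      exact hg
    rcases ModularGroup.eq_one_or_neg_one_of_mem_fdo_mem_fd h1 h2 with h3 | h3
    · left
      exact mul_inv_eq_one.1 h3
    · right
      rw [mul_inv_eq_iff_eq_mul] at h3
      rw [h3, neg_mul, one_mul]
  have hsum : (2 : ℝ) = ∑ g ∈ ({g₀, -g₀} : Finset SL(2, ℤ)),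
      fd.indicator (fun _ => (1 : ℝ)) (g • z) := by
    rw [Finset.sum_pair hne, Set.indicator_of_mem hg₀, Set.indicator_of_mem (by
      rw [ModularGroup.SL_neg_smul]; exact hg₀)]
    norm_num
  rw [hsum]
  refine hasSum_sum_of_ne_finset_zero fun g hg => ?_
  refine Set.indicator_of_notMem (fun h => hg ?_) _
  rcases hkey g h with h1 | h1 <;> simp [h1]

end PetFd

/-- The weight function of a subgroup `Γ` of finite index of `SL₂(ℤ)`: the number of cosets
`c ∈ SL₂(ℤ)/Γ` such that `c z` lies in the standard fundamental domain (for the chosen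
representatives). -/
def wt (Γ : Subgroup SL(2, ℤ)) (z : ℍ) : ℝ :=
  ∑ᶠ c : SL(2, ℤ) ⧸ Γ, fd.indicator (fun _ => (1 : ℝ)) (Quotient.out c • z)

namespace PetFd

variable (Γ : Subgroup SL(2, ℤ)) [Γ.FiniteIndex]

lemma measurableSet_fd : MeasurableSet (fd : Set ℍ) := ModularGroup.isClosed_fd.measurableSet

lemma measurable_smul_SL (g : SL(2, ℤ)) : Measurable fun z : ℍ => g • z :=
  measurable_const_smul (Matrix.SpecialLinearGroup.mapGL ℝ g)

lemma measurable_ind (g : SL(2, ℤ)) :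
    Measurable fun z : ℍ => fd.indicator (fun _ => (1 : ℝ)) (g • z) :=
  (measurable_const.indicator measurableSet_fd).comp (measurable_smul_SL g)

lemma ind_nonneg (z : ℍ) : 0 ≤ (fd : Set ℍ).indicator (fun _ => (1 : ℝ)) z :=
  Set.indicator_nonneg (fun _ _ => zero_le_one) _

/-- Every element of `SL₂(ℤ)` is uniquely `c γ` with `c` a chosen representative. -/
def cosetEquiv : Γ × (SL(2, ℤ) ⧸ Γ) ≃ SL(2, ℤ) where
  toFun p := Quotient.out p.2 * p.1
  invFun g := (⟨(Quotient.out (g : SL(2, ℤ) ⧸ Γ))⁻¹ * g,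
    QuotientGroup.eq.1 (QuotientGroup.out_eq' (g : SL(2, ℤ) ⧸ Γ))⟩, (g : SL(2, ℤ) ⧸ Γ))
  left_inv p := by
    obtain ⟨γ, c⟩ := p
    have h1 : ((Quotient.out c * (γ : SL(2, ℤ)) : SL(2, ℤ)) : SL(2, ℤ) ⧸ Γ) = c := by
      rw [QuotientGroup.mk_mul_of_mem _ γ.2]
      exact QuotientGroup.out_eq' c
    refine Prod.ext ?_ h1
    apply Subtype.ext
    simp only [h1, inv_mul_cancel_left]
  right_inv g := by simp

lemma hasSum_wt : ∀ᵐ z : ℍ, HasSum (fun γ : Γ => wt Γ ((γ : SL(2, ℤ)) • z)) 2 := by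
  classical
  have : Fintype (SL(2, ℤ) ⧸ Γ) := Fintype.ofFinite _
  filter_upwards [ae_hasSum] with z hz
  have h1 := (cosetEquiv Γ).hasSum_iff.2 hz
  have h2 := h1.prod_fiberwise fun γ => hasSum_fintype _
  have he : (fun γ : Γ => wt Γ ((γ : SL(2, ℤ)) • z)) = fun γ : Γ => ∑ c : SL(2, ℤ) ⧸ Γ,
      ((fun g : SL(2, ℤ) => fd.indicator (fun _ => (1 : ℝ)) (g • z)) ∘ cosetEquiv Γ) (γ, c) := by
    funext γ
    rw [wt, finsum_eq_sum_of_fintype]
    refine Finset.sum_congr rfl fun c _ => ?_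
    show fd.indicator (fun _ => (1 : ℝ)) (Quotient.out c • (γ : SL(2, ℤ)) • z) =
      fd.indicator (fun _ => (1 : ℝ)) ((Quotient.out c * (γ : SL(2, ℤ))) • z)
    rw [mul_smul]
  rw [he]
  exact h2

lemma isWt_wt : IsWt (Γ.map (Matrix.SpecialLinearGroup.mapGL ℝ)) (wt Γ) := by
  classical
  have : Fintype (SL(2, ℤ) ⧸ Γ) := Fintype.ofFinite _
  have hw : wt Γ = fun z => ∑ c : SL(2, ℤ) ⧸ Γ,
      fd.indicator (fun _ => (1 : ℝ)) (Quotient.out c • z) := by
    funext z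
    exact finsum_eq_sum_of_fintype _
  refine ⟨?_, ?_, ?_⟩
  · rw [hw]
    exact Finset.measurable_sum _ fun c _ => measurable_ind _
  · intro z
    rw [hw]
    exact Finset.sum_nonneg fun c _ => ind_nonneg _
  · filter_upwards [hasSum_wt Γ] with z hz
    let e : Γ ≃ Γ.map (Matrix.SpecialLinearGroup.mapGL ℝ) :=
      (Γ.equivMapOfInjective _ Matrix.SpecialLinearGroup.mapGL_injective).toEquiv
    rw [← e.hasSum_iff]
    exact hz

end PetFd

end Gouvea
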