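import Pool.Agent.Work.MP_d3517d_nt.NF.Defs
import Pool.Agent.Work.MP_d3517d_nt.NF.IpDefs
import Pool.Agent.Work.MP_d3517d_nt.NF.PetFd

/-!
# The level independent Petersson product is a positive definite hermitian form (MP_d3517d_nt)
-/

open MeasureTheory UpperHalfPlane CongruenceSubgroup Matrix.SpecialLinearGroup
open scoped MatrixGroups ModularForm Manifold ComplexConjugate ENNReal

noncomputable section

namespace Gouvea.NF

open ModularGroup (fd fdo)

/-- `Γ(M)` in `GL₂(ℝ)`. -/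
abbrev GamR (M : ℕ) : Subgroup (GL (Fin 2) ℝ) := (Gamma M).map (mapGL ℝ)

lemma Gamma_le_of_dvd {M N : ℕ} (h : M ∣ N) : Gamma N ≤ Gamma M := by
  intro γ hγ
  rw [Gamma_mem] at hγ ⊢
  have h1 : ∀ a : ℤ, (a : ZMod M) = ZMod.castHom h (ZMod M) (a : ZMod N) := fun a => by simp
  simp only [h1]
  obtain ⟨h2, h3, h4, h5⟩ := hγ
  rw [h2, h3, h4, h5]
  exact ⟨map_one _, map_zero _, map_zero _, map_one _⟩

variable {k : ℕ} {f g h : ℍ → ℂ}

/-- The cusp form for `Γ(N)` attached to an element of `InV k`. -/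
lemma InV.exists_form (hf : InV k f) : ∃ M : ℕ, M ≠ 0 ∧ ∀ N : ℕ, M ∣ N →
    ∃ F : CuspForm (GamR N) k, (⇑F : ℍ → ℂ) = f := by
  obtain ⟨h1, h2, M, hM, h3⟩ := hf
  refine ⟨M, hM.ne', fun N hN => ⟨
    { toFun := f
      slash_action_eq' := ?_
      holo' := h1
      zero_at_cusps' := fun hc => h2 _ (hc.mono ?_) }, rfl⟩⟩
  · rintro _ ⟨γ, hγ, rfl⟩
    exact h3 γ (Gamma_le_of_dvd hN hγ)
  · rintro _ ⟨γ, _, rfl⟩
    exact ⟨γ, rfl⟩

lemma InV.exists_common (hf : InV k f) (hg : InV k g) (hh : InV k h) : ∃ M : ℕ, M ≠ 0 ∧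
    (∃ F : CuspForm (GamR M) k, (⇑F : ℍ → ℂ) = f) ∧
    (∃ F : CuspForm (GamR M) k, (⇑F : ℍ → ℂ) = g) ∧
    (∃ F : CuspForm (GamR M) k, (⇑F : ℍ → ℂ) = h) := by
  obtain ⟨M₁, h1, h1'⟩ := hf.exists_form
  obtain ⟨M₂, h2, h2'⟩ := hg.exists_form
  obtain ⟨M₃, h3, h3'⟩ := hh.exists_form
  exact ⟨M₁ * M₂ * M₃, mul_ne_zero (mul_ne_zero h1 h2) h3, h1' _ ⟨M₂ * M₃, by ring⟩,
    h2' _ ⟨M₁ * M₃, by ring⟩, h3' _ ⟨M₁ * M₂, by ring⟩⟩

/-- `Γ(M)` leaves the petersson function of forms of level `Γ(M)` invariant. -/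
lemma Gamma_le_stabF {M : ℕ} (F G : CuspForm (GamR M) k) :
    Gamma M ≤ stabF (petersson k F G) := by
  intro γ hγ z
  have h := petersson_slash_SL k F G γ z
  have hF : (⇑F : ℍ → ℂ) ∣[(k : ℤ)] γ = F := F.slash_action_eq' _ (Subgroup.mem_map_of_mem _ hγ)
  have hG : (⇑G : ℍ → ℂ) ∣[(k : ℤ)] γ = G := G.slash_action_eq' _ (Subgroup.mem_map_of_mem _ hγ)
  rw [hF, hG] at h
  exact h.symm

/-- The average in terms of `Γ(M)`. -/
lemma avg_petersson {M : ℕ} (hM : M ≠ 0) (F G : CuspForm (GamR M) k) (z : ℍ) :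
    avg (petersson k F G) z = ((Gamma M).index : ℂ)⁻¹ *
      ∑ᶠ c : SL(2, ℤ) ⧸ Gamma M, petersson k F G ((Quotient.out c)⁻¹ • z) := by
  have : NeZero M := ⟨hM⟩
  exact avg_eq (Gamma M) (Gamma_le_stabF F G) z

lemma continuous_avg {M : ℕ} (hM : M ≠ 0) (F G : CuspForm (GamR M) k) :
    Continuous (avg (petersson k F G)) := by
  have : NeZero M := ⟨hM⟩
  have : Fintype (SL(2, ℤ) ⧸ Gamma M) := Fintype.ofFinite _
  have h1 : avg (petersson k F G) = fun z => ((Gamma M).index : ℂ)⁻¹ *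
      ∑ c : SL(2, ℤ) ⧸ Gamma M, petersson k F G ((Quotient.out c)⁻¹ • z) := by
    funext z
    rw [avg_petersson hM, finsum_eq_sum_of_fintype]
  rw [h1]
  have h2 : Continuous (petersson k F G) :=
    petersson_continuous k F.holo'.continuous G.holo'.continuous
  refine continuous_const.mul (continuous_finsetSum _ fun c _ => h2.comp ?_)
  exact continuous_const_smul (mapGL ℝ (Quotient.out c)⁻¹)

lemma bounded_avg {M : ℕ} (hM : M ≠ 0) (F G : CuspForm (GamR M) k) :
    ∃ C, ∀ z, ‖avg (petersson k F G) z‖ ≤ C := by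
  have : NeZero M := ⟨hM⟩
  have : Fintype (SL(2, ℤ) ⧸ Gamma M) := Fintype.ofFinite _
  obtain ⟨C, hC⟩ := CuspFormClass.petersson_bounded_left k (GamR M) F G
  refine ⟨‖((Gamma M).index : ℂ)⁻¹‖ * ∑ _c : SL(2, ℤ) ⧸ Gamma M, C, fun z => ?_⟩
  rw [avg_petersson hM, finsum_eq_sum_of_fintype, norm_mul]
  gcongr
  exact (norm_sum_le _ _).trans (Finset.sum_le_sum fun c _ => hC _)

lemma integrable_avg {M : ℕ} (hM : M ≠ 0) (F G : CuspForm (GamR M) k) :
    IntegrableOn (avg (petersson k F G)) fd := by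
  obtain ⟨C, hC⟩ := bounded_avg hM F G
  have : IsFiniteMeasure ((volume : Measure ℍ).restrict fd) :=
    ⟨by rw [Measure.restrict_apply_univ]; exact PetFd.volume_fd_lt_top⟩
  exact Integrable.of_bound (continuous_avg hM F G).aestronglyMeasurable C
    (Filter.Eventually.of_forall hC)

theorem ip_add_right (hf : InV k f) (hg : InV k g) (hh : InV k h) :
    ip k f (g + h) = ip k f g + ip k f h := by
  obtain ⟨M, hM, ⟨F, rfl⟩, ⟨G, rfl⟩, ⟨H, rfl⟩⟩ := hf.exists_common hg hh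
  have : NeZero M := ⟨hM⟩
  have : Fintype (SL(2, ℤ) ⧸ Gamma M) := Fintype.ofFinite _
  rw [ip, ip, ip, ← integral_add (integrable_avg hM F G) (integrable_avg hM F H)]
  refine integral_congr_ae (Filter.Eventually.of_forall fun z => ?_)
  have h1 : avg (petersson k F (⇑G + ⇑H)) z = avg (petersson k F ⇑(G + H)) z := rfl
  simp only
  rw [h1, avg_petersson hM, avg_petersson hM, avg_petersson hM, finsum_eq_sum_of_fintype,
    finsum_eq_sum_of_fintype, finsum_eq_sum_of_fintype, ← mul_add, ← Finset.sum_add_distrib]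
  congr 1
  refine Finset.sum_congr rfl fun c _ => ?_
  simp only [petersson, FunLike.coe_add, Pi.add_apply]
  ring

theorem ip_smul_right (c : ℂ) (hf : InV k f) (hg : InV k g) :
    ip k f (c • g) = c * ip k f g := by
  obtain ⟨M, hM, ⟨F, rfl⟩, ⟨G, rfl⟩, -⟩ := hf.exists_common hg hg
  have : NeZero M := ⟨hM⟩
  have : Fintype (SL(2, ℤ) ⧸ Gamma M) := Fintype.ofFinite _
  rw [ip, ip, ← integral_const_mul]
  refine integral_congr_ae (Filter.Eventually.of_forall fun z => ?_)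
  have h1 : avg (petersson k F (c • ⇑G)) z = avg (petersson k F ⇑(c • G)) z := rfl
  simp only
  rw [h1, avg_petersson hM, avg_petersson hM, finsum_eq_sum_of_fintype,
    finsum_eq_sum_of_fintype, mul_left_comm c, Finset.mul_sum _ _ c]
  congr 1
  refine Finset.sum_congr rfl fun d _ => ?_
  simp only [petersson]
  show _ * (c * G _) * _ = _
  ring

theorem ip_symm (hf : InV k f) (hg : InV k g) : ip k g f = conj (ip k f g) := by
  obtain ⟨M, hM, ⟨F, rfl⟩, ⟨G, rfl⟩, -⟩ := hf.exists_common hg hg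
  have : NeZero M := ⟨hM⟩
  have : Fintype (SL(2, ℤ) ⧸ Gamma M) := Fintype.ofFinite _
  rw [ip, ip, ← integral_conj]
  refine integral_congr_ae (Filter.Eventually.of_forall fun z => ?_)
  simp only
  rw [avg_petersson hM, avg_petersson hM, finsum_eq_sum_of_fintype,
    finsum_eq_sum_of_fintype, map_mul, map_sum, map_inv₀, map_natCast]
  congr 1
  refine Finset.sum_congr rfl fun d _ => ?_
  exact petersson_symm _ _ _ _

lemma volume_pos_of_isOpen {U : Set ℍ} (hU : IsOpen U) (hne : U.Nonempty) :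
    0 < (volume : Measure ℍ) U := by
  have h1 : IsOpen (UpperHalfPlane.coe '' U : Set ℂ) :=
    UpperHalfPlane.isOpenEmbedding_coe.isOpenMap _ hU
  rw [volume_eq_lintegral, setLIntegral_pos_iff (by fun_prop)]
  refine lt_of_lt_of_le (h1.measure_pos volume (hne.image _)) (measure_mono ?_)
  rintro _ ⟨z, hz, rfl⟩
  refine ⟨?_, z, hz, rfl⟩
  rw [Function.mem_support]
  simp [z.im_ne_zero]

lemma petersson_self (f : ℍ → ℂ) (z : ℍ) :
    petersson k f f z = ((‖f z‖ ^ 2 * z.im ^ k : ℝ) : ℂ) := by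
  rw [petersson, ← Complex.normSq_eq_conj_mul_self, Complex.normSq_eq_norm_sq]
  push_cast
  rw [zpow_natCast]

/-- A holomorphic function which vanishes on an open set is zero. -/
lemma eq_zero_of_eqOn_open {f : ℍ → ℂ} (hf : MDiff f) {U : Set ℍ} (hU : IsOpen U)
    (hne : U.Nonempty) (h : ∀ z ∈ U, f z = 0) : f = 0 := by
  have h1 : DifferentiableOn ℂ (f ∘ ofComplex) {z | 0 < z.im} := mdifferentiable_iff.1 hf
  have h2 : AnalyticOnNhd ℂ (f ∘ ofComplex) {z | 0 < z.im} :=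
    h1.analyticOnNhd isOpen_upperHalfPlaneSet
  obtain ⟨z₀, hz₀⟩ := hne
  have h3 : (f ∘ ofComplex) =ᶠ[nhds (z₀ : ℂ)] 0 := by
    have h4 : IsOpen (UpperHalfPlane.coe '' U : Set ℂ) :=
      UpperHalfPlane.isOpenEmbedding_coe.isOpenMap _ hU
    filter_upwards [h4.mem_nhds ⟨z₀, hz₀, rfl⟩]
    rintro _ ⟨z, hz, rfl⟩
    simp [h z hz]
  have h5 := h2.eqOn_zero_of_preconnected_of_eventuallyEq_zero
    (convex_halfSpace_im_gt 0).isPreconnected z₀.im_pos h3
  funext z
  have h6 := h5 z.im_pos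
  simpa using h6

theorem ip_pos (hf : InV k f) (h0 : f ≠ 0) : 0 < (ip k f f).re := by
  obtain ⟨M, hM, ⟨F, rfl⟩, -, -⟩ := hf.exists_common hf hf
  have : NeZero M := ⟨hM⟩
  have : Fintype (SL(2, ℤ) ⧸ Gamma M) := Fintype.ofFinite _
  have hind : 0 < (Gamma M).index := Nat.pos_of_ne_zero Subgroup.FiniteIndex.index_ne_zero
  set φ : ℍ → ℝ := fun z => ((Gamma M).index : ℝ)⁻¹ *
    ∑ c : SL(2, ℤ) ⧸ Gamma M, ‖F ((Quotient.out c)⁻¹ • z)‖ ^ 2 *
      ((Quotient.out c)⁻¹ • z).im ^ k with hφ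
  have hφ1 : ∀ z, avg (petersson k F F) z = (φ z : ℂ) := by
    intro z
    rw [avg_petersson hM, finsum_eq_sum_of_fintype, hφ]
    push_cast
    congr 1
    refine Finset.sum_congr rfl fun c _ => ?_
    rw [petersson_self]
    push_cast
    rfl
  have hφ0 : ∀ z, 0 ≤ φ z := fun z => by
    refine mul_nonneg (by positivity) (Finset.sum_nonneg fun c _ => ?_)
    exact mul_nonneg (sq_nonneg _) (pow_nonneg (im_pos _).le _)
  have hcont : Continuous φ := by
    have h1 : φ = fun z => (avg (petersson k F F) z).re := by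
      funext z
      rw [hφ1]
      simp
    rw [h1]
    exact Complex.continuous_re.comp (continuous_avg hM F F)
  have hint : IntegrableOn φ fd := by
    have h1 := (integrable_avg hM F F).re
    refine h1.congr (Filter.Eventually.of_forall fun z => ?_)
    simp [hφ1]
  have hip : (ip k F F).re = ∫ z in fd, φ z := by
    rw [ip]
    have h1 : ∫ z in fd, avg (petersson k F F) z = ∫ z in fd, ((φ z : ℝ) : ℂ) :=
      integral_congr_ae (Filter.Eventually.of_forall fun z => hφ1 z)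
    rw [h1, integral_complex_ofReal, Complex.ofReal_re]
  rw [hip, setIntegral_pos_iff_support_of_nonneg_ae (Filter.Eventually.of_forall hφ0) hint]
  have hop : IsOpen (Function.support φ ∩ fdo) :=
    (hcont.isOpen_support).inter ModularGroup.isOpen_fdo
  refine lt_of_lt_of_le (volume_pos_of_isOpen hop ?_)
    (measure_mono (Set.inter_subset_inter_right _ ModularGroup.fdo_subset_fd))
  by_contra hemp
  rw [Set.not_nonempty_iff_eq_empty] at hemp
  refine h0 (eq_zero_of_eqOn_open (hf.1) ModularGroup.isOpen_fdo ?_ fun z hz => ?_)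
  · refine ⟨⟨2 * Complex.I, by simp⟩, ?_, ?_⟩
    · simp [Complex.normSq_apply]
      norm_num
    · simp [UpperHalfPlane.re]
  · have h1 : φ z = 0 := by
      by_contra h
      have : z ∈ Function.support φ ∩ fdo := ⟨h, hz⟩
      rw [hemp] at this
      exact this
    have h2 : ∑ c : SL(2, ℤ) ⧸ Gamma M, ‖F ((Quotient.out c)⁻¹ • z)‖ ^ 2 *
      ((Quotient.out c)⁻¹ • z).im ^ k = 0 := by
      rcases mul_eq_zero.1 h1 with h | h
      · exfalso
        have : ((Gamma M).index : ℝ) ≠ 0 := by exact_mod_cast hind.ne'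
        exact inv_ne_zero this h
      · exact h
    have h3 := (Finset.sum_eq_zero_iff_of_nonneg (fun c _ =>
      mul_nonneg (sq_nonneg _) (pow_nonneg (im_pos _).le _))).1 h2
      (((1 : SL(2, ℤ)) : SL(2, ℤ) ⧸ Gamma M)) (Finset.mem_univ _)
    have h4 := out_inv_smul (F := petersson k F F) (Gamma_le_stabF F F) 1 z
    rw [petersson_self, petersson_self, h3, inv_one, one_smul] at h4
    have h5 : ‖F z‖ ^ 2 * z.im ^ k = 0 := by exact_mod_cast h4.symm
    rcases mul_eq_zero.1 h5 with h | h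
    · exact norm_eq_zero.1 (pow_eq_zero_iff (two_ne_zero) |>.1 h)
    · exact absurd h (pow_ne_zero _ z.im_ne_zero)

end Gouvea.NF
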