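import Pool.Agent.Work.MP_d3517d_nt.NF.Ip
import Pool.Agent.Work.MP_d3517d_nt.NF.IpForm

/-!
# The level independent Petersson product exists (MP_d3517d_nt)
-/

open MeasureTheory UpperHalfPlane CongruenceSubgroup
open scoped MatrixGroups ModularForm ENNReal ComplexConjugate

noncomputable section

namespace Gouvea.NF

lemma ip_slash' {k : ℕ} (a : GL (Fin 2) ℚ) (ha : 0 < a.det.val) {f g : ℍ → ℂ} (hf : InV k f)
    (hg : InV k g) : ip (k : ℤ) (f ∣[(k : ℤ)] qR a) (g ∣[(k : ℤ)] qR a) =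
      ((a.det.val : ℚ) : ℂ) ^ ((k : ℤ) - 2) * ip (k : ℤ) f g := by
  obtain ⟨M, hM, ⟨F, rfl⟩, ⟨G, rfl⟩, -⟩ := hf.exists_common hg hg
  have : NeZero M := ⟨hM⟩
  have hF : ∀ γ ∈ Gamma M, ⇑F ∣[(k : ℤ)] (γ : SL(2, ℤ)) = ⇑F := fun γ hγ =>
    F.slash_action_eq' _ (Subgroup.mem_map_of_mem _ hγ)
  have hG : ∀ γ ∈ Gamma M, ⇑G ∣[(k : ℤ)] (γ : SL(2, ℤ)) = ⇑G := fun γ hγ =>
    G.slash_action_eq' _ (Subgroup.mem_map_of_mem _ hγ)
  have hFc : Continuous (⇑F : ℍ → ℂ) := F.holo'.continuous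
  have hGc : Continuous (⇑G : ℍ → ℂ) := G.holo'.continuous
  exact Ip.ip_slash (k : ℤ) (Nat.pos_of_ne_zero hM) hF hG
    (petersson_continuous _ hFc hGc).measurable
    (CuspFormClass.petersson_bounded_left k _ F G) a ha

/-- The level independent Petersson product. -/
def theIP (k : ℕ) : IP k where
  ip := ip (k : ℤ)
  add_right _ _ _ hf hg hh := ip_add_right hf hg hh
  smul_right c _ _ hf hg := ip_smul_right c hf hg
  symm _ _ hf hg := ip_symm hf hg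
  pos _ hf h0 := ip_pos hf h0
  slash a ha _ _ hf hg := ip_slash' a ha hf hg
  pet N hN := ⟨(Gamma0 N).index, by
    have : NeZero N := ⟨hN.ne'⟩
    exact_mod_cast Nat.pos_of_ne_zero (Subgroup.FiniteIndex.index_ne_zero (H := Gamma0 N)),
    fun f g => by rw [Ip.pet_eq N k hN f g]; simp⟩

theorem exists_IP (k : ℕ) : Nonempty (IP k) := ⟨theIP k⟩

end Gouvea.NF
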