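import Pool.Agent.Work.MP_d3517d_nt.NF.InclGrp
import Pool.Agent.Work.MP_d3517d_nt.NF.AmbA

/-!
# Orthogonality to the `l`-old forms is inherited by higher levels prime to `l` (N4)
-/

open UpperHalfPlane CongruenceSubgroup Matrix.SpecialLinearGroup
open scoped MatrixGroups ModularForm

noncomputable section

namespace Gouvea.NF.Incl

variable {k : ℕ}

theorem Gamma0_le {M N : ℕ} (h : M ∣ N) : Gamma0 N ≤ Gamma0 M := by
  intro g hg
  rw [mem_Gamma0_iff] at hg ⊢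
  exact (Int.natCast_dvd_natCast.mpr h).trans hg

/-- forms of level `N` are invariant. -/
theorem slash_eq_of_mem {N : ℕ} (f : Cusp N k) {g : SL(2, ℤ)} (hg : g ∈ Gamma0 N) :
    (f : ℍ → ℂ) ∣[(k : ℤ)] g = f :=
  SlashInvariantForm.slash_action_eqn f.toSlashInvariantForm (mapGL ℝ g) ⟨g, hg, rfl⟩

theorem slash_mul_SL (f : ℍ → ℂ) (a b : SL(2, ℤ)) :
    f ∣[(k : ℤ)] (a * b) = (f ∣[(k : ℤ)] a) ∣[(k : ℤ)] b :=
  SlashAction.slash_mul _ _ _ _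

theorem exists_trace (M l q : ℕ) [NeZero M] [NeZero q] (hrep : GoodRep M l q)
    (g : Cusp (M * q) k) :
    ∃ (tg : Cusp M k) (ι : Type) (_ : Fintype ι) (_ : Nonempty ι) (s : ι → SL(2, ℤ)),
      (∀ i, ((M * l : ℕ) : ℤ) ∣ s i 1 0 ∧ (l : ℤ) ∣ s i 0 1) ∧
      (tg : ℍ → ℂ) = ∑ i, (g : ℍ → ℂ) ∣[(k : ℤ)] s i := by
  have : NeZero (M * q) := ⟨mul_ne_zero (NeZero.ne M) (NeZero.ne q)⟩
  have : (Gam0 (M * q)).IsFiniteRelIndex (Gam0 M) := by
    have : (Gam0 (M * q)).IsFiniteRelIndex 𝒮ℒ := inferInstance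
    exact Subgroup.isFiniteRelIndex_of_le_right _ (L := 𝒮ℒ) (by
      rintro _ ⟨x, _, rfl⟩
      exact ⟨x, rfl⟩)
  let Q := Gam0 M ⧸ (Gam0 (M * q)).subgroupOf (Gam0 M)
  let _ : Fintype Q := Fintype.ofFinite Q
  have key : ∀ c : Q, ∃ s : SL(2, ℤ), (((M * l : ℕ) : ℤ) ∣ s 1 0 ∧ (l : ℤ) ∣ s 0 1) ∧
      SlashInvariantForm.quotientFunc (ℋ := Gam0 M) g c = (g : ℍ → ℂ) ∣[(k : ℤ)] s := by
    intro c
    induction c using Quotient.inductionOn with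
    | h r =>
      obtain ⟨_, γ, hγ, rfl⟩ := r
      obtain ⟨s, h1, h2, h3⟩ := hrep γ⁻¹ (inv_mem hγ)
      refine ⟨s, ⟨h1, h2⟩, ?_⟩
      rw [SlashInvariantForm.quotientFunc_mk]
      have e : (g : ℍ → ℂ) ∣[(k : ℤ)] (γ⁻¹ : SL(2, ℤ)) = (g : ℍ → ℂ) ∣[(k : ℤ)] s := by
        conv_lhs => rw [show γ⁻¹ = (γ⁻¹ * s⁻¹) * s by group]
        rw [slash_mul_SL, slash_eq_of_mem g h3]
      rw [← e, ModularForm.SL_slash]
      congr 1
      exact (map_inv (mapGL ℝ) γ).symm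
  choose s hs1 hs2 using key
  refine ⟨CuspForm.trace (Gam0 M) g, Q, inferInstance, inferInstance, s, hs1, ?_⟩
  rw [CuspForm.coe_trace]
  exact Finset.sum_congr rfl fun c _ => hs2 c

variable (V : Submodule ℂ (ℍ → ℂ)) (ip : (ℍ → ℂ) → (ℍ → ℂ) → ℂ)

theorem ip_sum (hadd : ∀ f ∈ V, ∀ g ∈ V, ∀ h ∈ V, ip f (g + h) = ip f g + ip f h)
    {ι : Type} (s : Finset ι) (f : ℍ → ℂ) (hf : f ∈ V) (h : ι → ℍ → ℂ) (hh : ∀ i, h i ∈ V) :
    ip f (∑ i ∈ s, h i) = ∑ i ∈ s, ip f (h i) := by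
  classical
  induction s using Finset.induction_on with
  | empty =>
    have := hadd f hf 0 V.zero_mem 0 V.zero_mem
    simpa using this
  | insert a t ha ih =>
    rw [Finset.sum_insert ha, Finset.sum_insert ha, hadd f hf _ (hh a) _ (V.sum_mem fun i _ => hh i),
      ih]

/-- **N4, first half.** A form of level `M l` orthogonal to the forms of level `M` is orthogonal to
the forms of level `M q`. -/
theorem incl_one (M l q : ℕ) [NeZero M] [NeZero l] [NeZero q] (hrep : GoodRep M l q)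
    (hV : ∀ N : ℕ, N ≠ 0 → ∀ g : Cusp N k, (g : ℍ → ℂ) ∈ V)
    (hVs : ∀ g ∈ V, ∀ s : SL(2, ℤ), g ∣[(k : ℤ)] s ∈ V)
    (hadd : ∀ f ∈ V, ∀ g ∈ V, ∀ h ∈ V, ip f (g + h) = ip f g + ip f h)
    (hinv : ∀ f ∈ V, ∀ g ∈ V, ∀ s : SL(2, ℤ), ip (f ∣[(k : ℤ)] s) (g ∣[(k : ℤ)] s) = ip f g)
    (f : Cusp (M * l) k) (hf : ∀ g : Cusp M k, ip f g = 0) (g : Cusp (M * q) k) :
    ip f g = 0 := by
  obtain ⟨tg, ι, _, _, s, hs, e⟩ := exists_trace M l q hrep g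
  have h0 := hf tg
  have hfV : (f : ℍ → ℂ) ∈ V := hV _ (mul_ne_zero (NeZero.ne M) (NeZero.ne l)) f
  have hgV : (g : ℍ → ℂ) ∈ V := hV _ (mul_ne_zero (NeZero.ne M) (NeZero.ne q)) g
  rw [e, ip_sum V ip hadd _ _ hfV _ (fun i => hVs _ hgV _)] at h0
  have h1 : ∀ i, ip f ((g : ℍ → ℂ) ∣[(k : ℤ)] s i) = ip f g := by
    intro i
    have := hinv f hfV g hgV (s i)
    rwa [slash_eq_of_mem f (mem_Gamma0_iff.mpr (hs i).1)] at this
  simp only [h1, Finset.sum_const, Finset.card_univ, nsmul_eq_mul, mul_eq_zero,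
    Nat.cast_eq_zero, Fintype.card_ne_zero, false_or] at h0
  exact h0

/-- the matrix `(l 0; 0 1)` -/
def dg (l : ℕ) [NeZero l] : GL (Fin 2) ℝ := tri l 0 1 (by simp [NeZero.ne l])

/-- conjugation by `diag(l, 1)`. -/
theorem exists_conj (M l : ℕ) [NeZero l] (s : SL(2, ℤ)) (h1 : ((M * l : ℕ) : ℤ) ∣ s 1 0)
    (h2 : (l : ℤ) ∣ s 0 1) : ∃ s' ∈ Gamma0 (M * l), mapGL ℝ s * dg l = dg l * mapGL ℝ s' := by
  obtain ⟨b, hb⟩ := h2
  have hdet : s 0 0 * s 1 1 - s 0 1 * s 1 0 = 1 := by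
    have := s.det_coe
    rwa [Matrix.det_fin_two] at this
  refine ⟨⟨!![s 0 0, b; l * s 1 0, s 1 1], ?_⟩, ?_, ?_⟩
  · rw [Matrix.det_fin_two_of]
    refine Eq.trans ?_ hdet
    rw [hb]; ring
  · rw [mem_Gamma0_iff]
    simpa using h1.mul_left (l : ℤ)
  · ext i j
    fin_cases i <;> fin_cases j <;>
      simp [dg, tri, Matrix.mul_apply, Fin.sum_univ_two, mapGL_coe_matrix, hb, mul_comm]

/-- **N4, second half.** A form of level `M l` orthogonal to all `g | (l 0; 0 1)`, `g` of level `M`,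
is orthogonal to all `g | (l 0; 0 1)`, `g` of level `M q`. -/
theorem incl_two (M l q : ℕ) [NeZero M] [NeZero l] [NeZero q] (hrep : GoodRep M l q)
    (hV : ∀ N : ℕ, N ≠ 0 → ∀ g : Cusp N k, (g : ℍ → ℂ) ∈ V)
    (hVs : ∀ g ∈ V, ∀ s : SL(2, ℤ), g ∣[(k : ℤ)] s ∈ V)
    (hVd : ∀ g ∈ V, g ∣[(k : ℤ)] dg l ∈ V)
    (hadd : ∀ f ∈ V, ∀ g ∈ V, ∀ h ∈ V, ip f (g + h) = ip f g + ip f h)
    (hinv : ∀ f ∈ V, ∀ g ∈ V, ∀ s : SL(2, ℤ), ip (f ∣[(k : ℤ)] s) (g ∣[(k : ℤ)] s) = ip f g)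
    (f : Cusp (M * l) k) (hf : ∀ g : Cusp M k, ip f ((g : ℍ → ℂ) ∣[(k : ℤ)] dg l) = 0)
    (g : Cusp (M * q) k) :
    ip f ((g : ℍ → ℂ) ∣[(k : ℤ)] dg l) = 0 := by
  obtain ⟨tg, ι, _, _, s, hs, e⟩ := exists_trace M l q hrep g
  have h0 := hf tg
  have hfV : (f : ℍ → ℂ) ∈ V := hV _ (mul_ne_zero (NeZero.ne M) (NeZero.ne l)) f
  have hgV : (g : ℍ → ℂ) ∈ V := hV _ (mul_ne_zero (NeZero.ne M) (NeZero.ne q)) g
  rw [e, SlashAction.sum_slash, ip_sum V ip hadd _ _ hfV _ (fun i => hVd _ (hVs _ hgV _))] at h0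
  have h1 : ∀ i, ip f (((g : ℍ → ℂ) ∣[(k : ℤ)] s i) ∣[(k : ℤ)] dg l)
      = ip f ((g : ℍ → ℂ) ∣[(k : ℤ)] dg l) := by
    intro i
    obtain ⟨s', hs', e'⟩ := exists_conj M l (s i) (hs i).1 (hs i).2
    have := hinv f hfV _ (hVd _ hgV) s'
    rw [slash_eq_of_mem f hs'] at this
    rw [← this, ModularForm.SL_slash, ModularForm.SL_slash, ← SlashAction.slash_mul,
      ← SlashAction.slash_mul]
    exact congrArg (fun m : GL (Fin 2) ℝ => ip f ((g : ℍ → ℂ) ∣[(k : ℤ)] m)) e'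
  simp only [h1, Finset.sum_const, Finset.card_univ, nsmul_eq_mul, mul_eq_zero,
    Nat.cast_eq_zero, Fintype.card_ne_zero, false_or] at h0
  exact h0

/-- the functions satisfying `InV` -/
def VV (k : ℕ) : Submodule ℂ (ℍ → ℂ) where
  carrier := {f | InV k f}
  add_mem' := fun hf hg => InV_add hf hg
  zero_mem' := InV_of_mem (N := 1) one_pos (Sp 1 k).zero_mem
  smul_mem' := fun c _ hf => InV_smul c hf

/-- the matrix `(l 0; 0 1)` over `ℚ` -/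
def dgQ (l : ℕ) [NeZero l] : GL (Fin 2) ℚ :=
  Matrix.GeneralLinearGroup.mkOfDetNeZero !![(l : ℚ), 0; 0, 1] (by simp [NeZero.ne l])

theorem qR_dgQ (l : ℕ) [NeZero l] : qR (dgQ l) = dg l := by
  ext i j
  fin_cases i <;> fin_cases j <;>
    simp [qR, dgQ, dg, tri, Matrix.GeneralLinearGroup.mkOfDetNeZero]

theorem det_dgQ (l : ℕ) [NeZero l] : (dgQ l).det.val = l := by
  simp [dgQ, Matrix.GeneralLinearGroup.mkOfDetNeZero, Matrix.det_fin_two]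

theorem InV_SL {f : ℍ → ℂ} (hf : InV k f) (s : SL(2, ℤ)) : InV k (f ∣[(k : ℤ)] s) := by
  rw [ModularForm.SL_slash]
  have := InV_slash (mapGL ℚ s) (by simp) hf
  rwa [qR_mapGL] at this

theorem InV_dg {f : ℍ → ℂ} (hf : InV k f) (l : ℕ) [NeZero l] : InV k (f ∣[(k : ℤ)] dg l) := by
  have := InV_slash (dgQ l) (by rw [det_dgQ]; exact_mod_cast Nat.pos_of_ne_zero (NeZero.ne l)) hf
  rwa [qR_dgQ] at this

theorem ip_SL (P : IP k) {f g : ℍ → ℂ} (hf : InV k f) (hg : InV k g) (s : SL(2, ℤ)) :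
    P.ip (f ∣[(k : ℤ)] s) (g ∣[(k : ℤ)] s) = P.ip f g := by
  have := P.slash (mapGL ℚ s) (by simp) f g hf hg
  rw [qR_mapGL] at this
  refine Eq.trans this ?_
  simp

theorem ip_zero_right (P : IP k) {f : ℍ → ℂ} (hf : InV k f) : P.ip f 0 = 0 := by
  have := P.smul_right 0 f f hf hf
  simpa using this

theorem ip_zero_left (P : IP k) {f : ℍ → ℂ} (hf : InV k f) : P.ip 0 f = 0 := by
  rw [P.symm f 0 hf ((VV k).zero_mem), ip_zero_right P hf, map_zero]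

/-- `g | (l 0; 0 1) = l^(k-1) B_l g` -/
theorem slash_dg (l : ℕ) [NeZero l] (g : ℍ → ℂ) :
    g ∣[(k : ℤ)] dg l = ((l : ℂ) ^ ((k : ℤ) - 1)) • B l g := by
  funext z
  have hd : (dg l).det.val = (l : ℝ) := by
    simp [dg, tri, Matrix.GeneralLinearGroup.mkOfDetNeZero, Matrix.det_fin_two]
  have hl : (0 : ℝ) < l := by exact_mod_cast Nat.pos_of_ne_zero (NeZero.ne l)
  rw [ModularForm.slash_apply, hd]
  simp only [Pi.smul_apply, smul_eq_mul, B, LinearMap.coe_mk, AddHom.coe_mk]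
  rw [σ, if_pos (by rw [hd]; exact hl), abs_of_pos hl]
  simp [denom, dg, tri, Matrix.GeneralLinearGroup.mkOfDetNeZero, mul_comm]

end Gouvea.NF.Incl

namespace Gouvea.NF

open Incl

variable {k : ℕ}

/-- **N4.** An `l`-new form of level `N` is `l`-new of level `N q`, `q` a prime different
from `l`. -/
theorem LNew_incl (P : IP k) {N l q : ℕ} [NeZero l] (hN : 0 < N) (hl : l.Prime) (hq : q.Prime)
    (hlq : l ≠ q) {f : ℍ → ℂ} (hf : LNew P l N f) : LNew P l (N * q) f := by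
  have hNq : 0 < N * q := Nat.mul_pos hN hq.pos
  obtain ⟨hfN, hfo⟩ := hf
  have hfV : InV k f := InV_of_mem hN hfN
  refine ⟨Sp_mono (Dvd.intro _ rfl) hNq hfN, ?_⟩
  by_cases hlN : l ∣ N
  · obtain ⟨M, rfl⟩ := hlN
    rw [mul_comm l M] at *
    have hM : M ≠ 0 := by
      rintro rfl
      simp at hN
    have : NeZero M := ⟨hM⟩
    have : NeZero q := ⟨hq.ne_zero⟩
    have e1 : M * l / l = M := Nat.mul_div_cancel _ hl.pos
    have e2 : M * l * q / l = M * q := by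
      rw [mul_right_comm, Nat.mul_div_cancel _ hl.pos]
    rw [lold, if_pos (Dvd.intro_left _ rfl), e1] at hfo
    rw [lold, if_pos ((Dvd.intro_left _ rfl : l ∣ M * l).mul_right _), e2]
    obtain ⟨F, rfl⟩ := hfN
    have hrep := goodRep M l q hM hl hq hlq
    have hV : ∀ N : ℕ, N ≠ 0 → ∀ g : Cusp N k, (g : ℍ → ℂ) ∈ VV k := fun N hN g =>
      InV_of_mem (Nat.pos_of_ne_zero hN) (coe_mem_Sp g)
    have hVs : ∀ g ∈ VV k, ∀ s : SL(2, ℤ), g ∣[(k : ℤ)] s ∈ VV k := fun g hg s => InV_SL hg s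
    have hVd : ∀ g ∈ VV k, g ∣[(k : ℤ)] dg l ∈ VV k := fun g hg => InV_dg hg l
    have hadd : ∀ f ∈ VV k, ∀ g ∈ VV k, ∀ h ∈ VV k, P.ip f (g + h) = P.ip f g + P.ip f h :=
      fun f hf g hg h hh => P.add_right f g h hf hg hh
    have hinv : ∀ f ∈ VV k, ∀ g ∈ VV k, ∀ s : SL(2, ℤ),
        P.ip (f ∣[(k : ℤ)] s) (g ∣[(k : ℤ)] s) = P.ip f g := fun f hf g hg s => ip_SL P hf hg s
    have hsw : ∀ g : ℍ → ℂ, InV k g → (P.ip g F = 0 ↔ P.ip F g = 0) := by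
      intro g hg
      rw [P.symm F g hfV hg, map_eq_zero]
    have hlz : ((l : ℂ) ^ ((k : ℤ) - 1)) ≠ 0 := zpow_ne_zero _ (by exact_mod_cast hl.ne_zero)
    have hB : ∀ g : ℍ → ℂ, InV k g → (P.ip F (g ∣[(k : ℤ)] dg l) = 0 ↔ P.ip F (B l g) = 0) := by
      intro g hg
      have hBg : InV k (B l g) := by
        have := InV_smul (((l : ℂ) ^ ((k : ℤ) - 1))⁻¹) (InV_dg hg l)
        rwa [slash_dg, smul_smul, inv_mul_cancel₀ hlz, one_smul] at this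
      rw [slash_dg, P.smul_right _ _ _ hfV hBg, mul_eq_zero, or_iff_right hlz]
    have hInVB : ∀ g : ℍ → ℂ, InV k g → InV k (B l g) := by
      intro g hg
      have := InV_smul (((l : ℂ) ^ ((k : ℤ) - 1))⁻¹) (InV_dg hg l)
      rwa [slash_dg, smul_smul, inv_mul_cancel₀ hlz, one_smul] at this
    have h1 : ∀ g : Cusp (M * q) k, P.ip F g = 0 := by
      intro g
      refine incl_one (VV k) P.ip M l q hrep hV hVs hadd hinv F (fun g' => ?_) g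
      exact (hsw _ (hV M hM g')).mp (hfo _ (Submodule.mem_sup_left (coe_mem_Sp g')))
    have h2 : ∀ g : Cusp (M * q) k, P.ip F ((g : ℍ → ℂ) ∣[(k : ℤ)] dg l) = 0 := by
      intro g
      refine incl_two (VV k) P.ip M l q hrep hV hVs hVd hadd hinv F (fun g' => ?_) g
      rw [hB _ (hV M hM g')]
      exact (hsw _ (hInVB _ (hV M hM g'))).mp (hfo _ (Submodule.mem_sup_right
        (Submodule.mem_map_of_mem (coe_mem_Sp g'))))
    intro h hh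
    obtain ⟨a, ha, b, hb, rfl⟩ := Submodule.mem_sup.mp hh
    obtain ⟨A, rfl⟩ := ha
    obtain ⟨_, ⟨C, rfl⟩, rfl⟩ := hb
    have hMq : M * q ≠ 0 := mul_ne_zero hM hq.ne_zero
    have hA : InV k A := hV _ hMq A
    have hC : InV k C := hV _ hMq C
    rw [hsw _ (InV_add hA (hInVB _ hC)), P.add_right _ _ _ hfV hA (hInVB _ hC), h1 A,
      (hB _ hC).mp (h2 C), add_zero]
  · have hlNq : ¬ l ∣ N * q := fun h =>
      (hl.dvd_mul.mp h).elim hlN fun h' => hlq ((Nat.prime_dvd_prime_iff_eq hl hq).mp h')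
    rw [lold, if_neg hlNq]
    intro h hh
    rw [(Submodule.mem_bot ℂ).mp hh]
    exact ip_zero_left P hfV

end Gouvea.NF
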