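import Pool.Agent.Work.MP_d3517d_nt.NF.AmbB
import Pool.Agent.Work.MP_d3517d_nt.NF.AdjIP
import Pool.Agent.Work.MP_d3517d_nt.NF.Incl

/-!
# `l`-new forms: stability under `B_q`, `U_q` and depletion (part N5)
-/

open UpperHalfPlane CongruenceSubgroup OnePoint
open scoped MatrixGroups ModularForm ComplexConjugate Manifold

noncomputable section

namespace Gouvea.NF



variable {k : ℕ}

lemma InV_sp {N : ℕ} (hN : 0 < N) {f : ℍ → ℂ} (hf : f ∈ Sp N k) : InV k f := InV_of_mem hN hf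

lemma ip_zero_left (P : IP k) {f : ℍ → ℂ} (hf : InV k f) (h0 : InV k (0 : ℍ → ℂ)) :
    P.ip 0 f = 0 := by
  have h1 : P.ip f 0 = 0 := by
    have := P.smul_right 0 f 0 hf h0
    rwa [zero_smul, zero_mul] at this
  rw [P.symm f 0 hf h0, h1, map_zero]

lemma ip_eq_zero_symm (P : IP k) {f g : ℍ → ℂ} (hf : InV k f) (hg : InV k g)
    (h : P.ip f g = 0) : P.ip g f = 0 := by
  rw [P.symm f g hf hg, h, map_zero]

/-- `B_l` and `U_q` commute for different primes `l`, `q` -/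
lemma U_B_comm {N l q : ℕ} [NeZero l] [NeZero q] (hN : 0 < N) (hl : l.Prime) (hq : q.Prime)
    (hlq : l ≠ q) {f : ℍ → ℂ} (hf : f ∈ Sp N k) : U k q (B l f) = B l (U k q f) := by
  have hBf : B l f ∈ Sp (N * l) k := B_mem hN hf
  have hUf : U k q f ∈ Sp (N * q) k := U_mem hN hq hf
  have hNl : 0 < N * l := Nat.mul_pos hN hl.pos
  have hNq : 0 < N * q := Nat.mul_pos hN hq.pos
  have h1 : U k q (B l f) ∈ Sp (N * l * q) k := U_mem hNl hq hBf
  have h2 : B l (U k q f) ∈ Sp (N * q * l) k := B_mem hNq hUf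
  refine coef_ext (Nat.mul_pos hNl hq.pos) (Nat.mul_pos hNq hl.pos) h1 h2 fun n => ?_
  rw [coef_U hNl hBf, coef_B hN hf, coef_B hNq hUf]
  have hcop : Nat.Coprime l q := (Nat.coprime_primes hl hq).2 hlq
  by_cases hn : l ∣ n
  · obtain ⟨m, rfl⟩ := hn
    rw [if_pos (Dvd.dvd.mul_left (dvd_mul_right l m) q), if_pos (dvd_mul_right l m),
      coef_U hN hf, Nat.mul_div_cancel_left m hl.pos]
    congr 1
    rw [show q * (l * m) = l * (q * m) by ring, Nat.mul_div_cancel_left _ hl.pos]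
  · rw [if_neg hn, if_neg]
    intro h
    exact hn (hcop.dvd_of_dvd_mul_left h)

/-- `B_l` and `B_q` commute -/
lemma B_B_comm (l q : ℕ) [NeZero l] [NeZero q] (f : ℍ → ℂ) : B l (B q f) = B q (B l f) := by
  funext z
  change f (tri q 0 1 _ • (tri l 0 1 _ • z)) = f (tri l 0 1 _ • (tri q 0 1 _ • z))
  congr 1
  rw [← mul_smul, ← mul_smul]
  congr 1
  ext i j
  fin_cases i <;> fin_cases j <;> simp [tri, Matrix.mul_apply, Fin.sum_univ_two, mul_comm]

lemma lold_eq_bot {l N : ℕ} [NeZero l] (h : ¬ l ∣ N) : lold l N k = ⊥ := by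
  rw [lold, if_neg h]

lemma mem_lold {l N : ℕ} [NeZero l] (h : l ∣ N) {g : ℍ → ℂ} :
    g ∈ lold l N k ↔ ∃ g₁ ∈ Sp (N / l) k, ∃ g₂ ∈ Sp (N / l) k, g = g₁ + B l g₂ := by
  rw [lold, if_pos h, Submodule.mem_sup]
  constructor
  · rintro ⟨g₁, h₁, _, ⟨g₂, h₂, rfl⟩, rfl⟩
    exact ⟨g₁, h₁, g₂, h₂, rfl⟩
  · rintro ⟨g₁, h₁, g₂, h₂, rfl⟩
    exact ⟨g₁, h₁, _, ⟨g₂, h₂, rfl⟩, rfl⟩

lemma lold_le {l N : ℕ} [NeZero l] (hN : 0 < N) : lold l N k ≤ Sp N k := by
  by_cases h : l ∣ N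
  · intro g hg
    obtain ⟨g₁, h₁, g₂, h₂, rfl⟩ := (mem_lold h).1 hg
    have hpos : 0 < N / l := Nat.div_pos (Nat.le_of_dvd hN h) (Nat.pos_of_ne_zero (NeZero.ne l))
    have h3 : B l g₂ ∈ Sp (N / l * l) k := B_mem hpos h₂
    rw [Nat.div_mul_cancel h] at h3
    exact add_mem (Sp_mono (Nat.div_dvd_of_dvd h) hN h₁) h3
  · rw [lold_eq_bot h]
    exact bot_le

/-- `U_q` maps `l`-old forms of level `N q` to `l`-old forms of level `N q` -/
lemma lold_U {N l q : ℕ} [NeZero l] [NeZero q] (hN : 0 < N) (hl : l.Prime) (hq : q.Prime)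
    (hlq : l ≠ q) {g : ℍ → ℂ} (hg : g ∈ lold l (N * q) k) : U k q g ∈ lold l (N * q) k := by
  have hcop : Nat.Coprime l q := (Nat.coprime_primes hl hq).2 hlq
  by_cases h : l ∣ N * q
  · have hlN : l ∣ N := hcop.dvd_of_dvd_mul_right h
    obtain ⟨g₁, h₁, g₂, h₂, rfl⟩ := (mem_lold h).1 hg
    have hpos : 0 < N * q / l :=
      Nat.div_pos (Nat.le_of_dvd (Nat.mul_pos hN hq.pos) h) hl.pos
    have hqd : q ∣ N * q / l := by
      obtain ⟨m, rfl⟩ := hlN
      rw [mul_assoc, Nat.mul_div_cancel_left _ hl.pos]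
      exact dvd_mul_left q m
    rw [U_add, U_B_comm hpos hl hq hlq h₂]
    exact (mem_lold h).2 ⟨_, U_mem_of_dvd hpos hq hqd h₁, _, U_mem_of_dvd hpos hq hqd h₂, rfl⟩
  · rw [lold_eq_bot h, Submodule.mem_bot] at hg
    subst hg
    have : U k q (0 : ℍ → ℂ) = 0 := by
      have := U_smul (k := k) q 0 (0 : ℍ → ℂ)
      rwa [zero_smul, zero_smul] at this
    rw [this]
    exact Submodule.zero_mem _

/-- `B_q` maps `l`-old forms of level `N` to `l`-old forms of level `N q` -/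
lemma lold_B {N l q : ℕ} [NeZero l] [NeZero q] (hN : 0 < N) (hl : l.Prime) (hq : q.Prime)
    (hlq : l ≠ q) {g : ℍ → ℂ} (hg : g ∈ lold l N k) : B q g ∈ lold l (N * q) k := by
  by_cases h : l ∣ N
  · obtain ⟨g₁, h₁, g₂, h₂, rfl⟩ := (mem_lold h).1 hg
    have hpos : 0 < N / l := Nat.div_pos (Nat.le_of_dvd hN h) hl.pos
    have hlNq : l ∣ N * q := Dvd.dvd.mul_right h q
    have heq : N * q / l = N / l * q := by
      obtain ⟨m, rfl⟩ := h
      rw [mul_assoc, Nat.mul_div_cancel_left _ hl.pos, Nat.mul_div_cancel_left _ hl.pos]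
    have h1 : B q g₁ ∈ Sp (N * q / l) k := by rw [heq]; exact B_mem hpos h₁
    have h2 : B q g₂ ∈ Sp (N * q / l) k := by rw [heq]; exact B_mem hpos h₂
    rw [map_add, B_B_comm q l g₂]
    exact (mem_lold hlNq).2 ⟨_, h1, _, h2, rfl⟩
  · rw [lold_eq_bot h, Submodule.mem_bot] at hg
    subst hg
    rw [map_zero]
    exact Submodule.zero_mem _

theorem LNew_B (P : IP k) {N l q : ℕ} [NeZero l] [NeZero q] (hN : 0 < N) (hl : l.Prime)
    (hq : q.Prime) (hlq : l ≠ q) {f : ℍ → ℂ} (hf : LNew P l N f) :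
    LNew P l (N * q) (B q f) := by
  have hNq : 0 < N * q := Nat.mul_pos hN hq.pos
  refine ⟨B_mem hN hf.1, fun h hh => ?_⟩
  have h1 := LNew_incl P hN hl hq hlq hf
  have h2 := h1.2 _ (lold_U hN hl hq hlq hh)
  rw [ip_U P hNq hN (lold_le hNq hh) hf.1] at h2
  exact (mul_eq_zero.1 h2).resolve_left (pow_ne_zero _ (Nat.cast_ne_zero.2 hq.ne_zero))

theorem LNew_U (P : IP k) {N l q : ℕ} [NeZero l] [NeZero q] (hN : 0 < N) (hl : l.Prime)
    (hq : q.Prime) (hlq : l ≠ q) {f : ℍ → ℂ} (hf : LNew P l N f) :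
    LNew P l (N * q) (U k q f) := by
  have hNq : 0 < N * q := Nat.mul_pos hN hq.pos
  have hNqq : 0 < N * q * q := Nat.mul_pos hNq hq.pos
  refine ⟨U_mem hN hq hf.1, fun h hh => ?_⟩
  have h1 := LNew_incl P hNq hl hq hlq (LNew_incl P hN hl hq hlq hf)
  have hBh := lold_B hNq hl hq hlq hh
  have h2 := h1.2 _ hBh
  have hfV : InV k f := InV_sp hN hf.1
  have hBV : InV k (B q h) := InV_sp hNqq (lold_le hNqq hBh)
  have h3 := ip_eq_zero_symm P hBV hfV h2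
  have h4 : P.ip (U k q f) h = 0 := by
    rw [ip_U P hN hNq hf.1 (lold_le hNq hh), h3, mul_zero]
  exact ip_eq_zero_symm P (InV_sp hNq (U_mem hN hq hf.1)) (InV_sp hNq (lold_le hNq hh)) h4

lemma LNew_add (P : IP k) {N l : ℕ} [NeZero l] (hN : 0 < N) {f g : ℍ → ℂ} (hf : LNew P l N f)
    (hg : LNew P l N g) : LNew P l N (f + g) := by
  refine ⟨add_mem hf.1 hg.1, fun h hh => ?_⟩
  rw [P.add_right _ _ _ (InV_sp hN (lold_le hN hh)) (InV_sp hN hf.1) (InV_sp hN hg.1),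
    hf.2 h hh, hg.2 h hh, add_zero]

lemma LNew_smul (P : IP k) {N l : ℕ} [NeZero l] (hN : 0 < N) (c : ℂ) {f : ℍ → ℂ}
    (hf : LNew P l N f) : LNew P l N (c • f) := by
  refine ⟨Submodule.smul_mem _ c hf.1, fun h hh => ?_⟩
  rw [P.smul_right _ _ _ (InV_sp hN (lold_le hN hh)) (InV_sp hN hf.1), hf.2 h hh, mul_zero]

lemma LNew_sub (P : IP k) {N l : ℕ} [NeZero l] (hN : 0 < N) {f g : ℍ → ℂ} (hf : LNew P l N f)
    (hg : LNew P l N g) : LNew P l N (f - g) := by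
  have h1 := LNew_add P hN hf (LNew_smul P hN (-1) hg)
  rwa [neg_one_smul, ← sub_eq_add_neg] at h1

/-- the depletion of a form of level `N` has level `N q²` -/
lemma dep_mem {N q : ℕ} [NeZero q] (hN : 0 < N) (hq : q.Prime) {f : ℍ → ℂ} (hf : f ∈ Sp N k) :
    dep k q f ∈ Sp (N * q * q) k := by
  have hNq : 0 < N * q := Nat.mul_pos hN hq.pos
  have h1 : B q (U k q f) ∈ Sp (N * q * q) k := B_mem hNq (U_mem hN hq hf)
  have h2 : f ∈ Sp (N * q * q) k :=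
    Sp_mono (by rw [mul_assoc]; exact dvd_mul_right N _) (Nat.mul_pos hNq hq.pos) hf
  exact sub_mem h2 h1

lemma coef_dep {N q : ℕ} [NeZero q] (hN : 0 < N) (hq : q.Prime) {f : ℍ → ℂ} (hf : f ∈ Sp N k)
    (n : ℕ) : coef (dep k q f) n = if q ∣ n then 0 else coef f n := by
  have hNq : 0 < N * q := Nat.mul_pos hN hq.pos
  have hNqq : 0 < N * q * q := Nat.mul_pos hNq hq.pos
  have hUf : U k q f ∈ Sp (N * q) k := U_mem hN hq hf
  have h1 : B q (U k q f) ∈ Sp (N * q * q) k := B_mem hNq hUf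
  have h2 : f ∈ Sp (N * q * q) k :=
    Sp_mono (by rw [mul_assoc]; exact dvd_mul_right N _) hNqq hf
  have h3 : dep k q f = f + (-1 : ℂ) • B q (U k q f) := by
    rw [dep, neg_one_smul, sub_eq_add_neg]
  rw [h3, coef_add hNqq h2 (Submodule.smul_mem _ _ h1), coef_smul hNqq h1, coef_B hNq hUf]
  by_cases hn : q ∣ n
  · obtain ⟨m, rfl⟩ := hn
    rw [if_pos (dvd_mul_right q m), if_pos (dvd_mul_right q m), coef_U hN hf,
      Nat.mul_div_cancel_left m hq.pos]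
    ring
  · rw [if_neg hn, if_neg hn]
    ring

theorem LNew_dep (P : IP k) {N l q : ℕ} [NeZero l] [NeZero q] (hN : 0 < N) (hl : l.Prime)
    (hq : q.Prime) (hlq : l ≠ q) {f : ℍ → ℂ} (hf : LNew P l N f) :
    LNew P l (N * q * q) (dep k q f) := by
  have hNq : 0 < N * q := Nat.mul_pos hN hq.pos
  exact LNew_sub P (Nat.mul_pos hNq hq.pos)
    (LNew_incl P hNq hl hq hlq (LNew_incl P hN hl hq hlq hf))
    (LNew_B P hNq hl hq hlq (LNew_U P hN hl hq hlq hf))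

end Gouvea.NF
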