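import Pool.Agent.Work.MP_d3517d_nt.NF.AmbA
import Pool.Agent.Work.MP_d3517d_nt.ES.HeckeQ

/-!
# Newforms (MP_d3517d_nt, part NF): forms whose coefficients are supported on the multiples of `l`

`one_prime`: if `l ∣ N` and `a_n(f) = 0` for all `n` prime to `l` then `f(z) = g(l z)` with `g` of
level `N / l`; `one_prime'`: if `l ∤ N` then `f = 0`.
-/

open UpperHalfPlane CongruenceSubgroup Matrix
open scoped MatrixGroups ModularForm ComplexConjugate Manifold

noncomputable section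

namespace Gouvea.NF

variable {k : ℕ}

/-- `f(z + 1 / l) = f(z)` -/
theorem slash_period {N l : ℕ} (hN : 0 < N) (hl : l.Prime) {f : ℍ → ℂ} (hf : f ∈ Sp N k)
    (h0 : ∀ n, ¬ l ∣ n → coef f n = 0) (h : (1 : ℝ) * 1 ≠ 0) :
    f ∣[(k : ℤ)] tri 1 (1 / (l : ℝ)) 1 h = f := by
  have : NeZero N := ⟨hN.ne'⟩
  have hl0 : (l : ℂ) ≠ 0 := by exact_mod_cast hl.ne_zero
  obtain ⟨F, rfl⟩ := hf
  have hq := ES.qe_cusp F
  funext τ
  rw [ES.slash_tri _ (by norm_num)]
  simp only [mul_one, Complex.ofReal_one, _root_.one_zpow]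
  refine (hq.hasSum _).unique ?_
  have h1 : (fun m : ℕ => coef (⇑F) m *
      Function.Periodic.qParam 1 (tri 1 (1 / (l : ℝ)) 1 h • τ : ℍ) ^ m) =
      fun m : ℕ => coef (⇑F) m * Function.Periodic.qParam 1 τ ^ m := by
    funext m
    by_cases hm : l ∣ m
    · obtain ⟨c, rfl⟩ := hm
      congr 1
      rw [ES.coe_tri_smul _ (by norm_num), Function.Periodic.qParam, Function.Periodic.qParam,
        ← Complex.exp_nat_mul, ← Complex.exp_nat_mul]
      rw [Complex.exp_eq_exp_iff_exists_int]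
      refine ⟨c, ?_⟩
      push_cast
      field_simp
    · rw [h0 m hm, zero_mul, zero_mul]
  rw [h1]
  exact hq.hasSum τ

/-- the stabiliser of a function -/
def stab (k : ℕ) (f : ℍ → ℂ) : Subgroup SL(2, ℤ) where
  carrier := {γ | f ∣[(k : ℤ)] γ = f}
  one_mem' := SlashAction.slash_one _ _
  mul_mem' := by
    intro a b ha hb
    rw [Set.mem_ofPred_eq] at *
    rw [SlashAction.slash_mul, ha, hb]
  inv_mem' := by
    intro a ha
    rw [Set.mem_ofPred_eq] at *
    have h1 : f ∣[(k : ℤ)] (a * a⁻¹) = f := by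
      rw [mul_inv_cancel]
      exact SlashAction.slash_one _ _
    rwa [SlashAction.slash_mul, ha] at h1

theorem mem_stab {f : ℍ → ℂ} {γ : SL(2, ℤ)} : γ ∈ stab k f ↔ f ∣[(k : ℤ)] γ = f := Iff.rfl

/-- `Γ₀(M)` is generated by `T` and the matrices whose upper right entry is divisible by `l`. -/
theorem Gamma0_le {l M : ℕ} (hl : l.Prime) (H : Subgroup SL(2, ℤ)) (hT : ModularGroup.T ∈ H)
    (h : ∀ γ ∈ Gamma0 M, (l : ℤ) ∣ γ 0 1 → γ ∈ H) : Gamma0 M ≤ H := by
  have hTM : ModularGroup.T ∈ Gamma0 M := by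
    rw [Gamma0_mem]
    simp [ModularGroup.T]
  have hfact := Fact.mk hl
  have key : ∀ γ ∈ Gamma0 M, ¬ (l : ℤ) ∣ γ 0 0 → γ ∈ H := by
    intro γ hγ ha
    have ha' : ((γ 0 0 : ℤ) : ZMod l) ≠ 0 := fun h1 =>
      ha ((ZMod.intCast_zmod_eq_zero_iff_dvd _ _).1 h1)
    set j : ℕ := (-((γ 0 1 : ℤ) : ZMod l) * ((γ 0 0 : ℤ) : ZMod l)⁻¹).val with hj
    have h1 : (l : ℤ) ∣ γ 0 1 + γ 0 0 * j := by
      rw [← ZMod.intCast_zmod_eq_zero_iff_dvd]
      push_cast
      rw [hj, ZMod.natCast_zmod_val]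
      field_simp
      ring
    have h2 : γ * ModularGroup.T ^ j ∈ H := by
      refine h _ (mul_mem hγ (pow_mem hTM j)) ?_
      have h3 : (γ * ModularGroup.T ^ j) 0 1 = γ 0 1 + γ 0 0 * j := by
        have h4 : ((γ * ModularGroup.T ^ (j : ℤ) : SL(2, ℤ)) : Matrix (Fin 2) (Fin 2) ℤ) =
            (γ : Matrix (Fin 2) (Fin 2) ℤ) * !![1, (j : ℤ); 0, 1] := by
          refine (Matrix.SpecialLinearGroup.coe_mul _ _).trans ?_
          exact congrArg _ (ModularGroup.coe_T_zpow _)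
        rw [← zpow_natCast]
        refine (congrFun (congrFun h4 0) 1).trans ?_
        rw [Matrix.mul_apply, Fin.sum_univ_two]
        simp
        ring
      rw [h3]
      exact h1
    exact (H.mul_mem_cancel_right (H.pow_mem hT j)).1 h2
  intro γ hγ
  by_cases ha : (l : ℤ) ∣ γ 0 0
  · have hdet : γ 0 0 * γ 1 1 - γ 0 1 * γ 1 0 = 1 := by
      have := γ.det_coe
      rwa [det_fin_two] at this
    have h2 : ModularGroup.T * γ ∈ H := by
      refine key _ (mul_mem hTM hγ) ?_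
      have h3 : (ModularGroup.T * γ) 0 0 = γ 0 0 + γ 1 0 := by
        have h4 : ((ModularGroup.T * γ : SL(2, ℤ)) : Matrix (Fin 2) (Fin 2) ℤ) =
            !![1, 1; 0, 1] * (γ : Matrix (Fin 2) (Fin 2) ℤ) := by
          refine (Matrix.SpecialLinearGroup.coe_mul _ _).trans ?_
          exact congrArg (fun X => X * _) ModularGroup.coe_T
        refine (congrFun (congrFun h4 0) 0).trans ?_
        rw [Matrix.mul_apply, Fin.sum_univ_two]
        simp
      rw [h3]
      intro h4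
      have h5 : (l : ℤ) ∣ γ 1 0 := (dvd_add_right ha).1 h4
      have h6 : (l : ℤ) ∣ 1 := by
        rw [← hdet]
        exact dvd_sub (ha.mul_right _) (h5.mul_left _)
      have := Int.le_of_dvd one_pos h6
      have := hl.one_lt
      omega
    exact (H.mul_mem_cancel_left hT).1 h2
  · exact key γ hγ ha

/-- the matrix `(1 0; 0 l)` -/
def dA (l : ℕ) [NeZero l] : GL (Fin 2) ℝ := tri 1 0 l (by simp [NeZero.ne l])

theorem dA_eq_qR (l : ℕ) [NeZero l] : ∃ a : GL (Fin 2) ℚ, qR a = dA l := by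
  refine ⟨triQ 1 0 l (by simp [NeZero.ne l]), ?_⟩
  rw [qR_triQ _ _ _ _ (by simp [NeZero.ne l]), dA]
  congr 1 <;> simp

/-- Descent: a form with period `1 / l`, of level `N ∣ l M`. -/
theorem descend {N l M : ℕ} [NeZero l] (hN : 0 < N) (hl : l.Prime) (hM : 0 < M) (h : N ∣ l * M)
    {f : ℍ → ℂ} (hf : f ∈ Sp N k) (h1 : (1 : ℝ) * 1 ≠ 0)
    (hper : f ∣[(k : ℤ)] tri 1 (1 / (l : ℝ)) 1 h1 = f) :
    f ∣[(k : ℤ)] dA l ∈ Sp M k := by
  obtain ⟨f1, f2, f3⟩ := (mem_Sp_iff hN).1 hf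
  obtain ⟨a, ha⟩ := dA_eq_qR l
  have hl0 : (l : ℝ) ≠ 0 := by exact_mod_cast hl.ne_zero
  refine (mem_Sp_iff hM).2 ⟨f1.slash _ _, ?_, ?_⟩
  · rw [← ha]
    exact zero_slash_qR a f2
  · suffices H : Gamma0 M ≤ stab k (f ∣[(k : ℤ)] dA l) from fun γ hγ => mem_stab.1 (H hγ)
    refine Gamma0_le hl _ ?_ ?_
    · rw [mem_stab, ModularForm.SL_slash, ← SlashAction.slash_mul]
      have e : dA l * (ModularGroup.T : GL (Fin 2) ℝ) = tri 1 (1 / (l : ℝ)) 1 h1 * dA l := by
        apply Units.ext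
        ext i j
        fin_cases i <;> fin_cases j <;>
          simp [dA, tri, Matrix.mul_apply, Fin.sum_univ_two, ModularGroup.T, hl0]
      rw [e, SlashAction.slash_mul, hper]
    · intro γ hγ hb
      obtain ⟨b, hb⟩ := hb
      rw [Gamma0_mem, ZMod.intCast_zmod_eq_zero_iff_dvd] at hγ
      have hdet := γ.det_coe
      rw [Matrix.det_fin_two] at hdet
      let δ : SL(2, ℤ) := ⟨!![γ 0 0, b; l * γ 1 0, γ 1 1], by
        rw [Matrix.det_fin_two_of]
        rw [hb] at hdet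
        linear_combination hdet⟩
      have hδ : δ ∈ Gamma0 N := by
        rw [Gamma0_mem, ZMod.intCast_zmod_eq_zero_iff_dvd]
        refine (Int.natCast_dvd_natCast.2 h).trans ?_
        rw [Nat.cast_mul]
        exact mul_dvd_mul_left _ hγ
      have h4 : dA l * SpecialLinearGroup.mapGL ℝ γ = SpecialLinearGroup.mapGL ℝ δ * dA l := by
        have hb' : ((γ 0 1 : ℤ) : ℝ) = l * b := by rw [hb]; push_cast; ring
        apply Units.ext
        ext i j
        fin_cases i <;> fin_cases j <;>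
          simp [dA, tri, δ, Matrix.mul_apply, Fin.sum_univ_two, hb'] <;> ring
      have h5 := f3 δ hδ
      rw [mem_stab]
      rw [ModularForm.SL_slash] at h5 ⊢
      rw [← SlashAction.slash_mul]
      have h8 : ((γ : SL(2, ℤ)) : GL (Fin 2) ℝ) = SpecialLinearGroup.mapGL ℝ γ := rfl
      rw [h8, h4, SlashAction.slash_mul]
      congr 1

theorem slash_dA (l : ℕ) [NeZero l] (f : ℍ → ℂ) (τ : ℍ) :
    (f ∣[(k : ℤ)] dA l) τ = f (dA l • τ) * (l : ℂ)⁻¹ := by
  have := ES.slash_U (l := l) 0 (k : ℤ) f τ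
  simpa [dA] using this

/-- A form of level `N` whose coefficients are supported on the multiples of a prime `l ∣ N` is of
the form `g(l z)`, `g` of level `N / l`. -/
theorem one_prime {N l : ℕ} [NeZero l] (hN : 0 < N) (hl : l.Prime) (h : l ∣ N) {f : ℍ → ℂ}
    (hf : f ∈ Sp N k) (h0 : ∀ n, ¬ l ∣ n → coef f n = 0) :
    ∃ g ∈ Sp (N / l) k, f = B l g := by
  have hl0 : (l : ℂ) ≠ 0 := by exact_mod_cast hl.ne_zero
  have h1 : (1 : ℝ) * 1 ≠ 0 := by norm_num
  have hM : 0 < N / l := Nat.div_pos (Nat.le_of_dvd hN h) hl.pos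
  have hG := descend hN hl hM (by rw [Nat.mul_div_cancel' h]) hf h1
    (slash_period hN hl hf h0 h1)
  refine ⟨(l : ℂ) • (f ∣[(k : ℤ)] dA l), Submodule.smul_mem _ _ hG, ?_⟩
  funext z
  have e : dA l • (tri l 0 1 (by simp [NeZero.ne l]) • z) = z := by
    have hl' : 0 < (l : ℝ) * 1 := by
      rw [mul_one]; exact_mod_cast hl.pos
    have hl'' : 0 < (1 : ℝ) * l := by
      rw [one_mul]; exact_mod_cast hl.pos
    apply UpperHalfPlane.ext
    rw [dA, ES.coe_tri_smul _ hl'', ES.coe_tri_smul _ hl']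
    push_cast
    field_simp
    ring
  show f z = ((l : ℂ) • (f ∣[(k : ℤ)] dA l)) (tri l 0 1 (by simp [NeZero.ne l]) • z)
  rw [Pi.smul_apply, slash_dA, e, smul_eq_mul]
  field_simp

/-- A form of level `N` whose coefficients are supported on the multiples of a prime `l ∤ N`
vanishes. -/
theorem one_prime' {N l : ℕ} (hN : 0 < N) (hl : l.Prime) (h : ¬ l ∣ N) {f : ℍ → ℂ}
    (hf : f ∈ Sp N k) (h0 : ∀ n, ¬ l ∣ n → coef f n = 0) : f = 0 := by
  have : NeZero N := ⟨hN.ne'⟩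
  have : NeZero l := ⟨hl.ne_zero⟩
  have : NeZero (l ^ 2) := ⟨pow_ne_zero 2 hl.ne_zero⟩
  have hl0 : (l : ℂ) ≠ 0 := by exact_mod_cast hl.ne_zero
  have hlr : (l : ℝ) ≠ 0 := by exact_mod_cast hl.ne_zero
  have h1 : (1 : ℝ) * 1 ≠ 0 := by norm_num
  have hG := descend hN hl hN (Dvd.intro_left _ rfl) hf h1 (slash_period hN hl hf h0 h1)
  obtain ⟨f1, f2, f3⟩ := (mem_Sp_iff hN).1 hf
  obtain ⟨g1, g2, g3⟩ := (mem_Sp_iff hN).1 hG
  set G := f ∣[(k : ℤ)] dA l with hGdef
  -- the matrix `(l y; N w)`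
  have hcop : IsCoprime (l : ℤ) (N : ℤ) := by
    rw [Nat.isCoprime_iff_coprime]
    exact (Nat.Prime.coprime_iff_not_dvd hl).2 h
  obtain ⟨w, y, hwy⟩ := hcop
  let γ : SL(2, ℤ) := ⟨!![(l : ℤ), -y; N, w], by
    rw [Matrix.det_fin_two_of]
    linear_combination hwy⟩
  let c : SL(2, ℤ) := ⟨!![1, 0; -(N : ℤ), 1], by
    rw [Matrix.det_fin_two_of]
    ring⟩
  let t : SL(2, ℤ) := ⟨!![1, l * (-y); 0, 1], by
    rw [Matrix.det_fin_two_of]
    ring⟩
  have hγ : γ ∈ Gamma0 N := by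
    rw [Gamma0_mem]
    simp [γ]
  have hc : c ∈ Gamma0 N := by
    rw [Gamma0_mem]
    simp [c]
  have ht : t ∈ Gamma0 N := by
    rw [Gamma0_mem]
    simp [t]
  have hD0 : (l : ℝ) * (1 / (l : ℝ)) = 1 := by field_simp
  have hD : (l : ℝ) * (1 / (l : ℝ)) ≠ 0 := by rw [hD0]; exact one_ne_zero
  have hD1 : 0 < (l : ℝ) * (1 / (l : ℝ)) := by rw [hD0]; exact one_pos
  have hwy' : (w : ℝ) * l + y * N = 1 := by exact_mod_cast hwy
  have ea : dA l * SpecialLinearGroup.mapGL ℝ t = tri 1 (-((l : ℝ) * y)) l (by simpa using hlr) := by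
    apply Units.ext
    ext i j
    fin_cases i <;> fin_cases j <;>
      simp [dA, tri, t, Matrix.mul_apply, Fin.sum_univ_two]
  have eb : tri 1 (-((l : ℝ) * y)) l (by simpa using hlr) * tri l 0 (1 / (l : ℝ)) hD =
      tri l (-(y : ℝ)) 1 (by simpa using hlr) := by
    apply Units.ext
    ext i j
    fin_cases i <;> fin_cases j <;>
      simp [tri, Matrix.mul_apply, Fin.sum_univ_two, hlr]
    field_simp
  have ec : SpecialLinearGroup.mapGL ℝ c * (dA l * SpecialLinearGroup.mapGL ℝ γ) =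
      tri l (-(y : ℝ)) 1 (by simpa using hlr) := by
    have e0 : (dA l * SpecialLinearGroup.mapGL ℝ γ).val =
        !![(l : ℝ), -(y : ℝ); l * N, l * w] := by
      ext i j
      fin_cases i <;> fin_cases j <;>
        simp [dA, tri, γ, Matrix.mul_apply, Fin.sum_univ_two]
    apply Units.ext
    rw [Units.val_mul, e0]
    ext i j
    fin_cases i <;> fin_cases j <;>
      simp [tri, c, Matrix.mul_apply, Fin.sum_univ_two]
    · ring
    · linear_combination hwy'
  have e : dA l * SpecialLinearGroup.mapGL ℝ t * tri l 0 (1 / (l : ℝ)) hD =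
      SpecialLinearGroup.mapGL ℝ c * dA l * SpecialLinearGroup.mapGL ℝ γ := by
    rw [ea, eb, mul_assoc, ec]
  have e1 : G ∣[(k : ℤ)] tri l 0 (1 / (l : ℝ)) hD = G := by
    have c1 := f3 c hc
    have c2 := g3 t ht
    have c3 := g3 γ hγ
    rw [ModularForm.SL_slash] at c1 c2 c3
    change f ∣[(k : ℤ)] SpecialLinearGroup.mapGL ℝ c = f at c1
    change G ∣[(k : ℤ)] SpecialLinearGroup.mapGL ℝ t = G at c2
    change G ∣[(k : ℤ)] SpecialLinearGroup.mapGL ℝ γ = G at c3
    have e2 := congrArg (fun m => f ∣[(k : ℤ)] m) e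
    simp only [SlashAction.slash_mul] at e2
    rw [c1, ← hGdef, c2, c3] at e2
    exact e2
  have e2 : G = (l : ℂ) ^ k • ES.Vl (l ^ 2) G := by
    conv_lhs => rw [← e1]
    funext τ
    rw [ES.slash_tri _ hD1, Pi.smul_apply, ES.Vl_apply, hD0]
    have e3 : tri l 0 (1 / (l : ℝ)) hD • τ =
        tri ((l ^ 2 : ℕ) : ℝ) 0 1 (by simp [hl.ne_zero]) • τ := by
      apply UpperHalfPlane.ext
      rw [ES.coe_tri_smul _ hD1, ES.coe_tri_smul _ (by
        rw [mul_one]; exact_mod_cast pow_pos hl.pos 2)]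
      push_cast
      field_simp
      ring
    rw [e3]
    simp only [Complex.ofReal_one, _root_.one_zpow, mul_one, smul_eq_mul]
    rw [mul_comm]
    congr 1
    rw [_root_.zpow_neg, zpow_natCast]
    push_cast
    rw [one_div, inv_pow, inv_inv]
  obtain ⟨F, hF⟩ := hG
  have hq : ES.QE G := by
    rw [← hF]
    exact ES.qe_cusp F
  have e4 : ∀ m, coef G m = 0 := by
    intro m
    induction m using Nat.strong_induction_on with
    | _ m ih =>
      rcases Nat.eq_zero_or_pos m with hm | hm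
      · rw [hm, ← hF]
        exact ES.coef_zero_cusp F
      · rw [e2, ES.coef_smul (ES.qe_Vl hq _), ES.coef_Vl hq]
        split_ifs with h3
        · rw [ih _ (Nat.div_lt_self hm (Nat.one_lt_pow two_ne_zero hl.one_lt)), mul_zero]
        · rw [mul_zero]
  have e5 : G = 0 := by
    funext τ
    refine (hq.hasSum τ).unique ?_
    simp only [e4, zero_mul]
    exact hasSum_zero
  -- hence `f = 0`
  have e6 : f = G ∣[(k : ℤ)] (dA l)⁻¹ := by
    rw [hGdef, ← SlashAction.slash_mul, mul_inv_cancel, SlashAction.slash_one]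
  rw [e6, e5]
  exact SlashAction.zero_slash _ _

end Gouvea.NF
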