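import Pool.Agent.Work.MP_d3517d_nt.NF.MultOf
import Pool.Agent.Work.MP_d3517d_nt.NF.AmbA
import Pool.Agent.Work.MP_d3517d_nt.NF.AmbC
import Pool.Agent.Work.MP_d3517d_nt.NF.Incl
import Pool.Agent.Work.MP_d3517d_nt.NF.New
import Pool.Agent.Work.MP_d3517d_nt.NF.OnePrime

/-!
# Newforms (MP_d3517d_nt, part NF): multiplicity one
-/

open UpperHalfPlane CongruenceSubgroup OnePoint
open scoped MatrixGroups ModularForm ComplexConjugate Manifold

noncomputable section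

namespace Gouvea.NF

variable {k : ℕ}

theorem mh (P : IP k) : MH P where
  Sp_mono h hN := Sp_mono h hN
  coef_add hN _ _ hf hg n := coef_add hN hf hg n
  coef_smul hN _ hf c n := coef_smul hN hf c n
  coef_ext hM hN _ _ hf hg h := coef_ext hM hN hf hg h
  InV_of_mem hN _ hf := InV_of_mem hN hf
  one_prime hN hl h _ hf h0 := one_prime hN hl h hf h0
  one_prime' hN hl h _ hf h0 := one_prime' hN hl h hf h0
  LNew_incl hN hl hq hlq _ hf := LNew_incl P hN hl hq hlq hf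
  dep_mem hN hq _ hf := dep_mem hN hq hf
  coef_dep hN hq _ hf n := coef_dep hN hq hf n
  LNew_dep hN hl hq hlq _ hf := LNew_dep P hN hl hq hlq hf

/-- **Multiplicity one**, vanishing form. -/
theorem mult_one (P : IP k) {N D : ℕ} (hN : 0 < N) (hD : 0 < D) {f : ℍ → ℂ} (hf : New P N f)
    (h : ∀ n, n.Coprime D → coef f n = 0) : f = 0 :=
  (mh P).mult_one hN hD hf h

/-- **Multiplicity one**, the levels. -/
theorem mult_two (P : IP k) {M₁ M₂ D : ℕ} (h₁ : 0 < M₁) (h₂ : 0 < M₂) (hD : 0 < D) {f₁ f₂ : ℍ → ℂ}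
    (hf₁ : New P M₁ f₁) (hf₂ : New P M₂ f₂) (h : ∀ n, n.Coprime D → coef f₁ n = coef f₂ n)
    (h0 : coef f₁ 1 ≠ 0) : M₁ = M₂ :=
  (mh P).mult_two h₁ h₂ hD hf₁ hf₂ h h0

end Gouvea.NF
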