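import Pool.Agent.Work.MP_d3517d_nt.NF.SysCount
import Pool.Agent.Work.MP_d3517d_nt.NF.Mult
import Pool.Agent.Work.MP_d3517d_nt.NF.ExistsIP
import Pool.Agent.Work.MP_d3517d_nt.NF.Eig

/-!
# Newforms: the results without hypotheses
-/

set_option autoImplicit false

open UpperHalfPlane CongruenceSubgroup Module
open scoped MatrixGroups ModularForm ComplexConjugate Manifold

noncomputable section

namespace Gouvea.NF

open Gouvea.ES Gouvea.Sys

variable {k : ℕ}

theorem multHyp (P : IP k) : MultHyp P where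
  mult_one hN hD _ hf h := mult_one P hN hD hf h
  mult_two h₁ h₂ hD _ _ hf₁ hf₂ h h0 := mult_two P h₁ h₂ hD hf₁ hf₂ h h0

/-- **The basis theorem.** -/
theorem exists_basis (N k : ℕ) (hN : 0 < N) : ∃ b : Module.Basis (Idx N k) ℂ (Cusp N k),
    (∀ i : Idx N k, ∀ z w : ℍ, (w : ℂ) = (i.2.2 : ℕ) * z → b i z = i.2.1.1 w) ∧
    ∀ (i : Idx N k) (l : ℕ) [NeZero l], l.Prime → ¬ l ∣ N →
      Tl k l (b i) = coef i.2.1.1 l • ⇑(b i) := by
  obtain ⟨P⟩ := exists_IP k
  exact exists_basis' P (multHyp P) N hN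

theorem Tl_newform {N l : ℕ} [NeZero l] (hN : 0 < N) (hl : l.Prime) (h : ¬ l ∣ N) {f : Cusp N k}
    (hf : IsNewform N k f) : Tl k l f = coef f l • ⇑f := by
  obtain ⟨P⟩ := exists_IP k
  exact Tl_newform' P hN hl h hf

theorem finite_setOf_isNewform (N k : ℕ) (hN : 0 < N) : {F : Cusp N k | IsNewform N k F}.Finite := by
  obtain ⟨P⟩ := exists_IP k
  exact finite_newforms_of P (multHyp P) hN

/-- **The number of newforms with the property `Q`.** -/
theorem card_newforms {N : ℕ} (k : ℕ) (hN : 0 < N)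
    {Q : (MvPolynomial Nat.Primes ℤ →+* ℂ) → Prop} (hQ : PrimeTo N Q) :
    (({F : Cusp N k | IsNewform N k F ∧ Q (chiNF F)}.ncard : ℕ) : ℤ) =
      ∑ x ∈ N.divisorsAntidiagonal,
        (ArithmeticFunction.moebius * ArithmeticFunction.moebius) x.1 * (cS x.2 k Q : ℤ) := by
  obtain ⟨P⟩ := exists_IP k
  exact card_newforms_of P (multHyp P) hN hQ

/-- the number of systems of level `M` in terms of newforms -/
theorem cS_eq_sum {M N : ℕ} (k : ℕ) (hM : 0 < M) (hMN : M ∣ N)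
    {Q : (MvPolynomial Nat.Primes ℤ →+* ℂ) → Prop} (hQ : PrimeTo N Q) :
    cS M k Q = ∑ D ∈ M.divisors,
      (M / D).divisors.card * {F : Cusp D k | IsNewform D k F ∧ Q (chiNF F)}.ncard := by
  obtain ⟨P⟩ := exists_IP k
  exact cS_eq_sum_of P (multHyp P) hM hMN hQ

/-- the system of a newform occurs in the cusp forms -/
theorem chiNF_eigen {N l : ℕ} [NeZero l] (hN : 0 < N) (hl : l.Prime) (h : ¬ l ∣ N) {f : Cusp N k}
    (hf : IsNewform N k f) : Tl k l f = chiNF f (MvPolynomial.X ⟨l, hl⟩) • ⇑f := by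
  rw [chiNF_X]
  exact Tl_newform hN hl h hf

end Gouvea.NF
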