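import Pool.Agent.Work.MP_d3517d_nt.NF.Main

/-!
# Newforms: Möbius inversion in a part of the level
-/

set_option autoImplicit false

open UpperHalfPlane CongruenceSubgroup Module
open scoped MatrixGroups ModularForm ComplexConjugate Manifold ArithmeticFunction.zeta
  ArithmeticFunction.Moebius

noncomputable section

namespace Gouvea.NF

open ArithmeticFunction

variable {k : ℕ}

/-- the number of newforms of level `N` with the property `Q` -/
def cN (N k : ℕ) (Q : (MvPolynomial Nat.Primes ℤ →+* ℂ) → Prop) : ℕ :=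
  {F : Cusp N k | IsNewform N k F ∧ Q (chiNF F)}.ncard

/-- the sum over the divisors of a product of coprime numbers -/
theorem sum_divisors_mul_coprime {M c : ℕ} (h : M.Coprime c) (hM : M ≠ 0) (hc : c ≠ 0)
    (f : ℕ → ℤ) : ∑ D ∈ (M * c).divisors, f D =
      ∑ E ∈ c.divisors, ∑ D ∈ M.divisors, f (D * E) := by
  rw [← Finset.sum_product']
  symm
  refine Finset.sum_nbij' (fun x => x.2 * x.1) (fun D => (D.gcd c, D.gcd M)) ?_ ?_ ?_ ?_ ?_
  · rintro ⟨E, D⟩ hx
    simp only [Finset.mem_product, Nat.mem_divisors] at hx ⊢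
    exact ⟨Nat.mul_dvd_mul hx.2.1 hx.1.1, Nat.mul_ne_zero hM hc⟩
  · intro D hD
    simp only [Finset.mem_product, Nat.mem_divisors]
    exact ⟨⟨Nat.gcd_dvd_right _ _, hc⟩, Nat.gcd_dvd_right _ _, hM⟩
  · rintro ⟨E, D⟩ hx
    simp only [Finset.mem_product, Nat.mem_divisors] at hx
    have h1 : Nat.Coprime D c := h.coprime_dvd_left hx.2.1
    have h2 : Nat.Coprime E M := h.symm.coprime_dvd_left hx.1.1
    simp only [Prod.mk.injEq]
    constructor
    · rw [Nat.Coprime.gcd_mul_left_cancel _ h1]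
      exact Nat.gcd_eq_left hx.1.1
    · rw [Nat.Coprime.gcd_mul_right_cancel _ h2]
      exact Nat.gcd_eq_left hx.2.1
  · intro D hD
    have hD' := (Nat.mem_divisors.1 hD).1
    simp only
    rw [← Nat.Coprime.gcd_mul D h]
    exact Nat.gcd_eq_left hD'
  · rintro ⟨E, D⟩ _
    rfl

/-- Möbius inversion for `σ₀` -/
theorem inv_sigma (N : ℕ) (hN : N ≠ 0) (g : ℕ → ℤ) :
    ∑ x ∈ N.divisorsAntidiagonal, (moebius * moebius) x.1 *
      ∑ D ∈ x.2.divisors, ((x.2 / D).divisors.card : ℤ) * g D = g N := by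
  classical
  let G : ArithmeticFunction ℤ := ⟨fun n => if n = 0 then 0 else g n, by simp⟩
  let Z : ArithmeticFunction ℤ := ((ArithmeticFunction.zeta : ArithmeticFunction ℕ) :
    ArithmeticFunction ℤ)
  have hZ : ∀ n, n ≠ 0 → (Z * Z) n = (n.divisors.card : ℤ) := by
    intro n hn
    rw [ArithmeticFunction.mul_apply, Finset.sum_congr rfl (g := fun _ => (1 : ℤ)),
      Finset.sum_const, nsmul_eq_mul, mul_one]
    · congr 1
      rw [← Nat.map_div_right_divisors, Finset.card_map]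
    · intro x hx
      have := Nat.mem_divisorsAntidiagonal.mp hx
      have h1 : x.1 ≠ 0 := fun h => this.2 (by rw [← this.1, h, zero_mul])
      have h2 : x.2 ≠ 0 := fun h => this.2 (by rw [← this.1, h, mul_zero])
      simp [Z, ArithmeticFunction.natCoe_apply, ArithmeticFunction.zeta_apply, h1, h2]
  have hT : ∀ n, n ≠ 0 → ((Z * Z) * G) n =
      ∑ D ∈ n.divisors, ((n / D).divisors.card : ℤ) * g D := by
    intro n hn
    rw [ArithmeticFunction.mul_apply,
      ← Nat.sum_divisorsAntidiagonal' (f := fun a b => (a.divisors.card : ℤ) * g b)]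
    refine Finset.sum_congr rfl fun x hx => ?_
    have := Nat.mem_divisorsAntidiagonal.mp hx
    have h1 : x.1 ≠ 0 := fun h => this.2 (by rw [← this.1, h, zero_mul])
    have h2 : x.2 ≠ 0 := fun h => this.2 (by rw [← this.1, h, mul_zero])
    rw [hZ _ h1]
    congr 1
    exact if_neg h2
  have h1 : ((moebius * moebius) * ((Z * Z) * G)) = G := by
    have h2 : (moebius : ArithmeticFunction ℤ) * Z = 1 := by
      rw [mul_comm]
      exact ArithmeticFunction.coe_zeta_mul_moebius
    calc (moebius * moebius) * ((Z * Z) * G) = (moebius * Z) * (moebius * Z) * G := by ring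
      _ = G := by rw [h2, one_mul, one_mul]
  have h3 := congrArg (fun F : ArithmeticFunction ℤ => F N) h1
  rw [ArithmeticFunction.mul_apply] at h3
  have h4 : G N = g N := if_neg hN
  rw [← h4, ← h3]
  refine Finset.sum_congr rfl fun x hx => ?_
  have := Nat.mem_divisorsAntidiagonal.mp hx
  have h2 : x.2 ≠ 0 := fun h => this.2 (by rw [← this.1, h, mul_zero])
  rw [hT _ h2]

/-- **Möbius inversion in the part `N` of the levels `M * c`, `M ∣ N`, `c` prime to `N`.** -/
theorem sum_beta_cS {N c : ℕ} (k : ℕ) (hN : 0 < N) (hc : 0 < c) (h : N.Coprime c)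
    {Q : (MvPolynomial Nat.Primes ℤ →+* ℂ) → Prop} (hQ : PrimeTo (N * c) Q) :
    ∑ x ∈ N.divisorsAntidiagonal,
        (ArithmeticFunction.moebius * ArithmeticFunction.moebius) x.1 * (cS (x.2 * c) k Q : ℤ) =
      ∑ E ∈ c.divisors, ((c / E).divisors.card : ℤ) * (cN (N * E) k Q : ℤ) := by
  have key : ∀ x ∈ N.divisorsAntidiagonal, (cS (x.2 * c) k Q : ℤ) =
      ∑ E ∈ c.divisors, ((c / E).divisors.card : ℤ) *
        ∑ D ∈ x.2.divisors, ((x.2 / D).divisors.card : ℤ) * (cN (D * E) k Q : ℤ) := by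
    intro x hx
    have hx' := Nat.mem_divisorsAntidiagonal.1 hx
    have h2 : x.2 ≠ 0 := fun h => hx'.2 (by rw [← hx'.1, h, mul_zero])
    have hd : x.2 ∣ N := Dvd.intro_left _ hx'.1
    have hco : x.2.Coprime c := h.coprime_dvd_left hd
    rw [cS_eq_sum (N := N * c) k (Nat.mul_pos (Nat.pos_of_ne_zero h2) hc)
      (Nat.mul_dvd_mul_right hd c) hQ]
    push_cast
    have h5 := sum_divisors_mul_coprime hco h2 hc.ne'
      (fun D => ((x.2 * c / D).divisors.card : ℤ) * (cN D k Q : ℤ))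
    change ∑ D ∈ (x.2 * c).divisors, ((x.2 * c / D).divisors.card : ℤ) * (cN D k Q : ℤ) = _
    rw [h5]
    refine Finset.sum_congr rfl fun E hE => ?_
    rw [Finset.mul_sum]
    refine Finset.sum_congr rfl fun D hD => ?_
    have hE' := (Nat.mem_divisors.1 hE).1
    have hD' := (Nat.mem_divisors.1 hD).1
    have h6 : x.2 * c / (D * E) = (x.2 / D) * (c / E) := (Nat.div_mul_div_comm hD' hE').symm
    have h7 : (x.2 / D).Coprime (c / E) :=
      (hco.coprime_dvd_left (Nat.div_dvd_of_dvd hD')).coprime_dvd_right (Nat.div_dvd_of_dvd hE')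
    rw [h6, h7.card_divisors_mul]
    push_cast
    ring
  rw [Finset.sum_congr rfl (fun x hx => by rw [key x hx, Finset.mul_sum])]
  rw [Finset.sum_comm]
  refine Finset.sum_congr rfl fun E _ => ?_
  have h8 := inv_sigma N hN.ne' (fun D => (cN (D * E) k Q : ℤ))
  rw [← h8, Finset.mul_sum]
  refine Finset.sum_congr rfl fun x _ => ?_
  ring

/-- Every newform of level `N` counts `σ₀(c)` times in the combination of the levels `M * c`. -/
theorem sigma_mul_cN_le {N c : ℕ} (k : ℕ) (hN : 0 < N) (hc : 0 < c) (h : N.Coprime c)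
    {Q : (MvPolynomial Nat.Primes ℤ →+* ℂ) → Prop} (hQ : PrimeTo (N * c) Q) :
    (c.divisors.card : ℤ) * (cN N k Q : ℤ) ≤ ∑ x ∈ N.divisorsAntidiagonal,
      (ArithmeticFunction.moebius * ArithmeticFunction.moebius) x.1 *
        (cS (x.2 * c) k Q : ℤ) := by
  rw [sum_beta_cS k hN hc h hQ]
  have h1 : (1 : ℕ) ∈ c.divisors := Nat.one_mem_divisors.2 hc.ne'
  refine le_trans ?_ (Finset.single_le_sum (f := fun E => ((c / E).divisors.card : ℤ) *
    (cN (N * E) k Q : ℤ)) (fun E _ => by positivity) h1)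
  simp only [Nat.div_one, mul_one]
  exact le_refl _

theorem sum_beta_cS_nonneg {N c : ℕ} (k : ℕ) (hN : 0 < N) (hc : 0 < c) (h : N.Coprime c)
    {Q : (MvPolynomial Nat.Primes ℤ →+* ℂ) → Prop} (hQ : PrimeTo (N * c) Q) :
    0 ≤ ∑ x ∈ N.divisorsAntidiagonal,
      (ArithmeticFunction.moebius * ArithmeticFunction.moebius) x.1 *
        (cS (x.2 * c) k Q : ℤ) :=
  le_trans (by positivity) (sigma_mul_cN_le k hN hc h hQ)

/-- the level `N` itself -/
theorem cN_eq {N : ℕ} (k : ℕ) (hN : 0 < N)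
    {Q : (MvPolynomial Nat.Primes ℤ →+* ℂ) → Prop} (hQ : PrimeTo N Q) :
    (cN N k Q : ℤ) = ∑ x ∈ N.divisorsAntidiagonal,
      (ArithmeticFunction.moebius * ArithmeticFunction.moebius) x.1 * (cS x.2 k Q : ℤ) :=
  card_newforms k hN hQ

/-- the case `c = p` prime -/
theorem sum_beta_cS_prime {N p : ℕ} (k : ℕ) (hN : 0 < N) (hp : p.Prime) (h : ¬ p ∣ N)
    {Q : (MvPolynomial Nat.Primes ℤ →+* ℂ) → Prop} (hQ : PrimeTo (N * p) Q) :
    ∑ x ∈ N.divisorsAntidiagonal,
        (ArithmeticFunction.moebius * ArithmeticFunction.moebius) x.1 * (cS (x.2 * p) k Q : ℤ) =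
      2 * (cN N k Q : ℤ) + (cN (N * p) k Q : ℤ) := by
  rw [sum_beta_cS k hN hp.pos ((Nat.Prime.coprime_iff_not_dvd hp).2 h).symm hQ,
    Nat.Prime.divisors hp, Finset.sum_pair hp.one_lt.ne, Nat.div_one, Nat.div_self hp.pos,
    Nat.Prime.divisors hp, Finset.card_pair hp.one_lt.ne, Nat.divisors_one,
    Finset.card_singleton, mul_one]
  push_cast
  ring

end Gouvea.NF
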