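import Mathlib

/-!
# Adjoints of Hecke operators (setting free)

`ip` is any additive pairing on a submodule `V` of functions on the upper half plane, real
homogeneous, with `ip (f|a) (g|a) = det(a)^(k-2) ip f g`.
-/

open UpperHalfPlane ModularForm CongruenceSubgroup
open scoped MatrixGroups ModularForm

noncomputable section

namespace Gouvea.NF.Adj

/-- An upper triangular matrix. -/
def tr (a b d : ℝ) (h : a * d ≠ 0) : GL (Fin 2) ℝ :=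
  Matrix.GeneralLinearGroup.mkOfDetNeZero !![a, b; 0, d] (by simpa [Matrix.det_fin_two] using h)

lemma tr_mul {a b d a' b' d' : ℝ} (h : a * d ≠ 0) (h' : a' * d' ≠ 0)
    (h'' : a * a' * (d * d') ≠ 0) :
    tr a b d h * tr a' b' d' h' = tr (a * a') (a * b' + b * d') (d * d') h'' := by
  apply Units.ext
  ext i j
  fin_cases i <;> fin_cases j <;> simp [tr, Matrix.GeneralLinearGroup.mkOfDetNeZero,
    Matrix.mul_apply, Fin.sum_univ_two]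

lemma tr_congr {a b d a' b' d' : ℝ} (h : a * d ≠ 0) (h' : a' * d' ≠ 0) (h1 : a = a') (h2 : b = b')
    (h3 : d = d') : tr a b d h = tr a' b' d' h' := by
  subst h1 h2 h3; rfl

lemma det_tr {a b d : ℝ} (h : a * d ≠ 0) : (tr a b d h).det.val = a * d := by
  simp [tr, Matrix.GeneralLinearGroup.mkOfDetNeZero, Matrix.det_fin_two]

lemma sigma_pos {a : GL (Fin 2) ℝ} (h : 0 < a.det.val) (z : ℂ) : σ a z = z := by
  rw [σ, if_pos h]; rfl

lemma denom_tr {a b d : ℝ} (h : a * d ≠ 0) (z : ℂ) : denom (tr a b d h) z = d := by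
  simp [denom, tr, Matrix.GeneralLinearGroup.mkOfDetNeZero]

lemma coe_tr_smul {a b d : ℝ} (h : a * d ≠ 0) (hp : 0 < a * d) (z : ℍ) :
    ((tr a b d h • z : ℍ) : ℂ) = (a * z + b) / d := by
  rw [UpperHalfPlane.coe_smul_of_det_pos (by rw [det_tr]; exact hp)]
  simp [num, denom, tr, Matrix.GeneralLinearGroup.mkOfDetNeZero]

/-- a function with period one is fixed by the translations. -/
lemma slash_trans (k : ℤ) (f : ℍ → ℂ) (x : ℝ) (h : (1 : ℝ) * 1 ≠ 0) (z : ℍ) :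
    (f ∣[k] tr 1 x 1 h) z = f ((x : ℝ) +ᵥ z) := by
  rw [slash_apply, sigma_pos (by rw [det_tr]; norm_num), det_tr, denom_tr]
  have : tr 1 x 1 h • z = (x : ℝ) +ᵥ z := by
    apply UpperHalfPlane.ext
    rw [coe_tr_smul h (by norm_num)]
    simp [add_comm]
  rw [this]
  simp

lemma slash_scal (k : ℤ) (f : ℍ → ℂ) (c : ℝ) (hc : 0 < c) (h : c * c ≠ 0) :
    f ∣[k] tr c 0 c h = ((c : ℂ) ^ (k - 2)) • f := by
  funext z
  rw [slash_apply, sigma_pos (by rw [det_tr]; positivity), det_tr, denom_tr]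
  have : tr c 0 c h • z = z := by
    apply UpperHalfPlane.ext
    rw [coe_tr_smul h (by positivity)]
    have : (c : ℂ) ≠ 0 := by exact_mod_cast hc.ne'
    field_simp
    simp
  rw [this, Pi.smul_apply, smul_eq_mul]
  have hc' : (c : ℂ) ≠ 0 := by exact_mod_cast hc.ne'
  rw [abs_of_pos (by positivity), Complex.ofReal_mul, mul_zpow, mul_assoc, mul_comm,
    ← zpow_add₀ hc', ← zpow_add₀ hc']
  congr 2
  ring

/-- The properties of a Petersson product that are used. -/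
structure IsPair (k : ℤ) (V : Submodule ℂ (ℍ → ℂ)) (ip : (ℍ → ℂ) → (ℍ → ℂ) → ℂ)
    (A : Set (GL (Fin 2) ℝ)) : Prop where
  mem : ∀ a ∈ A, ∀ f ∈ V, f ∣[k] a ∈ V
  add_left : ∀ f ∈ V, ∀ g ∈ V, ∀ h ∈ V, ip (f + g) h = ip f h + ip g h
  add_right : ∀ f ∈ V, ∀ g ∈ V, ∀ h ∈ V, ip f (g + h) = ip f g + ip f h
  smul_left : ∀ c : ℝ, ∀ f ∈ V, ∀ g ∈ V, ip ((c : ℂ) • f) g = (c : ℂ) * ip f g
  smul_right : ∀ c : ℝ, ∀ f ∈ V, ∀ g ∈ V, ip f ((c : ℂ) • g) = (c : ℂ) * ip f g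
  slash : ∀ a ∈ A, ∀ f ∈ V, ∀ g ∈ V, ip (f ∣[k] a) (g ∣[k] a) = (a.det.val : ℂ) ^ (k - 2) * ip f g

variable {k : ℤ} {V : Submodule ℂ (ℍ → ℂ)} {ip : (ℍ → ℂ) → (ℍ → ℂ) → ℂ} {A : Set (GL (Fin 2) ℝ)}

lemma IsPair.zero_left (H : IsPair k V ip A) {g : ℍ → ℂ} (hg : g ∈ V) : ip 0 g = 0 := by
  have := H.add_left 0 V.zero_mem 0 V.zero_mem g hg
  rw [add_zero] at this
  linear_combination -this

lemma IsPair.zero_right (H : IsPair k V ip A) {g : ℍ → ℂ} (hg : g ∈ V) : ip g 0 = 0 := by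
  have := H.add_right g hg 0 V.zero_mem 0 V.zero_mem
  rw [add_zero] at this
  linear_combination -this

lemma IsPair.sum_left (H : IsPair k V ip A) {ι : Type*} (s : Finset ι) (F : ι → ℍ → ℂ)
    (hF : ∀ i ∈ s, F i ∈ V) {g : ℍ → ℂ} (hg : g ∈ V) :
    ip (∑ i ∈ s, F i) g = ∑ i ∈ s, ip (F i) g := by
  classical
  induction s using Finset.induction_on with
  | empty => simpa using H.zero_left hg
  | insert i t hi IH =>
    rw [Finset.sum_insert hi, Finset.sum_insert hi, H.add_left _ (hF i (by simp)) _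
      (V.sum_mem fun j hj => hF j (by simp [hj])) _ hg, IH fun j hj => hF j (by simp [hj])]

lemma IsPair.sum_right (H : IsPair k V ip A) {ι : Type*} (s : Finset ι) (F : ι → ℍ → ℂ)
    (hF : ∀ i ∈ s, F i ∈ V) {g : ℍ → ℂ} (hg : g ∈ V) :
    ip g (∑ i ∈ s, F i) = ∑ i ∈ s, ip g (F i) := by
  classical
  induction s using Finset.induction_on with
  | empty => simpa using H.zero_right hg
  | insert i t hi IH =>
    rw [Finset.sum_insert hi, Finset.sum_insert hi, H.add_right _ hg _ (hF i (by simp)) _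
      (V.sum_mem fun j hj => hF j (by simp [hj])), IH fun j hj => hF j (by simp [hj])]

/-- `ip (f | a) g = ip f (g | a')` if `a a'` is the scalar matrix `det a = det a'`. -/
lemma IsPair.adj (H : IsPair k V ip A) {a a' : GL (Fin 2) ℝ} (ha : a ∈ A) (ha' : a' ∈ A)
    {c : ℝ} (hc : 0 < c) (h : c * c ≠ 0) (h1 : a * a' = tr c 0 c h) (h2 : a'.det.val = c)
    {f g : ℍ → ℂ} (hf : f ∈ V) (hg : g ∈ V) : ip (f ∣[k] a) g = ip f (g ∣[k] a') := by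
  have e := H.slash a' ha' _ (H.mem a ha f hf) g hg
  rw [← SlashAction.slash_mul, h1, slash_scal k f c hc h, h2] at e
  have hcz : ((c : ℂ) ^ (k - 2)) = ((c ^ (k - 2) : ℝ) : ℂ) := by push_cast; rfl
  rw [hcz, H.smul_left _ f hf _ (H.mem a' ha' g hg)] at e
  have hne : ((c ^ (k - 2) : ℝ) : ℂ) ≠ 0 := by
    exact_mod_cast (zpow_pos hc _).ne'
  exact (mul_left_cancel₀ hne e).symm

section UT

variable (q : ℕ) (hq : q ≠ 0)

include hq in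
lemma nzq : (1 : ℝ) * (q : ℝ) ≠ 0 := by simp [hq]

/-- `f | (1 b; 0 q) = (f | (1 0; 0 q)) | (1 b; 0 1)`. -/
lemma slash_one_b (k : ℤ) (f : ℍ → ℂ) (b : ℝ) (h : (1 : ℝ) * q ≠ 0) (h1 : (1 : ℝ) * 1 ≠ 0) :
    f ∣[k] tr 1 b q h = (f ∣[k] tr 1 0 q h) ∣[k] tr 1 b 1 h1 := by
  rw [← SlashAction.slash_mul, tr_mul h h1 (by simpa using h)]
  congr 1
  apply tr_congr <;> simp

end UT

/-- the elements of `A` that are used. -/
structure Good (A : Set (GL (Fin 2) ℝ)) (q : ℕ) (h : (q : ℝ) * 1 ≠ 0) (h' : (1 : ℝ) * q ≠ 0)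
    (h1 : (1 : ℝ) * 1 ≠ 0) : Prop where
  m1 : tr q 0 1 h ∈ A
  m2 : tr 1 0 q h' ∈ A
  m3 : ∀ b : ℕ, tr 1 b 1 h1 ∈ A

lemma slash_nat_trans {f : ℍ → ℂ} (hf : ∀ z : ℍ, f ((1 : ℝ) +ᵥ z) = f z) (b : ℕ)
    (h1 : (1 : ℝ) * 1 ≠ 0) : f ∣[k] tr 1 b 1 h1 = f := by
  funext z
  rw [slash_trans]
  induction b generalizing z with
  | zero => simp
  | succ b ih =>
    have : ((b + 1 : ℕ) : ℝ) +ᵥ z = (1 : ℝ) +ᵥ ((b : ℝ) +ᵥ z) := by
      rw [vadd_vadd]; congr 1; push_cast; ring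
    rw [this, hf, ih]

/-- The part of `T_q` with the matrices `(1 b; 0 q)`. -/
lemma IsPair.U_left (H : IsPair k V ip A) {q : ℕ} (h : (q : ℝ) * 1 ≠ 0) (h' : (1 : ℝ) * q ≠ 0)
    (h1 : (1 : ℝ) * 1 ≠ 0) (G : Good A q h h' h1) {f g : ℍ → ℂ} (hf : f ∈ V) (hg : g ∈ V)
    (hgp : ∀ z : ℍ, g ((1 : ℝ) +ᵥ z) = g z) :
    ip (∑ b ∈ Finset.range q, f ∣[k] tr 1 b q h') g = (q : ℂ) * ip (f ∣[k] tr 1 0 q h') g := by
  rw [H.sum_left _ _ _ hg]
  · rw [Finset.sum_congr rfl (g := fun _ => ip (f ∣[k] tr 1 0 q h') g)]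
    · simp
    · intro b _
      rw [slash_one_b q k f b h' h1]
      conv_lhs => rw [← slash_nat_trans (k := k) hgp b h1]
      rw [H.slash _ (G.m3 b) _ (H.mem _ G.m2 f hf) g hg, det_tr]
      simp
  · intro b _
    rw [slash_one_b q k f b h' h1]
    exact H.mem _ (G.m3 b) _ (H.mem _ G.m2 f hf)

lemma IsPair.U_right (H : IsPair k V ip A) {q : ℕ} (h : (q : ℝ) * 1 ≠ 0) (h' : (1 : ℝ) * q ≠ 0)
    (h1 : (1 : ℝ) * 1 ≠ 0) (G : Good A q h h' h1) {f g : ℍ → ℂ} (hf : f ∈ V) (hg : g ∈ V)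
    (hgp : ∀ z : ℍ, g ((1 : ℝ) +ᵥ z) = g z) :
    ip g (∑ b ∈ Finset.range q, f ∣[k] tr 1 b q h') = (q : ℂ) * ip g (f ∣[k] tr 1 0 q h') := by
  rw [H.sum_right _ _ _ hg]
  · rw [Finset.sum_congr rfl (g := fun _ => ip g (f ∣[k] tr 1 0 q h'))]
    · simp
    · intro b _
      rw [slash_one_b q k f b h' h1]
      conv_lhs => rw [← slash_nat_trans (k := k) hgp b h1]
      rw [H.slash _ (G.m3 b) _ hg _ (H.mem _ G.m2 f hf), det_tr]
      simp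
  · intro b _
    rw [slash_one_b q k f b h' h1]
    exact H.mem _ (G.m3 b) _ (H.mem _ G.m2 f hf)

lemma mul_a (q : ℕ) (h : (q : ℝ) * 1 ≠ 0) (h' : (1 : ℝ) * q ≠ 0) (hh : (q : ℝ) * q ≠ 0) :
    tr 1 0 q h' * tr q 0 1 h = tr q 0 q hh ∧ tr q 0 1 h * tr 1 0 q h' = tr q 0 q hh := by
  constructor
  · rw [tr_mul h' h (by simpa using hh)]; apply tr_congr <;> simp
  · rw [tr_mul h h' (by simpa using hh)]; apply tr_congr <;> simp

/-- `⟨U f, g⟩ = q ⟨f, g | (q 0; 0 1)⟩`. -/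
theorem IsPair.U_adj (H : IsPair k V ip A) {q : ℕ} (hq : q ≠ 0) (h : (q : ℝ) * 1 ≠ 0)
    (h' : (1 : ℝ) * q ≠ 0)
    (h1 : (1 : ℝ) * 1 ≠ 0) (G : Good A q h h' h1) {f g : ℍ → ℂ} (hf : f ∈ V) (hg : g ∈ V)
    (hgp : ∀ z : ℍ, g ((1 : ℝ) +ᵥ z) = g z) :
    ip (∑ b ∈ Finset.range q, f ∣[k] tr 1 b q h') g = (q : ℂ) * ip f (g ∣[k] tr q 0 1 h) := by
  have hh : (q : ℝ) * q ≠ 0 := by simp [hq]
  rw [H.U_left h h' h1 G hf hg hgp,
    H.adj G.m2 G.m1 (c := q) (by positivity) hh (mul_a q h h' hh).1 (by rw [det_tr]; simp) hf hg]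

/-- `f | (q 0; 0 1) = q^(k-1) f(q z)`. -/
lemma slash_q (k : ℤ) (f : ℍ → ℂ) {q : ℕ} (hq : q ≠ 0) (h : (q : ℝ) * 1 ≠ 0) (z w : ℍ)
    (hw : (w : ℂ) = q * z) : (f ∣[k] tr q 0 1 h) z = (q : ℂ) ^ (k - 1) * f w := by
  have hq0 : (0 : ℝ) < q := by positivity
  rw [slash_apply, sigma_pos (by rw [det_tr]; simpa using hq0), det_tr, denom_tr]
  have : tr q 0 1 h • z = w := by
    apply UpperHalfPlane.ext
    rw [coe_tr_smul h (by simpa using hq0), hw]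
    simp
  rw [this]
  rw [abs_of_pos (by simpa using hq0)]
  simp [mul_comm]

/-- The double coset identity `(l 0; 0 1) = γ₁ (1 0; 0 l) γ₂`, `γ₁, γ₂ ∈ Γ₀(N)`. -/
lemma double (N l : ℕ) (hc : Nat.Coprime l N) (h : (l : ℝ) * 1 ≠ 0)
    (h' : (1 : ℝ) * l ≠ 0) : ∃ γ₁ ∈ Gamma0 N, ∃ γ₂ ∈ Gamma0 N,
      tr l 0 1 h = (Matrix.SpecialLinearGroup.mapGL ℝ γ₁) * tr 1 0 l h' *
        (Matrix.SpecialLinearGroup.mapGL ℝ γ₂) := by
  obtain ⟨w, y, hwy⟩ : ∃ w y : ℤ, l * w - N * y = 1 := by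
    have hco : IsCoprime (l : ℤ) (N : ℤ) := Nat.isCoprime_iff_coprime.mpr hc
    obtain ⟨u, v, huv⟩ := hco
    exact ⟨u, -v, by linarith⟩
  let g1 : SL(2, ℤ) := ⟨!![l * w, -y; -N, 1], by rw [Matrix.det_fin_two_of]; linarith⟩
  let g2 : SL(2, ℤ) := ⟨!![l, y; N, w], by rw [Matrix.det_fin_two_of]; linarith⟩
  refine ⟨g1, Gamma0_mem.mpr (by simp [g1]), g2, Gamma0_mem.mpr (by simp [g2]), ?_⟩
  have hr : (l : ℝ) * w - N * y = 1 := by exact_mod_cast hwy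
  have m1 : ((Matrix.SpecialLinearGroup.mapGL ℝ g1 : GL (Fin 2) ℝ) : Matrix (Fin 2) (Fin 2) ℝ) =
      !![(l : ℝ) * w, -y; -N, 1] := by
    rw [Matrix.SpecialLinearGroup.mapGL_coe_matrix]
    change Matrix.map (!![(l : ℤ) * w, -y; -N, 1]) (algebraMap ℤ ℝ) = _
    ext i j
    fin_cases i <;> fin_cases j <;> simp
  have m2 : ((Matrix.SpecialLinearGroup.mapGL ℝ g2 : GL (Fin 2) ℝ) : Matrix (Fin 2) (Fin 2) ℝ) =
      !![(l : ℝ), y; N, w] := by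
    rw [Matrix.SpecialLinearGroup.mapGL_coe_matrix]
    change Matrix.map (!![(l : ℤ), y; N, w]) (algebraMap ℤ ℝ) = _
    ext i j
    fin_cases i <;> fin_cases j <;> simp
  apply Units.ext
  rw [Units.val_mul, Units.val_mul, m1, m2]
  ext i j
  fin_cases i <;> fin_cases j <;>
    simp [tr, Matrix.GeneralLinearGroup.mkOfDetNeZero, Matrix.mul_apply, Fin.sum_univ_two]
  · linear_combination (-(l : ℝ)) * hr
  · ring
  · ring
  · linear_combination -hr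

/-- `T_l` is self-adjoint on the forms invariant under `Γ₀(N)`. -/
theorem IsPair.T_adj (H : IsPair k V ip A) {N l : ℕ} (hl : l ≠ 0) (hc : Nat.Coprime l N)
    (h : (l : ℝ) * 1 ≠ 0)
    (h' : (1 : ℝ) * l ≠ 0)
    (h1 : (1 : ℝ) * 1 ≠ 0) (G : Good A l h h' h1)
    (hA : ∀ γ : SL(2, ℤ), (Matrix.SpecialLinearGroup.mapGL ℝ γ) ∈ A)
    {f g : ℍ → ℂ} (hf : f ∈ V) (hg : g ∈ V)
    (hfp : ∀ z : ℍ, f ((1 : ℝ) +ᵥ z) = f z) (hgp : ∀ z : ℍ, g ((1 : ℝ) +ᵥ z) = g z)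
    (hfN : ∀ γ ∈ Gamma0 N, f ∣[k] γ = f) (hgN : ∀ γ ∈ Gamma0 N, g ∣[k] γ = g) :
    ip (f ∣[k] tr l 0 1 h + ∑ b ∈ Finset.range l, f ∣[k] tr 1 b l h') g =
      ip f (g ∣[k] tr l 0 1 h + ∑ b ∈ Finset.range l, g ∣[k] tr 1 b l h') := by
  have hh : (l : ℝ) * l ≠ 0 := by simp [hl]
  have hms : ∀ u ∈ V, ∑ b ∈ Finset.range l, u ∣[k] tr 1 b l h' ∈ V := by
    intro u hu
    refine V.sum_mem fun b _ => ?_
    rw [slash_one_b l k u b h' h1]
    exact H.mem _ (G.m3 b) _ (H.mem _ G.m2 u hu)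
  rw [H.add_left _ (H.mem _ G.m1 f hf) _ (hms f hf) g hg,
    H.add_right f hf _ (H.mem _ G.m1 g hg) _ (hms g hg),
    H.U_left h h' h1 G hf hg hgp, H.U_right h h' h1 G hg hf hfp]
  obtain ⟨γ₁, hγ₁, γ₂, hγ₂, e⟩ := double N l hc h h'
  have key : ∀ u ∈ V, (∀ γ ∈ Gamma0 N, u ∣[k] γ = u) → ∀ v ∈ V, (∀ γ ∈ Gamma0 N, v ∣[k] γ = v) →
      ip (u ∣[k] tr l 0 1 h) v = ip (u ∣[k] tr 1 0 l h') v := by
    intro u hu huN v hv hvN
    have e1 : u ∣[k] tr l 0 1 h = (u ∣[k] tr 1 0 l h') ∣[k] (Matrix.SpecialLinearGroup.mapGL ℝ γ₂) := by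
      rw [e, SlashAction.slash_mul, SlashAction.slash_mul]
      have := huN γ₁ hγ₁
      rw [SL_slash] at this
      rw [show u ∣[k] (Matrix.SpecialLinearGroup.mapGL ℝ γ₁) = u from this]
    have e2 : v ∣[k] (Matrix.SpecialLinearGroup.mapGL ℝ γ₂) = v := by
      have := hvN γ₂ hγ₂
      rw [SL_slash] at this
      exact this
    rw [e1]
    conv_lhs => rw [← e2]
    rw [H.slash _ (hA γ₂) _ (H.mem _ G.m2 u hu) v hv]
    simp
  have a1 := H.adj G.m1 G.m2 (c := l) (by positivity) hh (mul_a l h h' hh).2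
    (by rw [det_tr]; simp) hf hg
  have a2 := H.adj G.m2 G.m1 (c := l) (by positivity) hh (mul_a l h h' hh).1
    (by rw [det_tr]; simp) hf hg
  rw [← a1, ← a2, key f hf hfN g hg hgN]

end Gouvea.NF.Adj
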