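import Pool.Agent.Work.MP_d3517d_nt.Stmt

/-!
# Newforms (MP_d3517d_nt, part NF): definitions

Everything takes place in the space of all functions `ℍ → ℂ`.
-/

open UpperHalfPlane CongruenceSubgroup OnePoint
open scoped MatrixGroups ModularForm ComplexConjugate Manifold

noncomputable section

namespace Gouvea.NF

/-- `GL₂(ℚ) → GL₂(ℝ)`. -/
def qR : GL (Fin 2) ℚ →* GL (Fin 2) ℝ := Matrix.GeneralLinearGroup.map (algebraMap ℚ ℝ)

/-- The cusp forms for `Γ₀(N)` as functions. -/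
def Sp (N k : ℕ) : Submodule ℂ (ℍ → ℂ) where
  carrier := Set.range fun f : Cusp N k => (f : ℍ → ℂ)
  add_mem' := by
    rintro _ _ ⟨f, rfl⟩ ⟨g, rfl⟩
    exact ⟨f + g, rfl⟩
  zero_mem' := ⟨0, rfl⟩
  smul_mem' := by
    rintro c _ ⟨f, rfl⟩
    exact ⟨c • f, rfl⟩

lemma mem_Sp {N k : ℕ} {f : ℍ → ℂ} : f ∈ Sp N k ↔ ∃ F : Cusp N k, ⇑F = f := Iff.rfl

lemma coe_mem_Sp {N k : ℕ} (F : Cusp N k) : ⇑F ∈ Sp N k := ⟨F, rfl⟩

/-- `(B_d f)(z) = f(d z)`. -/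
def B (d : ℕ) [NeZero d] : (ℍ → ℂ) →ₗ[ℂ] (ℍ → ℂ) where
  toFun f z := f (tri d 0 1 (by simp [NeZero.ne d]) • z)
  map_add' _ _ := rfl
  map_smul' _ _ := rfl

/-- the slash operator by a matrix, as an additive map -/
def slA (k : ℕ) (g : GL (Fin 2) ℝ) : (ℍ → ℂ) →+ (ℍ → ℂ) where
  toFun f := f ∣[(k : ℤ)] g
  map_zero' := SlashAction.zero_slash _ _
  map_add' _ _ := SlashAction.add_slash _ _ _ _

/-- `U_q = Σ_{b < q} | (1 b; 0 q)`. -/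
def U (k q : ℕ) [NeZero q] (f : ℍ → ℂ) : ℍ → ℂ :=
  ∑ b ∈ Finset.range q, f ∣[(k : ℤ)] tri 1 b q (by simp [NeZero.ne q])

/-- The cuspidal functions of weight `k` for some principal congruence subgroup. -/
def InV (k : ℕ) (f : ℍ → ℂ) : Prop :=
  MDiff f ∧ (∀ c : OnePoint ℝ, IsCusp c 𝒮ℒ → c.IsZeroAt f (k : ℤ)) ∧
    ∃ M : ℕ, 0 < M ∧ ∀ γ ∈ Gamma M, f ∣[(k : ℤ)] (γ : SL(2, ℤ)) = f

/-- A level independent Petersson product. -/
structure IP (k : ℕ) where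
  /-- the product, conjugate linear in the first variable -/
  ip : (ℍ → ℂ) → (ℍ → ℂ) → ℂ
  add_right : ∀ f g h, InV k f → InV k g → InV k h → ip f (g + h) = ip f g + ip f h
  smul_right : ∀ (c : ℂ) f g, InV k f → InV k g → ip f (c • g) = c * ip f g
  symm : ∀ f g, InV k f → InV k g → ip g f = conj (ip f g)
  pos : ∀ f, InV k f → f ≠ 0 → 0 < (ip f f).re
  slash : ∀ a : GL (Fin 2) ℚ, 0 < a.det.val → ∀ f g, InV k f → InV k g →
    ip (f ∣[(k : ℤ)] qR a) (g ∣[(k : ℤ)] qR a) = ((a.det.val : ℚ) : ℂ) ^ ((k : ℤ) - 2) * ip f g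
  pet : ∀ N : ℕ, 0 < N → ∃ c : ℝ, 0 < c ∧ ∀ f g : Cusp N k, pet N k f g = c * ip f g

/-- `l`-old forms of level `N` -/
def lold (l N k : ℕ) [NeZero l] : Submodule ℂ (ℍ → ℂ) :=
  open Classical in if l ∣ N then Sp (N / l) k ⊔ (Sp (N / l) k).map (B l) else ⊥

/-- `f` is `l`-new of level `N` -/
def LNew {k : ℕ} (P : IP k) (l N : ℕ) [NeZero l] (f : ℍ → ℂ) : Prop :=
  f ∈ Sp N k ∧ ∀ h ∈ lold l N k, P.ip h f = 0

/-- `f` is new of level `N`: orthogonal to all `l`-old forms, `l` a prime divisor of `N` -/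
def New {k : ℕ} (P : IP k) (N : ℕ) (f : ℍ → ℂ) : Prop :=
  f ∈ Sp N k ∧ ∀ (l : ℕ) [NeZero l], l.Prime → l ∣ N → ∀ h ∈ lold l N k, P.ip h f = 0

/-- depletion at `q` -/
def dep (k q : ℕ) [NeZero q] (f : ℍ → ℂ) : ℍ → ℂ := f - B q (U k q f)

end Gouvea.NF
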