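import Pool.Agent.Work.MP_d3517d_nt.NF.AdjQ
import Pool.Agent.Work.MP_d3517d_nt.NF.Defs

/-!
# Adjoints of `T_l`, `U_q` for the structure `IP` (closure properties of `InV` as hypotheses)
-/

open UpperHalfPlane ModularForm CongruenceSubgroup
open scoped MatrixGroups ModularForm ComplexConjugate

noncomputable section

namespace Gouvea.NF.Adj

open Gouvea.ES

variable {k : ℕ}

/-- the closure properties of the space of cuspidal functions. -/
structure InVAx (k : ℕ) : Prop where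
  add : ∀ f g : ℍ → ℂ, InV k f → InV k g → InV k (f + g)
  smul : ∀ (c : ℂ) (f : ℍ → ℂ), InV k f → InV k (c • f)
  slash : ∀ a : GL (Fin 2) ℚ, 0 < a.det.val → ∀ f : ℍ → ℂ, InV k f → InV k (f ∣[(k : ℤ)] qR a)
  zero : InV k (0 : ℍ → ℂ)
  mem : ∀ N : ℕ, 0 < N → ∀ f ∈ Sp N k, InV k f

/-- the space -/
def InVAx.V (H : InVAx k) : Submodule ℂ (ℍ → ℂ) where
  carrier := {f | InV k f}
  add_mem' := fun {f g} hf hg => H.add f g hf hg
  zero_mem' := H.zero
  smul_mem' := fun c f hf => H.smul c f hf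

lemma ip_petAx (H : InVAx k) (P : IP k) : PetAx k H.V P.ip where
  mem := fun a ha f hf => H.slash a ha f hf
  add_right := fun f hf g hg h hh => P.add_right f g h hf hg hh
  add_left := by
    intro f hf g hg h hh
    rw [P.symm h (f + g) hh (H.add f g hf hg), P.add_right h f g hh hf hg, map_add,
      ← P.symm h f hh hf, ← P.symm h g hh hg]
  smul_right := fun c f hf g hg => P.smul_right c f g hf hg
  smul_left := by
    intro c f hf g hg
    rw [P.symm g ((c : ℂ) • f) hg (H.smul c f hf), P.smul_right c g f hg hf, map_mul,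
      ← P.symm g f hg hf, Complex.conj_ofReal]
  slash := fun a ha f hf g hg => P.slash a ha f g hf hg

lemma sp_inv {N : ℕ} {f : ℍ → ℂ} (hf : f ∈ Sp N k) :
    ∀ γ ∈ Gamma0 N, f ∣[(k : ℤ)] γ = f := by
  obtain ⟨F, rfl⟩ := hf
  intro γ hγ
  exact SlashInvariantFormClass.slash_action_eq F _ ⟨γ, hγ, rfl⟩

lemma per_of_inv {N : ℕ} (u : ℍ → ℂ) (hu : ∀ γ ∈ Gamma0 N, u ∣[(k : ℤ)] γ = u) (z : ℍ) :
    u ((1 : ℝ) +ᵥ z) = u z := by
  have e := hu ModularGroup.T (Gamma0_mem.mpr (by simp [ModularGroup.T]))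
  have e' := congrFun e z
  rw [SL_slash_apply, ModularGroup.denom_apply] at e'
  rw [UpperHalfPlane.modular_T_smul] at e'
  simpa [ModularGroup.T] using e'

lemma B_eq (q : ℕ) [NeZero q] (g : ℍ → ℂ) (z w : ℍ) (hw : (w : ℂ) = q * z) : B q g z = g w := by
  have hq : (q : ℝ) * 1 ≠ 0 := by simp [NeZero.ne q]
  have hq0 : (0 : ℝ) < (q : ℝ) * 1 := by
    have := NeZero.ne q
    positivity
  change g (tri q 0 1 _ • z) = g w
  congr 1
  apply UpperHalfPlane.ext
  have := coe_tr_smul (b := 0) hq hq0 z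
  rw [← tr_eq_tri hq, this, hw]
  simp

lemma B_eq_slash (q : ℕ) [NeZero q] (g : ℍ → ℂ) :
    B q g = (((q : ℚ) : ℂ) ^ (1 - (k : ℤ))) •
      (g ∣[(k : ℤ)] qR (triQ q 0 1 (by simp [NeZero.ne q]))) := by
  have hq0 : (q : ℂ) ≠ 0 := by exact_mod_cast NeZero.ne q
  have hq : (q : ℝ) * 1 ≠ 0 := by simp [NeZero.ne q]
  have e : qR (triQ q 0 1 (by simp [NeZero.ne q])) = tr q 0 1 hq := by
    apply Units.ext
    change Matrix.map _ (algebraMap ℚ ℝ) = _
    ext i j
    fin_cases i <;> fin_cases j <;>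
      simp [triQ, tr, Matrix.GeneralLinearGroup.mkOfDetNeZero]
  rw [e]
  funext z
  have hqp : (0 : ℝ) < q := by
    have := NeZero.ne q
    positivity
  let w : ℍ := ⟨(q : ℂ) * z, by simpa using mul_pos hqp z.im_pos⟩
  rw [Pi.smul_apply, smul_eq_mul, slash_q k g (NeZero.ne q) hq z w rfl, B_eq q g z w rfl,
    ← mul_assoc]
  push_cast
  rw [← zpow_add₀ hq0]
  simp

theorem ip_U_of (H : InVAx k) (P : IP k) {M N q : ℕ} [NeZero q] (hM : 0 < M) (hN : 0 < N)
    {f g : ℍ → ℂ} (hf : f ∈ Sp M k) (hg : g ∈ Sp N k) :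
    P.ip (U k q f) g = (q : ℂ) ^ k * P.ip f (B q g) := by
  have hB : InV k (B q g) := by
    rw [B_eq_slash (k := k)]
    refine H.smul _ _ (H.slash _ ?_ _ (H.mem N hN g hg))
    rw [Matrix.GeneralLinearGroup.val_det_apply]
    have : (0 : ℚ) < q := by
      have := NeZero.ne q
      positivity
    simpa [triQ, Matrix.GeneralLinearGroup.mkOfDetNeZero, Matrix.det_fin_two] using this
  exact (ip_petAx H P).Ul_adj (H.mem M hM f hf) (H.mem N hN g hg)
    (per_of_inv g (sp_inv hg)) hB (B_eq q g)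

theorem ip_Tl_of (H : InVAx k) (P : IP k) {N l : ℕ} [NeZero l] (hN : 0 < N) (hl : l.Prime)
    (h : ¬ l ∣ N) {f g : ℍ → ℂ} (hf : f ∈ Sp N k) (hg : g ∈ Sp N k) :
    P.ip (Tl k l f) g = P.ip f (Tl k l g) :=
  (ip_petAx H P).Tl_adj ((Nat.Prime.coprime_iff_not_dvd hl).mpr h) (H.mem N hN f hf)
    (H.mem N hN g hg) (sp_inv hf) (sp_inv hg)

end Gouvea.NF.Adj
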