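import Pool.Agent.Work.MP_d3517d_nt.NF.Adj
import Pool.Agent.Work.MP_d3517d_nt.ES.Defs

/-!
# Adjoints of `T_l`, `U_q` for a pairing invariant under `GL₂⁺(ℚ)`
-/

open UpperHalfPlane ModularForm CongruenceSubgroup
open scoped MatrixGroups ModularForm

noncomputable section

namespace Gouvea.NF.Adj

open Gouvea.ES

/-- The image of `GL₂⁺(ℚ)` in `GL₂(ℝ)`. -/
def AQ : Set (GL (Fin 2) ℝ) := {a | ∃ g : GQ, 0 < g.det.val ∧ toR g = a}

lemma coe_toR (g : GQ) : ((toR g : GL (Fin 2) ℝ) : Matrix (Fin 2) (Fin 2) ℝ) =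
    (g : Matrix (Fin 2) (Fin 2) ℚ).map (algebraMap ℚ ℝ) := by
  rfl

lemma det_toR (g : GQ) : ((toR g).det.val : ℝ) = (g.det.val : ℚ) := by
  rw [Matrix.GeneralLinearGroup.val_det_apply, Matrix.GeneralLinearGroup.val_det_apply, coe_toR,
    ← RingHom.mapMatrix_apply, ← RingHom.map_det]
  rfl

lemma tr_eq_tri {a b d : ℝ} (h : a * d ≠ 0) : tr a b d h = tri a b d h := rfl

lemma tr_mem_AQ {a b d : ℚ} (hp : 0 < a * d) (h : (a : ℝ) * d ≠ 0) : tr a b d h ∈ AQ := by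
  refine ⟨triQ a b d hp.ne', ?_, ?_⟩
  · rw [Matrix.GeneralLinearGroup.val_det_apply]
    simpa [triQ, Matrix.GeneralLinearGroup.mkOfDetNeZero, Matrix.det_fin_two] using hp
  · apply Units.ext
    rw [coe_toR]
    ext i j
    fin_cases i <;> fin_cases j <;>
      simp [triQ, tr, Matrix.GeneralLinearGroup.mkOfDetNeZero]

lemma mapGL_mem_AQ (γ : SL(2, ℤ)) : Matrix.SpecialLinearGroup.mapGL ℝ γ ∈ AQ := by
  refine ⟨Matrix.SpecialLinearGroup.mapGL ℚ γ, ?_, ?_⟩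
  · simp
  · apply Units.ext
    rw [coe_toR, Matrix.SpecialLinearGroup.mapGL_coe_matrix,
      Matrix.SpecialLinearGroup.mapGL_coe_matrix]
    ext i j
    simp

lemma good_AQ {q : ℕ} (hq : q ≠ 0) (h : (q : ℝ) * 1 ≠ 0) (h' : (1 : ℝ) * q ≠ 0)
    (h1 : (1 : ℝ) * 1 ≠ 0) : Good AQ q h h' h1 := by
  have hq0 : (0 : ℚ) < q := by positivity
  refine ⟨?_, ?_, fun b => ?_⟩
  · have := tr_mem_AQ (a := q) (b := 0) (d := 1) (by simpa using hq0) (by simpa using h)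
    convert this using 2 <;> simp
  · have := tr_mem_AQ (a := 1) (b := 0) (d := q) (by simpa using hq0) (by simpa using h')
    convert this using 2 <;> simp
  · have := tr_mem_AQ (a := 1) (b := b) (d := 1) (by norm_num) (by norm_num)
    convert this using 2 <;> simp

/-- a pairing with the properties of the (level independent) Petersson product. -/
structure PetAx (k : ℤ) (V : Submodule ℂ (ℍ → ℂ)) (ip : (ℍ → ℂ) → (ℍ → ℂ) → ℂ) : Prop where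
  mem : ∀ a : GQ, 0 < a.det.val → ∀ f ∈ V, f ∣[k] toR a ∈ V
  add_left : ∀ f ∈ V, ∀ g ∈ V, ∀ h ∈ V, ip (f + g) h = ip f h + ip g h
  add_right : ∀ f ∈ V, ∀ g ∈ V, ∀ h ∈ V, ip f (g + h) = ip f g + ip f h
  smul_left : ∀ c : ℝ, ∀ f ∈ V, ∀ g ∈ V, ip ((c : ℂ) • f) g = (c : ℂ) * ip f g
  smul_right : ∀ c : ℝ, ∀ f ∈ V, ∀ g ∈ V, ip f ((c : ℂ) • g) = (c : ℂ) * ip f g
  slash : ∀ a : GQ, 0 < a.det.val → ∀ f ∈ V, ∀ g ∈ V,
    ip (f ∣[k] toR a) (g ∣[k] toR a) = ((a.det.val : ℚ) : ℂ) ^ (k - 2) * ip f g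

variable {k : ℤ} {V : Submodule ℂ (ℍ → ℂ)} {ip : (ℍ → ℂ) → (ℍ → ℂ) → ℂ}

lemma PetAx.isPair (H : PetAx k V ip) : IsPair k V ip AQ where
  mem := by rintro a ⟨g, hg, rfl⟩ f hf; exact H.mem g hg f hf
  add_left := H.add_left
  add_right := H.add_right
  smul_left := H.smul_left
  smul_right := H.smul_right
  slash := by
    rintro a ⟨g, hg, rfl⟩ f hf u hu
    rw [H.slash g hg f hf u hu, det_toR]
    norm_cast

/-- `⟨U_q f, g⟩ = q^k ⟨f, g(q z)⟩`. -/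
theorem PetAx.Ul_adj {k : ℕ} (H : PetAx k V ip) {q : ℕ} [NeZero q] {f g Bg : ℍ → ℂ} (hf : f ∈ V)
    (hg : g ∈ V) (hgp : ∀ z : ℍ, g ((1 : ℝ) +ᵥ z) = g z) (hBg : Bg ∈ V)
    (hB : ∀ z w : ℍ, (w : ℂ) = q * z → Bg z = g w) :
    ip (Ul k q f) g = (q : ℂ) ^ k * ip f Bg := by
  have hq : q ≠ 0 := NeZero.ne q
  have h : (q : ℝ) * 1 ≠ 0 := by simp [hq]
  have h' : (1 : ℝ) * q ≠ 0 := by simp [hq]
  have h1 : (1 : ℝ) * 1 ≠ 0 := by simp
  have e := H.isPair.U_adj hq h h' h1 (good_AQ hq h h' h1) hf hg hgp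
  have e1 : Ul k q f = ∑ b ∈ Finset.range q, f ∣[(k : ℤ)] tr 1 b q h' := by
    rw [Ul]; rfl
  have e2 : g ∣[(k : ℤ)] tr q 0 1 h = ((((q : ℝ) ^ ((k : ℤ) - 1) : ℝ)) : ℂ) • Bg := by
    funext z
    have hq0 : (0 : ℝ) < q := by positivity
    let w : ℍ := ⟨(q : ℂ) * z, by simpa using mul_pos hq0 z.im_pos⟩
    rw [slash_q k g hq h z w rfl, Pi.smul_apply, smul_eq_mul, hB z w rfl]
    push_cast
    rfl
  rw [e1, e, e2, H.smul_right _ f hf _ hBg, ← mul_assoc]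
  congr 1
  have hqc : (q : ℂ) ≠ 0 := by exact_mod_cast hq
  push_cast
  rw [← zpow_one_add₀ hqc]
  norm_num

/-- `T_l` is self-adjoint. -/
theorem PetAx.Tl_adj {k : ℕ} (H : PetAx k V ip) {N l : ℕ} [NeZero l] (hc : Nat.Coprime l N)
    {f g : ℍ → ℂ} (hf : f ∈ V) (hg : g ∈ V)
    (hfN : ∀ γ ∈ Gamma0 N, f ∣[(k : ℤ)] γ = f) (hgN : ∀ γ ∈ Gamma0 N, g ∣[(k : ℤ)] γ = g) :
    ip (Tl k l f) g = ip f (Tl k l g) := by
  have hq : l ≠ 0 := NeZero.ne l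
  have h : (l : ℝ) * 1 ≠ 0 := by simp [hq]
  have h' : (1 : ℝ) * l ≠ 0 := by simp [hq]
  have h1 : (1 : ℝ) * 1 ≠ 0 := by simp
  have per : ∀ u : ℍ → ℂ, (∀ γ ∈ Gamma0 N, u ∣[(k : ℤ)] γ = u) → ∀ z : ℍ,
      u ((1 : ℝ) +ᵥ z) = u z := by
    intro u hu z
    have e := hu ModularGroup.T (Gamma0_mem.mpr (by simp [ModularGroup.T]))
    have e' := congrFun e z
    rw [SL_slash_apply, ModularGroup.denom_apply] at e'
    rw [UpperHalfPlane.modular_T_smul] at e'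
    simpa [ModularGroup.T] using e'
  exact H.isPair.T_adj hq hc h h' h1 (good_AQ hq h h' h1) mapGL_mem_AQ hf hg (per f hfN)
    (per g hgN) hfN hgN

end Gouvea.NF.Adj
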