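import Mathlib

/-!
# The basis theorem for newforms, abstract version

`Data F` lists what is used: spaces `Sp N` of forms of level `N` inside an ambient space `F`,
the maps `B d` (`f(z) ↦ f(dz)`), the Hecke operators `T l`, the coefficients, a positive definite
form, and the two multiplicity one statements `mult`, `mult2`.
-/

open Submodule Finset

namespace Gouvea.NF

/-- Data for the basis theorem. -/
structure Data (F : Type*) [AddCommGroup F] [Module ℂ F] where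
  Sp : ℕ → Submodule ℂ F
  B : ℕ → F →ₗ[ℂ] F
  T : ℕ → F →ₗ[ℂ] F
  coef : F → ℕ → ℂ
  ip : F → F → ℂ
  k : ℕ
  fin : ∀ N, N ≠ 0 → FiniteDimensional ℂ (Sp N)
  mono : ∀ M N, N ≠ 0 → M ∣ N → Sp M ≤ Sp N
  B_one : ∀ f, B 1 f = f
  B_mul : ∀ d e f, d ≠ 0 → e ≠ 0 → B d (B e f) = B (d * e) f
  B_mem : ∀ M d f, M ≠ 0 → d ≠ 0 → f ∈ Sp M → B d f ∈ Sp (M * d)
  T_mem : ∀ N l f, N ≠ 0 → l.Prime → ¬ l ∣ N → f ∈ Sp N → T l f ∈ Sp N
  T_comm : ∀ N l l' f, N ≠ 0 → l.Prime → ¬ l ∣ N → l'.Prime → ¬ l' ∣ N → f ∈ Sp N →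
    T l (T l' f) = T l' (T l f)
  T_B : ∀ N l d f, N ≠ 0 → d ≠ 0 → l.Prime → ¬ l ∣ N → ¬ l ∣ d → f ∈ Sp N →
    T l (B d f) = B d (T l f)
  coef_add : ∀ N f g n, N ≠ 0 → f ∈ Sp N → g ∈ Sp N → coef (f + g) n = coef f n + coef g n
  coef_smul : ∀ N (c : ℂ) f n, N ≠ 0 → f ∈ Sp N → coef (c • f) n = c * coef f n
  coef_zero : ∀ N f, N ≠ 0 → f ∈ Sp N → coef f 0 = 0
  coef_ext : ∀ N f, N ≠ 0 → f ∈ Sp N → (∀ n, coef f n = 0) → f = 0
  coef_B : ∀ N d f n, N ≠ 0 → d ≠ 0 → f ∈ Sp N →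
    coef (B d f) n = if d ∣ n then coef f (n / d) else 0
  coef_T : ∀ N l f n, N ≠ 0 → l.Prime → ¬ l ∣ N → f ∈ Sp N →
    coef (T l f) n = coef f (l * n) + (if l ∣ n then (l : ℂ) ^ (k - 1) * coef f (n / l) else 0)
  ip_add : ∀ N f g h, N ≠ 0 → f ∈ Sp N → g ∈ Sp N → h ∈ Sp N → ip f (g + h) = ip f g + ip f h
  ip_smul : ∀ N (c : ℂ) f g, N ≠ 0 → f ∈ Sp N → g ∈ Sp N → ip f (c • g) = c * ip f g
  ip_conj : ∀ N f g, N ≠ 0 → f ∈ Sp N → g ∈ Sp N → ip g f = (starRingEnd ℂ) (ip f g)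
  ip_def : ∀ N f, N ≠ 0 → f ∈ Sp N → ip f f = 0 → f = 0
  ip_T : ∀ N l f g, N ≠ 0 → l.Prime → ¬ l ∣ N → f ∈ Sp N → g ∈ Sp N →
    ip (T l f) g = ip f (T l g)

namespace Data

variable {F : Type*} [AddCommGroup F] [Module ℂ F] (D : Data F)

/-- the old forms of level `N` -/
def old (N : ℕ) : Submodule ℂ F :=
  ⨆ (l : ℕ) (_ : l.Prime) (_ : l ∣ N), (D.Sp (N / l) ⊔ (D.Sp (N / l)).map (D.B l))

theorem old_le {N : ℕ} (hN : N ≠ 0) : D.old N ≤ D.Sp N := by
  refine iSup_le fun l => iSup_le fun hl => iSup_le fun hlN => ?_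
  have h0 : N / l ≠ 0 := (Nat.div_pos (Nat.le_of_dvd (Nat.pos_of_ne_zero hN) hlN) hl.pos).ne'
  refine sup_le (D.mono _ _ hN (Nat.div_dvd_of_dvd hlN)) ?_
  rintro _ ⟨f, hf, rfl⟩
  have := D.B_mem (N / l) l f h0 hl.ne_zero hf
  rwa [Nat.div_mul_cancel hlN] at this

/-- the orthogonal complement of the old forms -/
def new (N : ℕ) : Set F := {f | f ∈ D.Sp N ∧ ∀ g ∈ D.old N, D.ip f g = 0}

/-- newforms of level `N` -/
structure IsNF (N : ℕ) (f : F) : Prop where
  mem : f ∈ D.Sp N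
  orth : ∀ g ∈ D.old N, D.ip f g = 0
  norm : D.coef f 1 = 1
  eig : ∀ l, l.Prime → ¬ l ∣ N → ∃ a : ℂ, D.T l f = a • f

/-- the two multiplicity one statements -/
structure Mult : Prop where
  mult : ∀ N D' f, N ≠ 0 → D' ≠ 0 → f ∈ D.Sp N → (∀ g ∈ D.old N, D.ip f g = 0) →
    (∀ n, n.Coprime D' → D.coef f n = 0) → f = 0
  mult2 : ∀ M₁ M₂ D' f₁ f₂, M₁ ≠ 0 → M₂ ≠ 0 → D' ≠ 0 → f₁ ∈ D.Sp M₁ → f₂ ∈ D.Sp M₂ →
    (∀ g ∈ D.old M₁, D.ip f₁ g = 0) → (∀ g ∈ D.old M₂, D.ip f₂ g = 0) →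
    (∀ n, n.Coprime D' → D.coef f₁ n = D.coef f₂ n) → D.coef f₂ 1 ≠ 0 → M₂ ∣ M₁

variable {D}

theorem IsNF.ne_zero {N : ℕ} {f : F} (hN : N ≠ 0) (h : D.IsNF N f) : f ≠ 0 := by
  rintro rfl
  have h1 := h.norm
  have h2 := D.coef_smul N 0 0 1 hN h.mem
  rw [zero_smul, zero_mul] at h2
  rw [h2] at h1
  exact zero_ne_one h1

theorem IsNF.eig' {N l : ℕ} {f : F} (hN : N ≠ 0) (h : D.IsNF N f) (hl : l.Prime) (hlN : ¬ l ∣ N) :
    D.T l f = D.coef f l • f := by
  obtain ⟨a, ha⟩ := h.eig l hl hlN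
  have h1 := D.coef_T N l f 1 hN hl hlN h.mem
  rw [ha, D.coef_smul N a f 1 hN h.mem, h.norm, mul_one, mul_one,
    if_neg (fun h => hl.one_lt.ne' (Nat.dvd_one.mp h)), add_zero] at h1
  rw [ha, h1]

theorem IsNF.eigB {M N l d : ℕ} {f : F} (hN : N ≠ 0) (h : D.IsNF M f) (hMd : M * d ∣ N)
    (hl : l.Prime) (hlN : ¬ l ∣ N) : D.T l (D.B d f) = D.coef f l • D.B d f := by
  have hd : d ≠ 0 := by
    rintro rfl
    exact hN (by simpa using hMd)
  have hM : M ≠ 0 := by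
    rintro rfl
    exact hN (by simpa using hMd)
  have hlM : ¬ l ∣ M := fun h' => hlN ((h'.trans (Dvd.intro _ rfl)).trans hMd)
  have hld : ¬ l ∣ d := fun h' => hlN ((h'.trans (Dvd.intro_left _ rfl)).trans hMd)
  rw [D.T_B M l d f hM hd hl hlM hld h.mem, h.eig' hM hl hlM, map_smul]

theorem IsNF.memB {M N d : ℕ} {f : F} (hN : N ≠ 0) (h : D.IsNF M f) (hMd : M * d ∣ N) :
    D.B d f ∈ D.Sp N := by
  have hd : d ≠ 0 := by
    rintro rfl
    exact hN (by simpa using hMd)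
  have hM : M ≠ 0 := by
    rintro rfl
    exact hN (by simpa using hMd)
  exact D.mono _ _ hN hMd (D.B_mem M d f hM hd h.mem)

/-- If an eigenvector of all `T l`, `l` not dividing `D'`, has first coefficient zero, then all
coefficients prime to `D'` vanish; more generally the coefficients prime to `D'` are determined by
the eigenvalues and the first coefficient. -/
theorem coef_det {N₁ N₂ D' : ℕ} {f g : F} (h1 : N₁ ≠ 0) (h2 : N₂ ≠ 0) (hf : f ∈ D.Sp N₁)
    (hg : g ∈ D.Sp N₂) (hD1 : N₁ ∣ D') (hD2 : N₂ ∣ D')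
    (lam : ℕ → ℂ) (hlf : ∀ l, l.Prime → ¬ l ∣ D' → D.T l f = lam l • f)
    (hlg : ∀ l, l.Prime → ¬ l ∣ D' → D.T l g = lam l • g) (h : D.coef f 1 = D.coef g 1) :
    ∀ n, n.Coprime D' → D.coef f n = D.coef g n := by
  intro n
  induction n using Nat.strong_induction_on with
  | _ n ih =>
    intro hn
    rcases Nat.eq_zero_or_pos n with rfl | hn0
    · rw [D.coef_zero _ f h1 hf, D.coef_zero _ g h2 hg]
    rcases Nat.lt_or_ge n 2 with hn1 | hn1
    · have : n = 1 := by omega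
      subst this
      exact h
    · obtain ⟨l, hl, m, rfl⟩ := Nat.exists_prime_and_dvd (show n ≠ 1 by omega)
      have hlD : ¬ l ∣ D' := fun hh => by
        have := Nat.dvd_gcd (Dvd.intro m rfl) hh
        rw [hn] at this
        exact hl.one_lt.ne' (Nat.dvd_one.mp this)
      have hm0 : 0 < m := Nat.pos_of_ne_zero (by rintro rfl; simp at hn0)
      have hml : m < l * m := by nlinarith [hl.two_le]
      have hmc : m.Coprime D' := Nat.Coprime.coprime_mul_left hn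
      have e1 := D.coef_T N₁ l f m h1 hl (fun hh => hlD (hh.trans hD1)) hf
      have e2 := D.coef_T N₂ l g m h2 hl (fun hh => hlD (hh.trans hD2)) hg
      rw [hlf l hl hlD, D.coef_smul N₁ _ f m h1 hf] at e1
      rw [hlg l hl hlD, D.coef_smul N₂ _ g m h2 hg] at e2
      have e3 : (if l ∣ m then (l : ℂ) ^ (D.k - 1) * D.coef f (m / l) else 0)
          = (if l ∣ m then (l : ℂ) ^ (D.k - 1) * D.coef g (m / l) else 0) := by
        split_ifs with hlm
        · rw [ih (m / l) (lt_of_le_of_lt (Nat.div_le_self _ _) hml)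
            (Nat.Coprime.coprime_dvd_left (Nat.div_dvd_of_dvd hlm) hmc)]
        · rfl
      have e4 := ih m hml hmc
      rw [e3] at e1
      rw [e4] at e1
      linear_combination e2 - e1

/-- Strong multiplicity one. -/
theorem IsNF.unique (hm : D.Mult) {M₁ M₂ N : ℕ} {f₁ f₂ : F} (hN : N ≠ 0) (h1 : D.IsNF M₁ f₁)
    (h2 : D.IsNF M₂ f₂) (hM1 : M₁ ∣ N) (hM2 : M₂ ∣ N)
    (h : ∀ l, l.Prime → ¬ l ∣ N → D.coef f₁ l = D.coef f₂ l) : M₁ = M₂ ∧ f₁ = f₂ := by
  have hM1' : M₁ ≠ 0 := fun h0 => hN (by rw [h0] at hM1; exact Nat.eq_zero_of_zero_dvd hM1)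
  have hM2' : M₂ ≠ 0 := fun h0 => hN (by rw [h0] at hM2; exact Nat.eq_zero_of_zero_dvd hM2)
  have hc := coef_det hM1' hM2' h1.mem h2.mem hM1 hM2 (fun l => D.coef f₁ l)
    (fun l hl hlN => h1.eig' hM1' hl (fun hh => hlN (hh.trans hM1)))
    (fun l hl hlN => by
      rw [h l hl hlN]
      exact h2.eig' hM2' hl (fun hh => hlN (hh.trans hM2)))
    (by rw [h1.norm, h2.norm])
  have a1 := hm.mult2 M₁ M₂ N f₁ f₂ hM1' hM2' hN h1.mem h2.mem h1.orth h2.orth hc
    (by rw [h2.norm]; exact one_ne_zero)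
  have a2 := hm.mult2 M₂ M₁ N f₂ f₁ hM2' hM1' hN h2.mem h1.mem h2.orth h1.orth
    (fun n hn => (hc n hn).symm) (by rw [h1.norm]; exact one_ne_zero)
  have hM : M₁ = M₂ := Nat.dvd_antisymm a2 a1
  subst hM
  refine ⟨rfl, ?_⟩
  have hneg : (-1 : ℂ) • f₂ ∈ D.Sp M₁ := (D.Sp M₁).smul_mem _ h2.mem
  have hz : f₁ + (-1 : ℂ) • f₂ = 0 := by
    refine hm.mult M₁ N _ hM1' hN ((D.Sp M₁).add_mem h1.mem hneg) ?_ ?_
    · intro g hg
      have hgS := D.old_le hM1' hg
      have c1 := h1.orth g hg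
      have c2 := h2.orth g hg
      rw [D.ip_conj M₁ g _ hM1' hgS ((D.Sp M₁).add_mem h1.mem hneg),
        D.ip_add M₁ g f₁ _ hM1' hgS h1.mem hneg, D.ip_smul M₁ _ g f₂ hM1' hgS h2.mem,
        D.ip_conj M₁ f₁ g hM1' h1.mem hgS, D.ip_conj M₁ f₂ g hM1' h2.mem hgS, c1, c2]
      simp
    · intro n hn
      rw [D.coef_add M₁ _ _ n hM1' h1.mem hneg, D.coef_smul M₁ _ f₂ n hM1' h2.mem, hc n hn]
      ring
  have : f₁ - f₂ = 0 := by
    rw [← hz]
    simp [sub_eq_add_neg]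
  exact sub_eq_zero.mp this

/-- A normalised Hecke relation: eigenvectors in the new space have nonzero first coefficient. -/
theorem coef_one_ne (hm : D.Mult) {N : ℕ} {f : F} (hN : N ≠ 0) (hf : f ∈ D.Sp N)
    (ho : ∀ g ∈ D.old N, D.ip f g = 0) (he : ∀ l, l.Prime → ¬ l ∣ N → ∃ a : ℂ, D.T l f = a • f)
    (hne : f ≠ 0) : D.coef f 1 ≠ 0 := by
  intro h1
  apply hne
  choose! lam hlam using he
  have h0 : (0 : F) ∈ D.Sp N := (D.Sp N).zero_mem
  have hc0 : ∀ n, D.coef (0 : F) n = 0 := fun n => by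
    have := D.coef_smul N 0 0 n hN h0
    rwa [zero_smul, zero_mul] at this
  refine hm.mult N N f hN hN hf ho fun n hn => ?_
  rw [coef_det (D := D) hN hN hf h0 dvd_rfl dvd_rfl lam (fun l hl hlN => hlam l hl hlN)
    (fun l _ _ => by simp) (by rw [h1, hc0]) n hn, hc0]

/-- The orthogonal decomposition. -/
theorem exists_decomp {N : ℕ} (hN : N ≠ 0) {f : F} (hf : f ∈ D.Sp N) :
    ∃ w ∈ D.old N, ∀ g ∈ D.old N, D.ip (f - w) g = 0 := by
  have := D.fin N hN
  have hle := D.old_le hN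
  have hfd : FiniteDimensional ℂ (D.old N) := Submodule.finiteDimensional_of_le hle
  set b := Module.finBasis ℂ (D.old N) with hb
  have hbm : ∀ i, ((b i : D.old N) : F) ∈ D.Sp N := fun i => hle (b i).2
  let L : D.Sp N →ₗ[ℂ] (Fin (Module.finrank ℂ (D.old N)) → ℂ) :=
    { toFun := fun w i => D.ip (b i : F) w
      map_add' := fun x y => by
        funext i
        exact D.ip_add N _ _ _ hN (hbm i) x.2 y.2
      map_smul' := fun c x => by
        funext i
        exact D.ip_smul N c _ _ hN (hbm i) x.2 }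
  let L' : D.old N →ₗ[ℂ] (Fin (Module.finrank ℂ (D.old N)) → ℂ) := L ∘ₗ Submodule.inclusion hle
  have key : ∀ w ∈ D.Sp N, (∀ i, D.ip (b i : F) w = 0) → ∀ g ∈ D.old N, D.ip w g = 0 := by
    intro w hw h g hg
    have hg' : g ∈ Submodule.span ℂ (Set.range fun i => ((b i : D.old N) : F)) := by
      have h1 := b.mem_span ⟨g, hg⟩
      have h2 := Submodule.mem_map_of_mem (f := (D.old N).subtype) h1
      rw [Submodule.map_span, ← Set.range_comp] at h2
      exact h2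
    induction hg' using Submodule.span_induction with
    | mem x hx =>
      obtain ⟨i, rfl⟩ := hx
      rw [D.ip_conj N (b i : F) w hN (hbm i) hw, h i, map_zero]
    | zero =>
      have := D.ip_smul N 0 w 0 hN hw (D.Sp N).zero_mem
      rwa [zero_smul, zero_mul] at this
    | add x y hx hy ihx ihy =>
      have hx' : x ∈ D.old N := by
        have : Submodule.span ℂ (Set.range fun i => ((b i : D.old N) : F)) ≤ D.old N := by
          rw [Submodule.span_le]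
          rintro _ ⟨i, rfl⟩
          exact (b i).2
        exact this hx
      have hy' : y ∈ D.old N := by
        have : Submodule.span ℂ (Set.range fun i => ((b i : D.old N) : F)) ≤ D.old N := by
          rw [Submodule.span_le]
          rintro _ ⟨i, rfl⟩
          exact (b i).2
        exact this hy
      rw [D.ip_add N w x y hN hw (hle hx') (hle hy'), ihx hx', ihy hy', add_zero]
    | smul c x hx ihx =>
      have hx' : x ∈ D.old N := by
        have : Submodule.span ℂ (Set.range fun i => ((b i : D.old N) : F)) ≤ D.old N := by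
          rw [Submodule.span_le]
          rintro _ ⟨i, rfl⟩
          exact (b i).2
        exact this hx
      rw [D.ip_smul N c w x hN hw (hle hx'), ihx hx', mul_zero]
  have hinj : Function.Injective L' := by
    rw [← LinearMap.ker_eq_bot, LinearMap.ker_eq_bot']
    intro w hw
    have h1 : ∀ i, D.ip (b i : F) w = 0 := fun i => congrFun hw i
    have h2 := key w (hle w.2) h1 w w.2
    exact Subtype.ext (D.ip_def N _ hN (hle w.2) h2)
  have hsurj : Function.Surjective L' := by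
    refine (LinearMap.injective_iff_surjective_of_finrank_eq_finrank ?_).mp hinj
    simp
  obtain ⟨w, hw⟩ := hsurj (L ⟨f, hf⟩)
  refine ⟨w, w.2, ?_⟩
  have hwS : (w : F) ∈ D.Sp N := hle w.2
  refine key (f - w) ((D.Sp N).sub_mem hf hwS) fun i => ?_
  have h3 : D.ip (b i : F) w = D.ip (b i : F) f := congrFun hw i
  have h4 : D.ip (b i : F) (f + (-1 : ℂ) • (w : F)) = 0 := by
    rw [D.ip_add N _ _ _ hN (hbm i) hf ((D.Sp N).smul_mem _ hwS),
      D.ip_smul N _ _ _ hN (hbm i) hwS, h3]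
    ring
  rwa [neg_one_smul, ← sub_eq_add_neg] at h4

/-- the spectral theorem for the new space, as a hypothesis -/
def Spec (D : Data F) : Prop := ∀ N, N ≠ 0 → ∀ f ∈ D.Sp N, (∀ g ∈ D.old N, D.ip f g = 0) →
  f ∈ span ℂ {g | g ∈ D.Sp N ∧ (∀ h ∈ D.old N, D.ip g h = 0) ∧
    ∀ l, l.Prime → ¬ l ∣ N → ∃ a : ℂ, D.T l g = a • g}

/-- The new space is spanned by newforms. -/
theorem new_span (hm : D.Mult) (hs : Spec D) {N : ℕ} (hN : N ≠ 0) {f : F} (hf : f ∈ D.Sp N)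
    (ho : ∀ g ∈ D.old N, D.ip f g = 0) : f ∈ span ℂ {g | D.IsNF N g} := by
  refine (Submodule.span_le.mpr ?_) (hs N hN f hf ho)
  rintro g ⟨hg, hgo, hge⟩
  by_cases h0 : g = 0
  · rw [h0]
    exact Submodule.zero_mem _
  · have h1 := coef_one_ne hm hN hg hgo hge h0
    have h2 : D.IsNF N ((D.coef g 1)⁻¹ • g) := by
      refine ⟨(D.Sp N).smul_mem _ hg, ?_, ?_, ?_⟩
      · intro h hh
        have hhS := D.old_le hN hh
        have h3 := hgo h hh
        rw [D.ip_conj N h _ hN hhS ((D.Sp N).smul_mem _ hg), D.ip_smul N _ h g hN hhS hg,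
          D.ip_conj N g h hN hg hhS, h3]
        simp
      · rw [D.coef_smul N _ g 1 hN hg, inv_mul_cancel₀ h1]
      · intro l hl hlN
        obtain ⟨a, ha⟩ := hge l hl hlN
        exact ⟨a, by rw [map_smul, ha, smul_comm]⟩
    have h3 : g = D.coef g 1 • ((D.coef g 1)⁻¹ • g) := by
      rw [smul_smul, mul_inv_cancel₀ h1, one_smul]
    rw [h3]
    exact Submodule.smul_mem _ _ (Submodule.subset_span h2)

/-- The index set of the basis. -/
def Idx (D : Data F) (N : ℕ) : Set (ℕ × F × ℕ) := {x | D.IsNF x.1 x.2.1 ∧ x.1 * x.2.2 ∣ N}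

/-- The forms `f(dz)` span. -/
theorem span_top (hm : D.Mult) (hs : Spec D) : ∀ N : ℕ, N ≠ 0 →
    D.Sp N ≤ span ℂ (Set.range fun i : Idx D N => D.B i.1.2.2 i.1.2.1) := by
  intro N
  induction N using Nat.strong_induction_on with
  | _ N ih =>
    intro hN f hf
    obtain ⟨w, hw, ho⟩ := exists_decomp hN hf
    have hwS := D.old_le hN hw
    have h1 : f - w ∈ span ℂ (Set.range fun i : Idx D N => D.B i.1.2.2 i.1.2.1) := by
      refine (Submodule.span_le.mpr ?_) (new_span hm hs hN ((D.Sp N).sub_mem hf hwS) ho)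
      intro g hg
      exact Submodule.subset_span ⟨⟨(N, g, 1), hg, by simp⟩, D.B_one g⟩
    have h2 : D.old N ≤ span ℂ (Set.range fun i : Idx D N => D.B i.1.2.2 i.1.2.1) := by
      refine iSup_le fun l => iSup_le fun hl => iSup_le fun hlN => ?_
      have h0 : N / l ≠ 0 :=
        (Nat.div_pos (Nat.le_of_dvd (Nat.pos_of_ne_zero hN) hlN) hl.pos).ne'
      have hlt : N / l < N := Nat.div_lt_self (Nat.pos_of_ne_zero hN) hl.one_lt
      have ih' := ih (N / l) hlt h0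
      refine sup_le (ih'.trans (Submodule.span_le.mpr ?_)) ?_
      · rintro _ ⟨⟨⟨M, g, d⟩, hg, hd⟩, rfl⟩
        exact Submodule.subset_span ⟨⟨(M, g, d), hg, hd.trans (Nat.div_dvd_of_dvd hlN)⟩, rfl⟩
      · refine (Submodule.map_mono ih').trans ?_
        rw [Submodule.map_span, Submodule.span_le]
        rintro _ ⟨_, ⟨⟨⟨M, g, d⟩, hg, hd⟩, rfl⟩, rfl⟩
        have hd0 : d ≠ 0 := by
          rintro rfl
          exact h0 (by simpa using hd)
        refine Submodule.subset_span ⟨⟨(M, g, l * d), hg, ?_⟩, ?_⟩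
        · have h3 := Nat.mul_dvd_mul_left l hd
          rw [Nat.mul_div_cancel' hlN] at h3
          have h4 : M * (l * d) = l * (M * d) := by ring
          rw [h4]
          exact h3
        · exact (D.B_mul l d g hl.ne_zero hd0).symm
    have h3 : f = (f - w) + w := by abel
    rw [h3]
    exact Submodule.add_mem _ h1 (h2 hw)

/-- Separating operators. -/
theorem exists_proj (hm : D.Mult) {N : ℕ} (hN : N ≠ 0) (M₀ : ℕ) (f₀ : F) (hf₀ : D.IsNF M₀ f₀)
    (hM₀ : M₀ ∣ N) (S : Finset (ℕ × F)) (hS : ∀ x ∈ S, D.IsNF x.1 x.2 ∧ x.1 ∣ N)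
    (h0 : (M₀, f₀) ∉ S) :
    ∃ (P : F →ₗ[ℂ] F) (s : ℕ × F → ℂ),
      (∀ M g d, D.IsNF M g → M * d ∣ N → P (D.B d g) = s (M, g) • D.B d g) ∧
      s (M₀, f₀) ≠ 0 ∧ ∀ x ∈ S, s x = 0 := by
  classical
  induction S using Finset.induction_on with
  | empty =>
    exact ⟨LinearMap.id, fun _ => 1, fun M g d _ _ => by simp, one_ne_zero, by simp⟩
  | insert x S hx ih =>
    have hxN := hS x (Finset.mem_insert_self x S)
    obtain ⟨P, s, h1, h2, h3⟩ := ih (fun y hy => hS y (Finset.mem_insert_of_mem hy))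
      (fun h => h0 (Finset.mem_insert_of_mem h))
    have hne : (M₀, f₀) ≠ x := fun h => h0 (h ▸ Finset.mem_insert_self x S)
    obtain ⟨l, hl, hlN, hll⟩ : ∃ l, l.Prime ∧ ¬ l ∣ N ∧ D.coef f₀ l ≠ D.coef x.2 l := by
      by_contra hcon
      push Not at hcon
      have := IsNF.unique hm hN hf₀ hxN.1 hM₀ hxN.2 hcon
      exact hne (Prod.ext this.1 this.2)
    refine ⟨(D.T l - D.coef x.2 l • LinearMap.id) ∘ₗ P,
      fun y => (D.coef y.2 l - D.coef x.2 l) * s y, ?_, ?_, ?_⟩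
    · intro M g d hg hd
      simp only [LinearMap.comp_apply, h1 M g d hg hd, map_smul, LinearMap.sub_apply,
        LinearMap.smul_apply, LinearMap.id_apply, hg.eigB hN hd hl hlN]
      rw [← sub_smul, smul_smul, mul_comm]
    · exact mul_ne_zero (sub_ne_zero.mpr hll) h2
    · intro y hy
      rcases Finset.mem_insert.mp hy with rfl | hy
      · simp
      · simp [h3 y hy]

/-- Linear independence of the forms `f(dz)`. -/
theorem lin_indep (hm : D.Mult) {N : ℕ} (hN : N ≠ 0) :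
    LinearIndependent ℂ (fun i : Idx D N => D.B i.1.2.2 i.1.2.1) := by
  classical
  rw [linearIndependent_iff']
  intro s c hc
  by_contra hcon
  push Not at hcon
  obtain ⟨i₀, hi₀, hc₀⟩ := hcon
  obtain ⟨⟨M₀, f₀, d₀⟩, hf₀, hd₀⟩ := i₀
  have hM₀ : M₀ ∣ N := (Dvd.intro _ rfl).trans hd₀
  have hM₀0 : M₀ ≠ 0 := fun h0 => hN (by rw [h0] at hM₀; exact Nat.eq_zero_of_zero_dvd hM₀)
  let S : Finset (ℕ × F) := (s.image fun i => (i.1.1, i.1.2.1)).erase (M₀, f₀)
  obtain ⟨P, σ, h1, h2, h3⟩ := exists_proj hm hN M₀ f₀ hf₀ hM₀ S (by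
    intro x hx
    obtain ⟨i, _, rfl⟩ := Finset.mem_image.mp (Finset.mem_of_mem_erase hx)
    exact ⟨i.2.1, (Dvd.intro _ rfl).trans i.2.2⟩) (Finset.notMem_erase _ _)
  -- the relation for the fixed newform
  have h4 : ∑ i ∈ s.filter (fun i => (i.1.1, i.1.2.1) = (M₀, f₀)), c i • D.B i.1.2.2 f₀ = 0 := by
    have h5 := congrArg P hc
    rw [map_sum, map_zero] at h5
    have h6 : ∀ i ∈ s, P (c i • D.B i.1.2.2 i.1.2.1)
        = if (i.1.1, i.1.2.1) = (M₀, f₀) then σ (M₀, f₀) • (c i • D.B i.1.2.2 f₀) else 0 := by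
      intro i hi
      rw [map_smul, h1 i.1.1 i.1.2.1 i.1.2.2 i.2.1 i.2.2]
      split_ifs with hif
      · have : i.1.2.1 = f₀ := (Prod.ext_iff.mp hif).2
        rw [hif, this, smul_comm]
      · have : σ (i.1.1, i.1.2.1) = 0 :=
          h3 _ (Finset.mem_erase.mpr ⟨hif, Finset.mem_image_of_mem _ hi⟩)
        rw [this, zero_smul, smul_zero]
    rw [Finset.sum_congr rfl h6, ← Finset.sum_filter, ← Finset.smul_sum] at h5
    exact (smul_eq_zero.mp h5).resolve_left h2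
  -- take the smallest d with nonzero coefficient
  have hex : ∃ d, ∃ i ∈ s, c i ≠ 0 ∧ i.1 = (M₀, f₀, d) := ⟨d₀, _, hi₀, hc₀, rfl⟩
  obtain ⟨i₁, hi₁, hc₁, he₁⟩ := Nat.find_spec hex
  set d₁ := Nat.find hex with hd₁
  have hmin : ∀ i ∈ s, c i ≠ 0 → i.1.1 = M₀ → i.1.2.1 = f₀ → d₁ ≤ i.1.2.2 := by
    intro i hi hci h7 h8
    exact Nat.find_min' hex ⟨i, hi, hci, by rw [← h7, ← h8]⟩
  have hd₁0 : d₁ ≠ 0 := by
    intro h
    have := i₁.2.2
    rw [he₁] at this
    simp only [h, mul_zero] at this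
    exact hN (Nat.eq_zero_of_zero_dvd this)
  have hdd : ∀ i : Idx D N, i.1.2.2 ≠ 0 := fun i h => by
    have := i.2.2
    rw [h, mul_zero] at this
    exact hN (Nat.eq_zero_of_zero_dvd this)
  -- coefficient d₁
  have hcsum : ∀ t : Finset (Idx D N), (∀ i ∈ t, (i.1.1, i.1.2.1) = (M₀, f₀)) →
      D.coef (∑ i ∈ t, c i • D.B i.1.2.2 f₀) d₁ = ∑ i ∈ t, c i * D.coef (D.B i.1.2.2 f₀) d₁ ∧
      (∑ i ∈ t, c i • D.B i.1.2.2 f₀) ∈ D.Sp N := by
    intro t
    induction t using Finset.induction_on with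
    | empty =>
      intro _
      refine ⟨?_, by simp⟩
      have := D.coef_smul N 0 0 d₁ hN (D.Sp N).zero_mem
      rw [zero_smul, zero_mul] at this
      simpa using this
    | insert j t hj ih =>
      intro ht
      obtain ⟨e1, e2⟩ := ih (fun i hi => ht i (Finset.mem_insert_of_mem hi))
      have e3 : D.B j.1.2.2 f₀ ∈ D.Sp N := by
        have h9 := ht j (Finset.mem_insert_self j t)
        have := IsNF.memB hN j.2.1 j.2.2
        have h10 : j.1.2.1 = f₀ := (Prod.ext_iff.mp h9).2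
        rwa [h10] at this
      rw [Finset.sum_insert hj, Finset.sum_insert hj]
      refine ⟨?_, (D.Sp N).add_mem ((D.Sp N).smul_mem _ e3) e2⟩
      rw [D.coef_add N _ _ d₁ hN ((D.Sp N).smul_mem _ e3) e2, D.coef_smul N _ _ d₁ hN e3, e1]
  have h5 := (hcsum (s.filter (fun i => (i.1.1, i.1.2.1) = (M₀, f₀)))
    (fun i hi => (Finset.mem_filter.mp hi).2)).1
  rw [h4] at h5
  have h6 : D.coef (0 : F) d₁ = 0 := by
    have := D.coef_smul N 0 0 d₁ hN (D.Sp N).zero_mem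
    rwa [zero_smul, zero_mul] at this
  rw [h6] at h5
  have hi₁f : i₁ ∈ s.filter (fun i => (i.1.1, i.1.2.1) = (M₀, f₀)) := by
    refine Finset.mem_filter.mpr ⟨hi₁, ?_⟩
    rw [he₁]
  rw [Finset.sum_eq_single_of_mem i₁ hi₁f] at h5
  · rw [he₁] at h5
    simp only at h5
    rw [D.coef_B M₀ d₁ f₀ d₁ hM₀0 hd₁0 hf₀.mem, if_pos dvd_rfl,
      Nat.div_self (Nat.pos_of_ne_zero hd₁0), hf₀.norm, mul_one] at h5
    exact hc₁ h5.symm
  · intro i hi hne
    obtain ⟨his, hif⟩ := Finset.mem_filter.mp hi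
    have h7 : i.1.1 = M₀ := (Prod.ext_iff.mp hif).1
    have h8 : i.1.2.1 = f₀ := (Prod.ext_iff.mp hif).2
    by_cases hci : c i = 0
    · rw [hci, zero_mul]
    · have h9 := hmin i his hci h7 h8
      rw [D.coef_B M₀ i.1.2.2 f₀ d₁ hM₀0 (hdd i) hf₀.mem]
      split_ifs with hdv
      · have h10 : i.1.2.2 ≤ d₁ := Nat.le_of_dvd (Nat.pos_of_ne_zero hd₁0) hdv
        exfalso
        apply hne
        apply Subtype.ext
        rw [he₁]
        refine Prod.ext h7 (Prod.ext h8 ?_)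
        simp only
        omega
      · rw [mul_zero]

end Data

end Gouvea.NF
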