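import Pool.Agent.Work.MP_d3517d_nt.NF.DecAbs

/-!
# Counting newforms (abstract version)

`cnt N P` is the number of newforms of level `N` with the property `P`, `tot N P` the number of
basis vectors `f(dz)` of the space of level `N` with `P f`. Then `tot = σ₀ * cnt` and
`cnt = μ * μ * tot`.
-/

open Submodule

namespace Gouvea.NF.Data

variable {F : Type*} [AddCommGroup F] [Module ℂ F] (D : Data F)

/-- number of newforms of level `N` with property `P` -/
noncomputable def cnt (N : ℕ) (P : F → Prop) : ℕ := Set.ncard {f | D.IsNF N f ∧ P f}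

/-- number of basis vectors of level `N` with property `P` -/
noncomputable def tot (N : ℕ) (P : F → Prop) : ℕ :=
  Set.ncard {x : ℕ × F × ℕ | x ∈ Idx D N ∧ P x.2.1}

variable {D}

/-- the basis vectors inside `Sp N` -/
def vec {N : ℕ} (hN : N ≠ 0) (i : Idx D N) : D.Sp N :=
  ⟨D.B i.1.2.2 i.1.2.1, IsNF.memB hN i.2.1 i.2.2⟩

theorem vec_indep (hm : D.Mult) {N : ℕ} (hN : N ≠ 0) :
    LinearIndependent ℂ (vec (D := D) hN) := by
  have h := lin_indep hm hN
  have h2 : (fun i : Idx D N => D.B i.1.2.2 i.1.2.1) = (D.Sp N).subtype ∘ vec hN := rfl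
  rw [h2] at h
  exact LinearIndependent.of_comp _ h

theorem vec_span (hm : D.Mult) (hs : Spec D) {N : ℕ} (hN : N ≠ 0) :
    ⊤ ≤ span ℂ (Set.range (vec (D := D) hN)) := by
  rintro ⟨f, hf⟩ -
  have h := span_top hm hs N hN hf
  have h2 : (fun i : Idx D N => D.B i.1.2.2 i.1.2.1) = (D.Sp N).subtype ∘ vec hN := rfl
  rw [h2, Set.range_comp, ← Submodule.map_span] at h
  obtain ⟨g, hg, hgf⟩ := h
  have : g = ⟨f, hf⟩ := Subtype.ext hgf
  rwa [← this]

/-- **The basis theorem.** -/
noncomputable def nfBasis (hm : D.Mult) (hs : Spec D) {N : ℕ} (hN : N ≠ 0) :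
    Module.Basis (Idx D N) ℂ (D.Sp N) := Module.Basis.mk (vec_indep hm hN) (vec_span hm hs hN)

theorem nfBasis_apply (hm : D.Mult) (hs : Spec D) {N : ℕ} (hN : N ≠ 0) (i : Idx D N) :
    ((nfBasis hm hs hN i : D.Sp N) : F) = D.B i.1.2.2 i.1.2.1 := by
  rw [nfBasis, Module.Basis.mk_apply]
  rfl

theorem finite_idx (hm : D.Mult) {N : ℕ} (hN : N ≠ 0) : Finite (Idx D N) := by
  have := D.fin N hN
  exact (vec_indep hm hN).finite

theorem finite_nf (hm : D.Mult) {N : ℕ} (hN : N ≠ 0) : {f | D.IsNF N f}.Finite := by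
  have := finite_idx hm hN
  have h : Finite {f | D.IsNF N f} := by
    refine Finite.of_injective (β := Idx D N) (fun f => ⟨(N, f.1, 1), f.2, by simp⟩) ?_
    intro f g hfg
    have h1 := congrArg (fun x : Idx D N => x.1.2.1) hfg
    exact Subtype.ext h1
  exact h

theorem finite_idxset (hm : D.Mult) {N : ℕ} (hN : N ≠ 0) : (Idx D N).Finite :=
  finite_idx hm hN

/-- `tot = σ₀ * cnt` -/
theorem tot_eq (hm : D.Mult) {N : ℕ} (hN : N ≠ 0) (P : F → Prop) :
    D.tot N P = ∑ M ∈ N.divisors, (N / M).divisors.card * D.cnt M P := by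
  classical
  have hfin : {x : ℕ × F × ℕ | x ∈ Idx D N ∧ P x.2.1}.Finite :=
    (finite_idxset hm hN).subset fun x hx => hx.1
  rw [tot, Set.ncard_eq_toFinset_card _ hfin]
  rw [Finset.card_eq_sum_card_fiberwise (f := fun x => x.1) (t := N.divisors)]
  · refine Finset.sum_congr rfl fun M hM => ?_
    have hMN := Nat.dvd_of_mem_divisors hM
    have hM0 : M ≠ 0 := (Nat.pos_of_mem_divisors hM).ne'
    have hfM : {f | D.IsNF M f ∧ P f}.Finite := (finite_nf hm hM0).subset fun f hf => hf.1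
    rw [cnt, Set.ncard_eq_toFinset_card _ hfM, ← Finset.card_product]
    refine Finset.card_bij (fun x _ => (x.2.2, x.2.1)) ?_ ?_ ?_
    · intro x hx
      simp only [Finset.mem_filter, Set.Finite.mem_toFinset, Set.mem_ofPred_eq] at hx
      obtain ⟨⟨⟨h1, h2⟩, h3⟩, h4⟩ := hx
      simp only [Finset.mem_product, Nat.mem_divisors, Set.Finite.mem_toFinset, Set.mem_ofPred_eq]
      rw [← h4]
      refine ⟨⟨?_, ?_⟩, h1, h3⟩
      · rw [h4] at h2 ⊢
        exact (Nat.dvd_div_iff_mul_dvd hMN).mpr h2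
      · rw [h4]
        exact (Nat.div_pos (Nat.le_of_dvd (Nat.pos_of_ne_zero hN) hMN)
          (Nat.pos_of_ne_zero hM0)).ne'
    · intro x hx y hy hxy
      simp only [Finset.mem_filter] at hx hy
      have e1 := (Prod.ext_iff.mp hxy).1
      have e2 := (Prod.ext_iff.mp hxy).2
      exact Prod.ext (hx.2.trans hy.2.symm) (Prod.ext e2 e1)
    · rintro ⟨d, f⟩ hdf
      simp only [Finset.mem_product, Nat.mem_divisors, Set.Finite.mem_toFinset,
        Set.mem_ofPred_eq] at hdf
      refine ⟨(M, f, d), ?_, rfl⟩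
      simp only [Finset.mem_filter, Set.Finite.mem_toFinset, Set.mem_ofPred_eq]
      exact ⟨⟨⟨hdf.2.1, (Nat.dvd_div_iff_mul_dvd hMN).mp hdf.1.1⟩, hdf.2.2⟩, trivial⟩
  · intro x hx
    have hx' : x ∈ Idx D N ∧ P x.2.1 := by simpa using hx
    have : x.1 ∣ N := (Dvd.intro _ rfl).trans hx'.1.2
    simp [this, hN]

/-- `cnt = μ * μ * tot` -/
theorem cnt_eq (hm : D.Mult) {N : ℕ} (hN : N ≠ 0) (P : F → Prop) :
    (D.cnt N P : ℤ) = ∑ x ∈ N.divisorsAntidiagonal,
      (ArithmeticFunction.moebius * ArithmeticFunction.moebius) x.1 * (D.tot x.2 P : ℤ) := by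
  classical
  let C : ArithmeticFunction ℤ := ⟨fun n => if n = 0 then 0 else (D.cnt n P : ℤ), by simp⟩
  let T : ArithmeticFunction ℤ := ⟨fun n => if n = 0 then 0 else (D.tot n P : ℤ), by simp⟩
  let Z : ArithmeticFunction ℤ := ((ArithmeticFunction.zeta : ArithmeticFunction ℕ) :
    ArithmeticFunction ℤ)
  have hZ : ∀ n, n ≠ 0 → (Z * Z) n = (n.divisors.card : ℤ) := by
    intro n hn
    rw [ArithmeticFunction.mul_apply, Finset.sum_congr rfl (g := fun _ => (1 : ℤ)),
      Finset.sum_const, nsmul_eq_mul, mul_one]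
    · congr 1
      rw [← Nat.map_div_right_divisors, Finset.card_map]
    · intro x hx
      have := Nat.mem_divisorsAntidiagonal.mp hx
      have h1 : x.1 ≠ 0 := fun h => this.2 (by rw [← this.1, h, zero_mul])
      have h2 : x.2 ≠ 0 := fun h => this.2 (by rw [← this.1, h, mul_zero])
      simp [Z, ArithmeticFunction.natCoe_apply, ArithmeticFunction.zeta_apply, h1, h2]
  have hT : T = (Z * Z) * C := by
    ext n
    rcases eq_or_ne n 0 with rfl | hn
    · simp
    · have h1 : T n = (D.tot n P : ℤ) := if_neg hn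
      rw [h1, tot_eq hm hn P, ArithmeticFunction.mul_apply]
      push_cast
      have hre : ∑ x ∈ n.divisorsAntidiagonal, (Z * Z) x.1 * C x.2 =
          ∑ M ∈ n.divisors, (Z * Z) (n / M) * C M := by
        rw [← Nat.sum_divisorsAntidiagonal' (f := fun a b => (Z * Z) a * C b)]
      rw [hre]
      refine Finset.sum_congr rfl fun M hM => ?_
      have hMN := Nat.dvd_of_mem_divisors hM
      have hM0 : M ≠ 0 := (Nat.pos_of_mem_divisors hM).ne'
      have h2 : n / M ≠ 0 := (Nat.div_pos (Nat.le_of_dvd (Nat.pos_of_ne_zero hn) hMN)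
          (Nat.pos_of_ne_zero hM0)).ne'
      have h3 : C M = (D.cnt M P : ℤ) := if_neg hM0
      rw [h3, hZ _ h2]
  have hC : C = (ArithmeticFunction.moebius * ArithmeticFunction.moebius) * T := by
    have hμ : ArithmeticFunction.moebius * Z = 1 := ArithmeticFunction.moebius_mul_coe_zeta
    rw [hT]
    calc C = (ArithmeticFunction.moebius * Z) * (ArithmeticFunction.moebius * Z) * C := by
          rw [hμ, one_mul, one_mul]
      _ = _ := by ring
  have h1 : C N = (D.cnt N P : ℤ) := if_neg hN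
  rw [← h1, hC, ArithmeticFunction.mul_apply]
  refine Finset.sum_congr rfl fun x hx => ?_
  have := Nat.mem_divisorsAntidiagonal.mp hx
  have h2 : x.2 ≠ 0 := fun h => this.2 (by rw [← this.1, h, mul_zero])
  have h3 : T x.2 = (D.tot x.2 P : ℤ) := if_neg h2
  rw [h3]

end Gouvea.NF.Data
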