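import Pool.Agent.Work.MP_d3517d_nt.NF.DecCount

/-!
# Joint (generalised) eigenspaces of the Hecke operators and newforms (abstract version)
-/

open Submodule Module

namespace Gouvea.NF

section LinAlg

variable {K V ι κ : Type*} [Field K] [AddCommGroup V] [Module K V]

theorem eq_zero_of_pow_zero' {R : Type*} [MonoidWithZero R] [NoZeroDivisors R] {a : R} {n : ℕ}
    (h : a ^ n = 0) : a = 0 := eq_zero_of_pow_eq_zero h

theorem pow_apply_eigen (T : End K V) {v : V} {m : K} (h : T v = m • v) (c : K) (n : ℕ) :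
    ((T - c • (1 : End K V)) ^ n) v = (m - c) ^ n • v := by
  induction n with
  | zero => simp
  | succ n ih =>
    have h1 : (T - c • (1 : End K V)) v = (m - c) • v := by
      simp [h, sub_smul]
    rw [pow_succ', Module.End.mul_apply, ih, map_smul, h1, smul_smul, pow_succ]

/-- the joint generalised eigenspace of operators diagonalised by a basis -/
theorem iInf_maxGen_eq_span (b : Basis κ K V) (T : ι → End K V) (m : κ → ι → K)
    (h : ∀ i k, T i (b k) = m k i • b k) (χ : ι → K) :
    (⨅ i, (T i).maxGenEigenspace (χ i)) = span K (b '' {k | m k = χ}) := by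
  apply le_antisymm
  · intro x hx
    rw [Submodule.mem_iInf] at hx
    have key : ∀ k, b.repr x k ≠ 0 → m k = χ := by
      intro k hk
      funext i
      obtain ⟨n, hn⟩ := (Module.End.mem_maxGenEigenspace _ _ _).1 (hx i)
      have h1 : ∀ y : V, b.repr (((T i - χ i • (1 : End K V)) ^ n) y) k
          = (m k i - χ i) ^ n * b.repr y k := by
        intro y
        have h2 : (Finsupp.lapply k ∘ₗ b.repr.toLinearMap) ∘ₗ ((T i - χ i • (1 : End K V)) ^ n)
            = (m k i - χ i) ^ n • (Finsupp.lapply k ∘ₗ b.repr.toLinearMap) := by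
          refine b.ext fun j => ?_
          simp only [LinearMap.comp_apply, LinearMap.smul_apply]
          rw [pow_apply_eigen (T i) (h i j) (χ i) n, map_smul, map_smul]
          simp only [LinearEquiv.coe_coe, Basis.repr_self, Finsupp.lapply_apply, smul_eq_mul]
          rcases eq_or_ne j k with rfl | hjk
          · rfl
          · rw [Finsupp.single_eq_of_ne' hjk, mul_zero, mul_zero]
        have h3 := LinearMap.congr_fun h2 y
        simpa using h3
      have h4 := h1 x
      rw [hn] at h4
      simp only [map_zero, Finsupp.coe_zero, Pi.zero_apply] at h4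
      have h5 := (mul_eq_zero.mp h4.symm).resolve_right hk
      exact sub_eq_zero.mp (eq_zero_of_pow_zero' h5)
    rw [← b.linearCombination_repr x, Finsupp.linearCombination_apply]
    refine Submodule.sum_mem _ fun k hk => ?_
    exact Submodule.smul_mem _ _ (Submodule.subset_span
      ⟨k, key k (Finsupp.mem_support_iff.mp hk), rfl⟩)
  · rw [Submodule.span_le]
    rintro _ ⟨k, hk, rfl⟩
    rw [SetLike.mem_coe, Submodule.mem_iInf]
    intro i
    rw [Module.End.mem_maxGenEigenspace]
    refine ⟨1, ?_⟩
    rw [pow_apply_eigen (T i) (h i k) (χ i) 1, (show m k = χ from hk)]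
    simp

theorem finrank_iInf_maxGen (b : Basis κ K V) (T : ι → End K V) (m : κ → ι → K)
    (h : ∀ i k, T i (b k) = m k i • b k) (χ : ι → K) :
    finrank K (⨅ i, (T i).maxGenEigenspace (χ i) : Submodule K V) = Set.ncard {k | m k = χ} := by
  rw [iInf_maxGen_eq_span b T m h χ]
  have h1 : LinearIndependent K (fun k : {k | m k = χ} => b k) :=
    b.linearIndependent.comp _ Subtype.val_injective
  have h2 : (b '' {k | m k = χ}) = Set.range (fun k : {k | m k = χ} => b k) := by
    ext x
    simp
  rw [h2]
  by_cases hf : Finite {k | m k = χ}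
  · have := Fintype.ofFinite {k | m k = χ}
    rw [finrank_span_eq_card h1, ← Nat.card_eq_fintype_card]
    rfl
  · have h3 : ¬ Module.Finite K (span K (Set.range (fun k : {k | m k = χ} => b k))) := by
      intro h4
      have h5 : LinearIndependent K (fun k : {k | m k = χ} =>
          (⟨b k, Submodule.subset_span ⟨k, rfl⟩⟩ :
            span K (Set.range (fun k : {k | m k = χ} => b k)))) :=
        LinearIndependent.of_comp (Submodule.subtype _) h1
      exact hf h5.finite
    rw [finrank_of_infinite_dimensional h3]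
    exact (Set.Infinite.ncard hf).symm

end LinAlg

namespace Data

variable {F : Type*} [AddCommGroup F] [Module ℂ F] {D : Data F}

/-- the operator `T l` on `Sp M` -/
noncomputable def TS (D : Data F) {M : ℕ} (hM : M ≠ 0) (l : ℕ) (hl : l.Prime) (hlM : ¬ l ∣ M) :
    End ℂ (D.Sp M) := (D.T l).restrict (fun f hf => D.T_mem M l f hM hl hlM hf)

theorem coe_TS {M : ℕ} (hM : M ≠ 0) (l : ℕ) (hl : l.Prime) (hlM : ¬ l ∣ M) (f : D.Sp M) :
    ((TS D hM l hl hlM f : D.Sp M) : F) = D.T l f := rfl

/-- the primes not dividing `N` -/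
abbrev PrN (N : ℕ) := {l : ℕ // l.Prime ∧ ¬ l ∣ N}

/-- the multiplicity of the system `χ` in level `M`, where `M` divides `N` -/
theorem finrank_system (hm : D.Mult) (hs : Spec D) {M N : ℕ} (hM : M ≠ 0) (hMN : M ∣ N)
    (χ : PrN N → ℂ) :
    finrank ℂ (⨅ l : PrN N, (TS D hM l.1 l.2.1 (fun h => l.2.2 (h.trans hMN))).maxGenEigenspace
      (χ l) : Submodule ℂ (D.Sp M)) = D.tot M (fun f => ∀ l : PrN N, D.coef f l.1 = χ l) := by
  rw [finrank_iInf_maxGen (nfBasis hm hs hM)
    (fun l : PrN N => TS D hM l.1 l.2.1 (fun h => l.2.2 (h.trans hMN)))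
    (fun i l => D.coef i.1.2.1 l.1) ?_ χ]
  · rw [tot]
    have h1 : {x : ℕ × F × ℕ | x ∈ Idx D M ∧ ∀ l : PrN N, D.coef x.2.1 l.1 = χ l}
        = Subtype.val '' {k : Idx D M | (fun l : PrN N => D.coef k.1.2.1 l.1) = χ} := by
      ext x
      constructor
      · rintro ⟨hx, hx2⟩
        exact ⟨⟨x, hx⟩, funext hx2, rfl⟩
      · rintro ⟨⟨y, hy⟩, hy2, rfl⟩
        exact ⟨hy, fun l => congrFun hy2 l⟩
    rw [h1, Set.ncard_image_of_injective _ Subtype.val_injective]
  · intro l i
    apply Subtype.ext
    rw [coe_TS, nfBasis_apply, i.2.1.eigB hM i.2.2 l.2.1 (fun h => l.2.2 (h.trans hMN)),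
      Submodule.coe_smul, nfBasis_apply]

end Data

end Gouvea.NF
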