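import Mathlib

/-!
# Commuting symmetric operators for a positive definite hermitian form

Everything is stated for a submodule `V` of an ambient complex vector space `E`, with a form
`ip : E → E → ℂ` which is conjugate linear in the first variable, hermitian and positive definite
on `V` only.
-/

set_option autoImplicit false

open Module ComplexConjugate

namespace Gouvea.NF

/-- `ip` is a positive definite hermitian form on `V` -/
structure HermOn {E : Type*} [AddCommGroup E] [Module ℂ E] (V : Submodule ℂ E)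
    (ip : E → E → ℂ) : Prop where
  symm : ∀ f ∈ V, ∀ g ∈ V, conj (ip f g) = ip g f
  add_left : ∀ f ∈ V, ∀ g ∈ V, ∀ h ∈ V, ip (f + g) h = ip f h + ip g h
  smul_left : ∀ c : ℂ, ∀ f ∈ V, ∀ g ∈ V, ip (c • f) g = conj c * ip f g
  pos : ∀ f ∈ V, f ≠ 0 → 0 < (ip f f).re

section Inner

variable {ι V : Type*} [NormedAddCommGroup V] [InnerProductSpace ℂ V] [FiniteDimensional ℂ V]

/-- an orthonormal basis of common eigenvectors of a commuting family of symmetric operators -/
theorem spec_inner (T : ι → V →ₗ[ℂ] V) (hT : ∀ i, (T i).IsSymmetric)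
    (hC : ∀ i j, T i ∘ₗ T j = T j ∘ₗ T i) :
    ∃ b : OrthonormalBasis (Fin (finrank ℂ V)) ℂ V, ∃ μ : ι → Fin (finrank ℂ V) → ℝ,
      ∀ i a, T i (b a) = (μ i a : ℂ) • b a := by
  classical
  have hint := LinearMap.IsSymmetric.directSum_isInternal_of_pairwise_commute hT
    (fun i j _ => hC i j)
  have hort := LinearMap.IsSymmetric.orthogonalFamily_iInf_eigenspaces hT
  set A : (ι → ℂ) → Submodule ℂ V := fun α => ⨅ j, End.eigenspace (T j) (α j) with hA
  have hint' : DirectSum.IsInternal (fun i : {i // A i ≠ ⊥} => A i) :=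
    DirectSum.isInternal_ne_bot_iff.2 hint
  have hfin : Fintype {i // A i ≠ ⊥} := hint.submodule_iSupIndep.fintypeNeBotOfFiniteDimensional
  have hort' : OrthogonalFamily ℂ (fun i : {i // A i ≠ ⊥} => A i) fun i => (A i).subtypeₗᵢ :=
    hort.comp Subtype.val_injective
  let b := hint'.subordinateOrthonormalBasis rfl hort'
  have hb : ∀ a, b a ∈ A (hint'.subordinateOrthonormalBasisIndex rfl a hort').1 := fun a =>
    hint'.subordinateOrthonormalBasis_subordinate rfl a hort'
  have key : ∀ i a, ∃ c : ℝ, T i (b a) = (c : ℂ) • b a := by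
    intro i a
    have h1 : ∀ j, b a ∈ End.eigenspace (T j)
        ((hint'.subordinateOrthonormalBasisIndex rfl a hort').1 j) :=
      (Submodule.mem_iInf _).1 (hb a)
    have h2 := End.mem_eigenspace_iff.1 (h1 i)
    set c := (hint'.subordinateOrthonormalBasisIndex rfl a hort').1 i with hc
    have h3 : End.HasEigenvalue (T i) c := by
      refine End.hasEigenvalue_of_hasEigenvector (x := b a) ⟨h1 i, ?_⟩
      exact b.toBasis.ne_zero a |> (by simpa using ·)
    have h4 := (hT i).conj_eigenvalue_eq_self h3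
    obtain ⟨r, hr⟩ := Complex.conj_eq_iff_real.1 h4
    exact ⟨r, by rw [h2, hr]⟩
  choose μ hμ using key
  exact ⟨b, μ, hμ⟩

end Inner

section OnType

variable {ι V : Type*} [AddCommGroup V] [Module ℂ V] [FiniteDimensional ℂ V]

/-- a basis of common eigenvectors, for a form on a type -/
theorem spec_type (ip : V → V → ℂ) (hip : HermOn (⊤ : Submodule ℂ V) ip) (T : ι → V →ₗ[ℂ] V)
    (hT : ∀ i f g, ip (T i f) g = ip f (T i g)) (hC : ∀ i j, T i ∘ₗ T j = T j ∘ₗ T i) :
    ∃ b : Basis (Fin (finrank ℂ V)) ℂ V, (∀ a c, ip (b a) (b c) = if a = c then 1 else 0) ∧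
      ∃ μ : ι → Fin (finrank ℂ V) → ℝ, ∀ i a, T i (b a) = (μ i a : ℂ) • b a := by
  classical
  have h0 : ip 0 0 = 0 := by
    have := hip.smul_left 0 0 trivial 0 trivial
    simpa using this
  let core : InnerProductSpace.Core ℂ V :=
    { inner := ip
      conj_inner_symm := fun x y => hip.symm y trivial x trivial
      re_inner_nonneg := fun x => by
        by_cases hx : x = 0
        · rw [hx, h0]; simp
        · exact (hip.pos x trivial hx).le
      add_left := fun x y z => hip.add_left x trivial y trivial z trivial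
      smul_left := fun x y r => hip.smul_left r x trivial y trivial
      definite := fun x hx => by
        by_contra hne
        have := hip.pos x trivial hne
        rw [hx] at this
        simp at this }
  let _ : NormedAddCommGroup V := @InnerProductSpace.Core.toNormedAddCommGroup ℂ V _ _ _ core
  let _ : InnerProductSpace ℂ V := InnerProductSpace.ofCore core.toCore
  obtain ⟨b, μ, hμ⟩ := spec_inner T (fun i => fun f g => hT i f g) hC
  refine ⟨b.toBasis, ?_, μ, fun i a => ?_⟩
  · intro a c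
    have h := orthonormal_iff_ite.1 b.orthonormal a c
    rw [b.coe_toBasis]
    exact h
  · rw [b.coe_toBasis]
    exact hμ i a

end OnType

section Sub

variable {E : Type*} [AddCommGroup E] [Module ℂ E] {V : Submodule ℂ E} {ip : E → E → ℂ}

theorem HermOn.mono (h : HermOn V ip) {W : Submodule ℂ E} (hW : W ≤ V) : HermOn W ip :=
  ⟨fun f hf g hg => h.symm f (hW hf) g (hW hg),
    fun f hf g hg k hk => h.add_left f (hW hf) g (hW hg) k (hW hk),
    fun c f hf g hg => h.smul_left c f (hW hf) g (hW hg), fun f hf => h.pos f (hW hf)⟩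

theorem HermOn.add_right (h : HermOn V ip) {f g k : E} (hf : f ∈ V) (hg : g ∈ V) (hk : k ∈ V) :
    ip f (g + k) = ip f g + ip f k := by
  rw [← h.symm _ (V.add_mem hg hk) f hf, h.add_left g hg k hk f hf, map_add, h.symm g hg f hf,
    h.symm k hk f hf]

theorem HermOn.smul_right (h : HermOn V ip) {f g : E} (c : ℂ) (hf : f ∈ V) (hg : g ∈ V) :
    ip f (c • g) = c * ip f g := by
  rw [← h.symm _ (V.smul_mem c hg) f hf, h.smul_left c g hg f hf, map_mul, Complex.conj_conj,
    h.symm g hg f hf]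

theorem HermOn.zero_left (h : HermOn V ip) {g : E} (hg : g ∈ V) : ip 0 g = 0 := by
  have := h.smul_left 0 0 V.zero_mem g hg
  simpa using this

theorem HermOn.zero_right (h : HermOn V ip) {g : E} (hg : g ∈ V) : ip g 0 = 0 := by
  have := h.smul_right 0 hg V.zero_mem
  simpa using this

theorem HermOn.neg_left (h : HermOn V ip) {f g : E} (hf : f ∈ V) (hg : g ∈ V) :
    ip (-f) g = -ip f g := by
  have := h.smul_left (-1) f hf g hg
  simpa using this

theorem HermOn.neg_right (h : HermOn V ip) {f g : E} (hf : f ∈ V) (hg : g ∈ V) :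
    ip f (-g) = -ip f g := by
  have := h.smul_right (-1) hf hg
  simpa using this

theorem HermOn.sub_left (h : HermOn V ip) {f g k : E} (hf : f ∈ V) (hg : g ∈ V) (hk : k ∈ V) :
    ip (f - g) k = ip f k - ip g k := by
  rw [sub_eq_add_neg, h.add_left f hf _ (V.neg_mem hg) k hk, h.neg_left hg hk, sub_eq_add_neg]

theorem HermOn.sub_right (h : HermOn V ip) {f g k : E} (hf : f ∈ V) (hg : g ∈ V) (hk : k ∈ V) :
    ip f (g - k) = ip f g - ip f k := by
  rw [sub_eq_add_neg, h.add_right hf hg (V.neg_mem hk), h.neg_right hf hk, sub_eq_add_neg]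

theorem HermOn.sum_left (h : HermOn V ip) {κ : Type*} (s : Finset κ) (F : κ → E)
    (hF : ∀ i ∈ s, F i ∈ V) {g : E} (hg : g ∈ V) : ip (∑ i ∈ s, F i) g = ∑ i ∈ s, ip (F i) g := by
  classical
  induction s using Finset.induction_on with
  | empty => simp [h.zero_left hg]
  | insert a s ha ih =>
    rw [Finset.sum_insert ha, Finset.sum_insert ha,
      h.add_left _ (hF a (Finset.mem_insert_self _ _)) _
        (V.sum_mem fun i hi => hF i (Finset.mem_insert_of_mem hi)) g hg,
      ih fun i hi => hF i (Finset.mem_insert_of_mem hi)]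

theorem HermOn.sum_right (h : HermOn V ip) {κ : Type*} (s : Finset κ) (F : κ → E)
    (hF : ∀ i ∈ s, F i ∈ V) {g : E} (hg : g ∈ V) : ip g (∑ i ∈ s, F i) = ∑ i ∈ s, ip g (F i) := by
  classical
  induction s using Finset.induction_on with
  | empty => simp [h.zero_right hg]
  | insert a s ha ih =>
    rw [Finset.sum_insert ha, Finset.sum_insert ha,
      h.add_right hg (hF a (Finset.mem_insert_self _ _))
        (V.sum_mem fun i hi => hF i (Finset.mem_insert_of_mem hi)),
      ih fun i hi => hF i (Finset.mem_insert_of_mem hi)]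

theorem HermOn.eq_zero (h : HermOn V ip) {f : E} (hf : f ∈ V) (h0 : ip f f = 0) : f = 0 := by
  by_contra hne
  have := h.pos f hf hne
  rw [h0] at this
  simp at this

theorem HermOn.comm_zero (h : HermOn V ip) {f g : E} (hf : f ∈ V) (hg : g ∈ V) :
    ip f g = 0 ↔ ip g f = 0 := by
  rw [← h.symm f hf g hg, map_eq_zero]

/-- the orthogonal complement of `W` in `V` -/
def HermOn.perp (h : HermOn V ip) (W : Submodule ℂ E) (hW : W ≤ V) : Submodule ℂ E where
  carrier := {f | f ∈ V ∧ ∀ g ∈ W, ip f g = 0}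
  add_mem' := by
    rintro f g ⟨hf, hf'⟩ ⟨hg, hg'⟩
    refine ⟨V.add_mem hf hg, fun k hk => ?_⟩
    rw [h.add_left f hf g hg k (hW hk), hf' k hk, hg' k hk, add_zero]
  zero_mem' := ⟨V.zero_mem, fun k hk => h.zero_left (hW hk)⟩
  smul_mem' := by
    rintro c f ⟨hf, hf'⟩
    refine ⟨V.smul_mem c hf, fun k hk => ?_⟩
    rw [h.smul_left c f hf k (hW hk), hf' k hk, mul_zero]

theorem HermOn.mem_perp (h : HermOn V ip) {W : Submodule ℂ E} (hW : W ≤ V) {f : E} :
    f ∈ h.perp W hW ↔ f ∈ V ∧ ∀ g ∈ W, ip f g = 0 := Iff.rfl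

theorem HermOn.perp_le (h : HermOn V ip) {W : Submodule ℂ E} (hW : W ≤ V) : h.perp W hW ≤ V :=
  fun _ hf => hf.1

theorem HermOn.perp_stable (h : HermOn V ip) {W : Submodule ℂ E} (hW : W ≤ V) (T : E → E)
    (hTV : ∀ f ∈ V, T f ∈ V) (hTW : ∀ f ∈ W, T f ∈ W)
    (hT : ∀ f ∈ V, ∀ g ∈ V, ip (T f) g = ip f (T g)) :
    ∀ f ∈ h.perp W hW, T f ∈ h.perp W hW := by
  rintro f ⟨hf, hf'⟩
  refine ⟨hTV f hf, fun g hg => ?_⟩
  rw [hT f hf g (hW hg)]
  exact hf' _ (hTW g hg)

theorem HermOn.perp_disjoint (h : HermOn V ip) {W : Submodule ℂ E} (hW : W ≤ V) :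
    Disjoint W (h.perp W hW) := by
  rw [Submodule.disjoint_def]
  intro f hf hf'
  exact h.eq_zero hf'.1 (hf'.2 f hf)

/-- the form on the type `W` -/
theorem HermOn.restrict (h : HermOn V ip) {W : Submodule ℂ E} (hW : W ≤ V) :
    HermOn (⊤ : Submodule ℂ W) (fun f g : W => ip f g) :=
  ⟨fun f _ g _ => h.symm f (hW f.2) g (hW g.2),
    fun f _ g _ k _ => h.add_left f (hW f.2) g (hW g.2) k (hW k.2),
    fun c f _ g _ => h.smul_left c f (hW f.2) g (hW g.2),
    fun f _ hf => h.pos f (hW f.2) (fun h0 => hf (Subtype.ext h0))⟩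

/-- an orthonormal basis of a finite dimensional `T`-stable subspace `W` of `V`, consisting of
common eigenvectors of the commuting operators `T i`, which are symmetric on `W` -/
theorem HermOn.exists_eigenbasis (h : HermOn V ip) {W : Submodule ℂ E} (hW : W ≤ V)
    [FiniteDimensional ℂ W] {ι : Type*} (T : ι → E →ₗ[ℂ] E) (hTW : ∀ i, ∀ f ∈ W, T i f ∈ W)
    (hT : ∀ i, ∀ f ∈ W, ∀ g ∈ W, ip (T i f) g = ip f (T i g))
    (hC : ∀ i j, ∀ f ∈ W, T i (T j f) = T j (T i f)) :
    ∃ b : Basis (Fin (finrank ℂ W)) ℂ W,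
      (∀ a c, ip (b a) (b c) = if a = c then 1 else 0) ∧
      ∃ μ : ι → Fin (finrank ℂ W) → ℝ, ∀ i a, T i (b a : E) = (μ i a : ℂ) • (b a : E) := by
  obtain ⟨b, hb, μ, hμ⟩ := spec_type (ι := ι) (fun f g : W => ip f g) (h.restrict hW)
    (fun i => (T i).restrict (hTW i)) (fun i f g => hT i f f.2 g g.2)
    (fun i j => by
      apply LinearMap.ext
      intro f
      apply Subtype.ext
      exact hC i j f f.2)
  refine ⟨b, hb, μ, fun i a => ?_⟩
  have := congrArg Subtype.val (hμ i a)
  exact this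

/-- the same without operators: an orthonormal basis -/
theorem HermOn.exists_onb (h : HermOn V ip) {W : Submodule ℂ E} (hW : W ≤ V)
    [FiniteDimensional ℂ W] :
    ∃ b : Basis (Fin (finrank ℂ W)) ℂ W, ∀ a c, ip (b a) (b c) = if a = c then 1 else 0 := by
  obtain ⟨b, hb, -⟩ := h.exists_eigenbasis hW (ι := Empty) (fun i => i.elim)
    (fun i => i.elim) (fun i => i.elim) (fun i => i.elim)
  exact ⟨b, hb⟩

/-- orthogonal projection onto a finite dimensional subspace -/
theorem HermOn.exists_proj (h : HermOn V ip) {W : Submodule ℂ E} (hW : W ≤ V)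
    [FiniteDimensional ℂ W] {f : E} (hf : f ∈ V) :
    ∃ g ∈ W, f - g ∈ h.perp W hW := by
  classical
  obtain ⟨b, hb⟩ := h.exists_onb hW
  set g : E := ∑ a, ip (b a) f • (b a : E) with hg
  have hbV : ∀ a, (b a : E) ∈ V := fun a => hW (b a).2
  have hgW : g ∈ W := W.sum_mem fun a _ => W.smul_mem _ (b a).2
  have hgV : g ∈ V := hW hgW
  refine ⟨g, hgW, V.sub_mem hf hgV, ?_⟩
  have h1 : ∀ c, ip (b c) (f - g) = 0 := by
    intro c
    rw [h.sub_right (hbV c) hf hgV, hg,
      h.sum_right Finset.univ _ (fun a _ => V.smul_mem _ (hbV a)) (hbV c)]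
    have h2 : ∀ a, ip (b c : E) (ip (b a : E) f • (b a : E)) = if c = a then ip (b a) f else 0 := by
      intro a
      rw [h.smul_right _ (hbV c) (hbV a), hb c a]
      split_ifs <;> simp
    rw [Finset.sum_congr rfl fun a _ => h2 a, Finset.sum_ite_eq Finset.univ c]
    simp
  intro k hk
  rw [h.comm_zero (V.sub_mem hf hgV) (hW hk)]
  have h3 : k = ∑ a, b.repr ⟨k, hk⟩ a • (b a : E) := by
    have := congrArg W.subtype (b.sum_repr ⟨k, hk⟩)
    rw [map_sum] at this
    exact this.symm
  rw [h3, h.sum_left Finset.univ _ (fun a _ => V.smul_mem _ (hbV a)) (V.sub_mem hf hgV)]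
  refine Finset.sum_eq_zero fun a _ => ?_
  rw [h.smul_left _ _ (hbV a) _ (V.sub_mem hf hgV), h1 a, mul_zero]

theorem HermOn.sup_perp (h : HermOn V ip) {W : Submodule ℂ E} (hW : W ≤ V)
    [FiniteDimensional ℂ W] : W ⊔ h.perp W hW = V := by
  apply le_antisymm (sup_le hW (h.perp_le hW))
  intro f hf
  obtain ⟨g, hg, hfg⟩ := h.exists_proj hW hf
  have : f = g + (f - g) := by abel
  rw [this]
  exact Submodule.add_mem_sup hg hfg

theorem HermOn.finrank_perp (h : HermOn V ip) {W : Submodule ℂ E} (hW : W ≤ V)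
    [FiniteDimensional ℂ V] : finrank ℂ W + finrank ℂ (h.perp W hW) = finrank ℂ V := by
  have hWf : FiniteDimensional ℂ W := Submodule.finiteDimensional_of_le hW
  have hPf : FiniteDimensional ℂ (h.perp W hW) :=
    Submodule.finiteDimensional_of_le (h.perp_le hW)
  have h1 := Submodule.finrank_sup_add_finrank_inf_eq W (h.perp W hW)
  rw [h.sup_perp hW, (h.perp_disjoint hW).eq_bot, finrank_bot, add_zero] at h1
  exact h1.symm

/-- the complement of the complement -/
theorem HermOn.perp_perp (h : HermOn V ip) {W : Submodule ℂ E} (hW : W ≤ V)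
    [FiniteDimensional ℂ W] : h.perp (h.perp W hW) (h.perp_le hW) = W := by
  apply le_antisymm
  · rintro f ⟨hf, hf'⟩
    obtain ⟨g, hg, hfg⟩ := h.exists_proj hW hf
    have h1 := hf' _ hfg
    have h2 : ip g (f - g) = 0 := (h.comm_zero (hW hg) hfg.1).2 (hfg.2 g hg)
    have h3 : f - g = 0 := by
      apply h.eq_zero hfg.1
      rw [h.sub_left hf (hW hg) hfg.1, h1, h2, sub_zero]
    rw [sub_eq_zero.1 h3]
    exact hg
  · intro f hf
    refine ⟨hW hf, fun g hg => ?_⟩
    exact (h.comm_zero (hW hf) hg.1).2 (hg.2 f hf)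

end Sub

end Gouvea.NF
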