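import Pool.Agent.Work.MP_d3517d_nt.NF.DecAbs
import Pool.Agent.Work.MP_d3517d_nt.NF.Spec

/-!
# The spectral hypothesis of `DecAbs` follows from positivity
-/

open Submodule

namespace Gouvea.NF.Data

variable {F : Type*} [AddCommGroup F] [Module ℂ F] {D : Data F}

/-- the form of the data is a positive definite hermitian form -/
def Pos (D : Data F) : Prop := ∀ N, N ≠ 0 → ∀ f ∈ D.Sp N, f ≠ 0 → 0 < (D.ip f f).re

theorem hermOn (hp : Pos D) {N : ℕ} (hN : N ≠ 0) : HermOn (D.Sp N) D.ip where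
  symm f hf g hg := (D.ip_conj N f g hN hf hg).symm
  add_left f hf g hg h hh := by
    rw [D.ip_conj N h _ hN hh ((D.Sp N).add_mem hf hg), D.ip_add N h f g hN hh hf hg,
      D.ip_conj N h f hN hh hf, D.ip_conj N h g hN hh hg, map_add]
  smul_left c f hf g hg := by
    rw [D.ip_conj N g _ hN hg ((D.Sp N).smul_mem _ hf), D.ip_smul N c g f hN hg hf,
      D.ip_conj N g f hN hg hf, map_mul]
  pos f hf hne := hp N hN f hf hne

/-- the old space is stable under the Hecke operators -/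
theorem old_stable {N l : ℕ} (hN : N ≠ 0) (hl : l.Prime) (hlN : ¬ l ∣ N) {f : F}
    (hf : f ∈ D.old N) : D.T l f ∈ D.old N := by
  have h : D.old N ≤ (D.old N).comap (D.T l) := by
    refine iSup_le fun q => iSup_le fun hq => iSup_le fun hqN => ?_
    have h0 : N / q ≠ 0 := (Nat.div_pos (Nat.le_of_dvd (Nat.pos_of_ne_zero hN) hqN) hq.pos).ne'
    have hlq : ¬ l ∣ N / q := fun h => hlN (h.trans (Nat.div_dvd_of_dvd hqN))
    have hlq' : ¬ l ∣ q := fun h => hlN (h.trans hqN)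
    have hle : D.Sp (N / q) ⊔ (D.Sp (N / q)).map (D.B q) ≤ D.old N :=
      le_iSup_of_le q (le_iSup_of_le hq (le_iSup_of_le hqN le_rfl))
    refine sup_le ?_ ?_
    · intro g hg
      exact hle (Submodule.mem_sup_left (D.T_mem (N / q) l g h0 hl hlq hg))
    · rintro _ ⟨g, hg, rfl⟩
      refine hle (Submodule.mem_sup_right ?_)
      rw [D.T_B (N / q) l q g h0 hq.ne_zero hl hlq hlq' hg]
      exact ⟨_, D.T_mem (N / q) l g h0 hl hlq hg, rfl⟩
  exact h hf

theorem spec_of_pos (hp : Pos D) : Spec D := by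
  intro N hN f hf ho
  have := D.fin N hN
  have H := hermOn hp hN
  have hW : H.perp (D.old N) (D.old_le hN) ≤ D.Sp N := H.perp_le (D.old_le hN)
  have hfd : FiniteDimensional ℂ (H.perp (D.old N) (D.old_le hN)) :=
    Submodule.finiteDimensional_of_le hW
  let ι := {l : ℕ // l.Prime ∧ ¬ l ∣ N}
  obtain ⟨b, -, μ, hμ⟩ := H.exists_eigenbasis hW (ι := ι) (fun l => D.T l.1)
    (fun l g hg => H.perp_stable (D.old_le hN) (D.T l.1)
      (fun g hg => D.T_mem N l.1 g hN l.2.1 l.2.2 hg)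
      (fun g hg => old_stable hN l.2.1 l.2.2 hg)
      (fun g hg h hh => D.ip_T N l.1 g h hN l.2.1 l.2.2 hg hh) g hg)
    (fun l g hg h hh => D.ip_T N l.1 g h hN l.2.1 l.2.2 (hW hg) (hW hh))
    (fun l l' g hg => D.T_comm N l.1 l'.1 g hN l.2.1 l.2.2 l'.2.1 l'.2.2 (hW hg))
  have hf' : f ∈ H.perp (D.old N) (D.old_le hN) := ⟨hf, ho⟩
  have h1 := b.mem_span ⟨f, hf'⟩
  have h2 := Submodule.mem_map_of_mem (f := (H.perp (D.old N) (D.old_le hN)).subtype) h1
  rw [Submodule.map_span, ← Set.range_comp] at h2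
  refine Submodule.span_mono ?_ h2
  rintro _ ⟨a, rfl⟩
  refine ⟨hW (b a).2, (b a).2.2, fun l hl hlN => ⟨(μ ⟨l, hl, hlN⟩ a : ℂ), ?_⟩⟩
  exact hμ ⟨l, hl, hlN⟩ a

end Gouvea.NF.Data
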