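import Pool.Agent.Work.MP_d3517d_nt.NF.Defs
import Pool.Agent.Work.MP_d3517d_nt.NF.Spec
import Pool.Agent.Work.MP_d3517d_nt.ES.DimUpper
import Pool.Agent.Work.MP_d3517d_nt.ES.HeckeCusp
import Pool.Agent.Work.MP_d3517d_nt.ES.HeckeQ

/-!
# Common eigenvectors of the Hecke operators (MP_d3517d_nt, part NF)
-/

set_option autoImplicit false

open UpperHalfPlane CongruenceSubgroup Module
open scoped MatrixGroups ModularForm ComplexConjugate Manifold

noncomputable section

namespace Gouvea.NF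

variable {k : ℕ}

theorem finite_Cusp (N : ℕ) (hN : 0 < N) : Module.Finite ℂ (Cusp N k) := by
  have : NeZero N := ⟨hN.ne'⟩
  exact Pool.Agent.Gouv.ESDim.finite_cuspForm N (k : ℤ)

/-- a cusp form as a function -/
def coeL (N k : ℕ) : Cusp N k →ₗ[ℂ] (ℍ → ℂ) where
  toFun f := f
  map_add' _ _ := rfl
  map_smul' _ _ := rfl

theorem coeL_apply (N k : ℕ) (f : Cusp N k) : coeL N k f = ⇑f := rfl

theorem coeL_injective (N k : ℕ) : Function.Injective (coeL N k) := DFunLike.coe_injective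

theorem range_coeL (N k : ℕ) : LinearMap.range (coeL N k) = Sp N k := rfl

theorem finiteDimensional_Sp (N : ℕ) (hN : 0 < N) : FiniteDimensional ℂ (Sp N k) := by
  have := finite_Cusp (k := k) N hN
  rw [← range_coeL]
  exact inferInstance

/-- the Petersson product is a positive definite hermitian form on the cusp forms -/
theorem hermOn_IP (P : IP k) (N : ℕ) (hInV : ∀ f ∈ Sp N k, InV k f) : HermOn (Sp N k) P.ip where
  symm f hf g hg := (P.symm f g (hInV f hf) (hInV g hg)).symm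
  add_left f hf g hg h hh := by
    rw [P.symm h (f + g) (hInV h hh) (hInV _ ((Sp N k).add_mem hf hg)),
      P.add_right h f g (hInV h hh) (hInV f hf) (hInV g hg), map_add,
      ← P.symm h f (hInV h hh) (hInV f hf), ← P.symm h g (hInV h hh) (hInV g hg)]
  smul_left c f hf g hg := by
    rw [P.symm g (c • f) (hInV g hg) (hInV _ ((Sp N k).smul_mem c hf)),
      P.smul_right c g f (hInV g hg) (hInV f hf), map_mul,
      ← P.symm g f (hInV g hg) (hInV f hf)]
  pos f hf h0 := P.pos f (hInV f hf) h0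

/-- a stable subspace is spanned by common eigenvectors -/
theorem exists_eigenbasis_aux {N : ℕ} (W : Submodule ℂ (ℍ → ℂ)) (P : IP k) (hN : 0 < N)
    (hW : W ≤ Sp N k)
    (hT : ∀ (l : ℕ) [NeZero l], l.Prime → ¬ l ∣ N → ∀ f ∈ W, Tl k l f ∈ W)
    (hInV : ∀ f ∈ Sp N k, InV k f)
    (hadj : ∀ (l : ℕ) [NeZero l], l.Prime → ¬ l ∣ N → ∀ f ∈ Sp N k, ∀ g ∈ Sp N k,
      P.ip (Tl k l f) g = P.ip f (Tl k l g)) :
    W = Submodule.span ℂ {f | f ∈ W ∧ ∀ (l : ℕ) [NeZero l], l.Prime → ¬ l ∣ N →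
      ∃ a : ℂ, Tl k l f = a • f} := by
  have hNz : NeZero N := ⟨hN.ne'⟩
  have hfin := finite_Cusp (k := k) N hN
  have hH := hermOn_IP P N hInV
  have hmem : ∀ F : Cusp N k, (F : ℍ → ℂ) ∈ Sp N k := fun F => coe_mem_Sp F
  -- the form on the type of cusp forms
  have hH' : HermOn (⊤ : Submodule ℂ (Cusp N k)) (fun F G : Cusp N k => P.ip F G) :=
    ⟨fun F _ G _ => hH.symm _ (hmem F) _ (hmem G),
      fun F _ G _ K _ => hH.add_left _ (hmem F) _ (hmem G) _ (hmem K),
      fun c F _ G _ => hH.smul_left c _ (hmem F) _ (hmem G),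
      fun F _ hF => hH.pos _ (hmem F) (fun h0 => hF (coeL_injective N k h0))⟩
  set W' : Submodule ℂ (Cusp N k) := W.comap (coeL N k) with hW'
  let ι := {l : ℕ // l.Prime ∧ ¬ l ∣ N}
  let T : ι → Cusp N k →ₗ[ℂ] Cusp N k := fun l => ES.TlC k l.2.1 l.2.2
  have hTc : ∀ (l : ι) [NeZero l.1] (F : Cusp N k), (T l F : ℍ → ℂ) = Tl k l.1 F :=
    fun l _ F => ES.coe_TlC k l.2.1 l.2.2 F
  obtain ⟨b, -, μ, hμ⟩ := hH'.exists_eigenbasis (W := W') le_top T
    (fun l F hF => by
      have : NeZero l.1 := ⟨l.2.1.ne_zero⟩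
      rw [hW', Submodule.mem_comap, coeL_apply, hTc l F]
      exact hT l.1 l.2.1 l.2.2 _ hF)
    (fun l F _ G _ => by
      have : NeZero l.1 := ⟨l.2.1.ne_zero⟩
      change P.ip (T l F) G = P.ip F (T l G)
      rw [hTc l F, hTc l G]
      exact hadj l.1 l.2.1 l.2.2 _ (hmem F) _ (hmem G))
    (fun l m F _ => by
      have : NeZero l.1 := ⟨l.2.1.ne_zero⟩
      have : NeZero m.1 := ⟨m.2.1.ne_zero⟩
      apply coeL_injective N k
      rw [coeL_apply, coeL_apply, hTc l, hTc m, hTc m, hTc l]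
      by_cases hlm : l.1 = m.1
      · have : l = m := Subtype.ext hlm
        subst this
        rfl
      · exact ES.Tl_comm (ES.qe_cusp F) k ((Nat.coprime_primes l.2.1 m.2.1).2 hlm))
  apply le_antisymm
  · intro f hf
    obtain ⟨F, rfl⟩ := hW hf
    have hF : F ∈ W' := hf
    have h1 : F = ∑ a, b.repr ⟨F, hF⟩ a • (b a : Cusp N k) := by
      have := congrArg W'.subtype (b.sum_repr ⟨F, hF⟩)
      rw [map_sum] at this
      exact this.symm
    change coeL N k F ∈ _
    rw [h1, map_sum]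
    refine Submodule.sum_mem _ fun a _ => ?_
    rw [map_smul]
    refine Submodule.smul_mem _ _ (Submodule.subset_span ⟨(b a).2, ?_⟩)
    intro l hl0 hl hlN
    refine ⟨(μ ⟨l, hl, hlN⟩ a : ℂ), ?_⟩
    have h2 := congrArg (coeL N k) (hμ ⟨l, hl, hlN⟩ a)
    rw [map_smul, coeL_apply, hTc ⟨l, hl, hlN⟩] at h2
    exact h2
  · rw [Submodule.span_le]
    rintro f ⟨hf, -⟩
    exact hf

end Gouvea.NF
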