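import Pool.Agent.Work.MP_d3517d_nt.NF.DecEig
import Pool.Agent.Work.MP_d3517d_nt.NF.DecSpec
import Pool.Agent.Work.MP_d3517d_nt.NF.AmbA
import Pool.Agent.Work.MP_d3517d_nt.NF.AmbC
import Pool.Agent.Work.MP_d3517d_nt.NF.AdjIP
import Pool.Agent.Work.MP_d3517d_nt.NF.EigAux

/-!
# The data of `DecAbs` for the spaces `Sp N k`
-/

open UpperHalfPlane CongruenceSubgroup OnePoint
open scoped MatrixGroups ModularForm ComplexConjugate Manifold

noncomputable section

namespace Gouvea.NF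

variable {k : ℕ}

/-- cusp forms of weight zero vanish -/
theorem eq_zero_of_weight_zero {N : ℕ} (hN : 0 < N) {f : ℍ → ℂ} (hf : f ∈ Sp N 0) : f = 0 := by
  have : NeZero N := ⟨hN.ne'⟩
  obtain ⟨F, rfl⟩ := hf
  let G : ModularForm (Gam0 N) 0 :=
    { toFun := F
      slash_action_eq' := F.slash_action_eq'
      holo' := F.holo'
      bdd_at_cusps' := fun hc g hg => (F.zero_at_cusps' hc g hg).boundedAtFilter }
  obtain ⟨c, hc⟩ := ModularForm.eq_const_of_weight_zero (𝒢 := Gam0 N) G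
  have hc' : (F : ℍ → ℂ) = Function.const ℍ c := hc
  have h0 : IsZeroAtImInfty (F : ℍ → ℂ) := CuspFormClass.zero_at_infty F
  change (F : ℍ → ℂ) = 0
  rw [hc'] at h0 ⊢
  have h1 : c = 0 := tendsto_nhds_unique tendsto_const_nhds h0
  rw [h1]
  rfl

/-! ### The linear maps -/

theorem tri_pos {a b d : ℝ} (h : a * d ≠ 0) (hp : 0 < a * d) : 0 < (tri a b d h).det.val := by
  rw [ES.tri_det]
  exact hp

theorem Tl_add (l : ℕ) [NeZero l] (f g : ℍ → ℂ) : Tl k l (f + g) = Tl k l f + Tl k l g := by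
  unfold Tl
  simp only [SlashAction.add_slash, Finset.sum_add_distrib]
  abel

theorem Tl_smul (l : ℕ) [NeZero l] (c : ℂ) (f : ℍ → ℂ) : Tl k l (c • f) = c • Tl k l f := by
  have hl : (0 : ℝ) < l := by exact_mod_cast Nat.pos_of_ne_zero (NeZero.ne l)
  unfold Tl
  rw [smul_add, Finset.smul_sum, ES.smul_slash_pos (tri_pos _ (by simpa using hl))]
  congr 1
  exact Finset.sum_congr rfl fun b _ => ES.smul_slash_pos (tri_pos _ (by simpa using hl)) _ _ _

/-- `T_l` as a linear map; zero for `l = 0` -/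
def TL (k l : ℕ) : (ℍ → ℂ) →ₗ[ℂ] (ℍ → ℂ) :=
  if h : l = 0 then 0 else
    { toFun := fun f => haveI : NeZero l := ⟨h⟩; Tl k l f
      map_add' := fun f g => haveI : NeZero l := ⟨h⟩; Tl_add l f g
      map_smul' := fun c f => haveI : NeZero l := ⟨h⟩; Tl_smul l c f }

theorem TL_apply (k l : ℕ) [NeZero l] (f : ℍ → ℂ) : TL k l f = Tl k l f := by
  rw [TL, dif_neg (NeZero.ne l)]
  rfl

/-- `B_d` for all `d`; zero for `d = 0` -/
def BL (d : ℕ) : (ℍ → ℂ) →ₗ[ℂ] (ℍ → ℂ) :=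
  if h : d = 0 then 0 else haveI : NeZero d := ⟨h⟩; B d

theorem BL_eq (d : ℕ) [NeZero d] : BL d = B d := by
  rw [BL, dif_neg (NeZero.ne d)]

theorem coe_tri_d (d : ℕ) [NeZero d] (z : ℍ) :
    ((tri d 0 1 (by simp [NeZero.ne d]) • z : ℍ) : ℂ) = d * z := by
  have hd : (0 : ℝ) < d := by exact_mod_cast Nat.pos_of_ne_zero (NeZero.ne d)
  rw [ES.coe_tri_smul _ (by simpa using hd)]
  simp

theorem B_apply_of_eq (d : ℕ) [NeZero d] (f : ℍ → ℂ) (z w : ℍ) (h : (w : ℂ) = d * z) :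
    B d f z = f w := by
  have : (tri d 0 1 (by simp [NeZero.ne d]) • z : ℍ) = w := by
    ext1
    rw [coe_tri_d, h]
  change f (tri d 0 1 _ • z) = f w
  rw [this]

theorem B_one (f : ℍ → ℂ) : B 1 f = f := by
  funext z
  exact B_apply_of_eq 1 f z z (by simp)

theorem B_B (d e : ℕ) [NeZero d] [NeZero e] [NeZero (d * e)] (f : ℍ → ℂ) :
    B d (B e f) = B (d * e) f := by
  funext z
  have h1 : B d (B e f) z = B e f (tri d 0 1 (by simp [NeZero.ne d]) • z) := rfl
  have h2 : B (d * e) f z = f (tri (d * e : ℕ) 0 1 (by simp [NeZero.ne d, NeZero.ne e]) • z) := rfl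
  rw [h1, h2]
  refine B_apply_of_eq e f _ _ ?_
  have h3 := coe_tri_d (d * e) z
  rw [h3, coe_tri_d d z]
  push_cast
  ring

theorem Tl_mem' {N l : ℕ} [NeZero l] (hN : 0 < N) (hl : l.Prime) (h : ¬ l ∣ N) {f : ℍ → ℂ}
    (hf : f ∈ Sp N k) : Tl k l f ∈ Sp N k := by
  have : NeZero N := ⟨hN.ne'⟩
  obtain ⟨F, rfl⟩ := hf
  exact ⟨ES.TlC k hl h F, ES.coe_TlC k hl h F⟩

theorem coef_Tl {N l : ℕ} [NeZero l] (hN : 0 < N) {f : ℍ → ℂ} (hf : f ∈ Sp N k) (n : ℕ) :
    coef (Tl k l f) n = coef f (l * n) +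
      (if l ∣ n then (l : ℂ) ^ (k - 1) * coef f (n / l) else 0) := by
  rw [ES.coef_Tl (qe_of_mem hN hf)]
  congr 1
  rw [mul_ite, mul_zero]
  rcases Nat.eq_zero_or_pos k with rfl | hk
  · have h0 : coef f (n / l) = 0 := by
      rw [eq_zero_of_weight_zero hN hf]
      have := coef_smul (k := 0) hN ((Sp N 0).zero_mem) 0 (n / l)
      rwa [zero_smul, zero_mul] at this
    rw [h0, mul_zero, mul_zero]
  · have h1 : (l : ℂ) ^ ((k : ℤ) - 1) = (l : ℂ) ^ (k - 1) := by
      rw [← zpow_natCast]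
      congr 1
      omega
    rw [h1]

/-! ### The data -/

/-- the data of `DecAbs` -/
def data (P : IP k) : Data (ℍ → ℂ) where
  Sp N := Sp N k
  B := BL
  T := TL k
  coef := coef
  ip := P.ip
  k := k
  fin N hN := finiteDimensional_Sp N (Nat.pos_of_ne_zero hN)
  mono M N hN h := Sp_mono h (Nat.pos_of_ne_zero hN)
  B_one f := by
    rw [BL_eq]
    exact B_one f
  B_mul d e f hd he := by
    have : NeZero d := ⟨hd⟩
    have : NeZero e := ⟨he⟩
    have : NeZero (d * e) := ⟨Nat.mul_ne_zero hd he⟩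
    rw [BL_eq, BL_eq, BL_eq]
    exact B_B d e f
  B_mem M d f hM hd hf := by
    have : NeZero d := ⟨hd⟩
    rw [BL_eq]
    exact B_mem (Nat.pos_of_ne_zero hM) hf
  T_mem N l f hN hl hlN hf := by
    have : NeZero l := ⟨hl.ne_zero⟩
    rw [TL_apply]
    exact Tl_mem' (Nat.pos_of_ne_zero hN) hl hlN hf
  T_comm N l l' f hN hl hlN hl' hlN' hf := by
    have : NeZero l := ⟨hl.ne_zero⟩
    have : NeZero l' := ⟨hl'.ne_zero⟩
    rcases eq_or_ne l l' with rfl | hne
    · rfl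
    · simp only [TL_apply]
      exact ES.Tl_comm (qe_of_mem (Nat.pos_of_ne_zero hN) hf) k ((Nat.coprime_primes hl hl').2 hne)
  T_B N l d f hN hd hl hlN hld hf := by
    have : NeZero l := ⟨hl.ne_zero⟩
    have : NeZero d := ⟨hd⟩
    simp only [TL_apply, BL_eq, B_eq_Vl]
    exact ES.Tl_Vl_comm (qe_of_mem (Nat.pos_of_ne_zero hN) hf) k
      ((Nat.Prime.coprime_iff_not_dvd hl).2 hld).symm
  coef_add N f g n hN hf hg := coef_add (Nat.pos_of_ne_zero hN) hf hg n
  coef_smul N c f n hN hf := coef_smul (Nat.pos_of_ne_zero hN) hf c n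
  coef_zero N f hN hf := coef_zero (Nat.pos_of_ne_zero hN) hf
  coef_ext N f hN hf h := by
    refine coef_ext (Nat.pos_of_ne_zero hN) (Nat.pos_of_ne_zero hN) hf ((Sp N k).zero_mem)
      fun n => ?_
    have h1 := coef_smul (Nat.pos_of_ne_zero hN) ((Sp N k).zero_mem) 0 n
    rw [zero_smul, zero_mul] at h1
    rw [h n, h1]
  coef_B N d f n hN hd hf := by
    have : NeZero d := ⟨hd⟩
    rw [BL_eq]
    exact coef_B (Nat.pos_of_ne_zero hN) hf n
  coef_T N l f n hN hl hlN hf := by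
    have : NeZero l := ⟨hl.ne_zero⟩
    rw [TL_apply]
    exact coef_Tl (Nat.pos_of_ne_zero hN) hf n
  ip_add N f g h hN hf hg hh := P.add_right f g h (InV_of_mem (Nat.pos_of_ne_zero hN) hf)
    (InV_of_mem (Nat.pos_of_ne_zero hN) hg) (InV_of_mem (Nat.pos_of_ne_zero hN) hh)
  ip_smul N c f g hN hf hg := P.smul_right c f g (InV_of_mem (Nat.pos_of_ne_zero hN) hf)
    (InV_of_mem (Nat.pos_of_ne_zero hN) hg)
  ip_conj N f g hN hf hg := P.symm f g (InV_of_mem (Nat.pos_of_ne_zero hN) hf)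
    (InV_of_mem (Nat.pos_of_ne_zero hN) hg)
  ip_def N f hN hf h := by
    by_contra hne
    have := P.pos f (InV_of_mem (Nat.pos_of_ne_zero hN) hf) hne
    rw [h] at this
    simp at this
  ip_T N l f g hN hl hlN hf hg := by
    have : NeZero l := ⟨hl.ne_zero⟩
    simp only [TL_apply]
    exact ip_Tl P (Nat.pos_of_ne_zero hN) hl hlN hf hg

theorem data_Sp (P : IP k) (N : ℕ) : (data P).Sp N = Sp N k := rfl

theorem data_coef (P : IP k) : (data P).coef = coef := rfl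

theorem data_ip (P : IP k) : (data P).ip = P.ip := rfl

theorem data_B (P : IP k) (d : ℕ) [NeZero d] : (data P).B d = B d := BL_eq d

theorem data_T (P : IP k) (l : ℕ) [NeZero l] (f : ℍ → ℂ) : (data P).T l f = Tl k l f :=
  TL_apply k l f

theorem data_pos (P : IP k) : (data P).Pos :=
  fun _ hN f hf hne => P.pos f (InV_of_mem (Nat.pos_of_ne_zero hN) hf) hne

theorem data_spec (P : IP k) : Data.Spec (data P) := Data.spec_of_pos (data_pos P)

theorem ip_symm_zero (P : IP k) {N : ℕ} (hN : 0 < N) {f g : ℍ → ℂ} (hf : f ∈ Sp N k)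
    (hg : g ∈ Sp N k) (h : P.ip f g = 0) : P.ip g f = 0 := by
  rw [P.symm f g (InV_of_mem hN hf) (InV_of_mem hN hg), h, map_zero]

theorem lold_le_old (P : IP k) {N : ℕ} (l : ℕ) [NeZero l] (hl : l.Prime) (hlN : l ∣ N) :
    lold l N k ≤ (data P).old N := by
  rw [lold, if_pos hlN]
  refine le_trans ?_ (le_iSup_of_le l (le_iSup_of_le hl (le_iSup_of_le hlN le_rfl)))
  rw [data_B, data_Sp]

theorem old_le_of {P : IP k} {N : ℕ} {W : Submodule ℂ (ℍ → ℂ)}
    (h : ∀ (l : ℕ) [NeZero l], l.Prime → l ∣ N → lold l N k ≤ W) : (data P).old N ≤ W := by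
  refine iSup_le fun l => iSup_le fun hl => iSup_le fun hlN => ?_
  have : NeZero l := ⟨hl.ne_zero⟩
  refine le_trans ?_ (h l hl hlN)
  rw [lold, if_pos hlN, data_B, data_Sp]

/-- `New` is orthogonality to the old forms -/
theorem new_iff (P : IP k) {N : ℕ} (hN : 0 < N) {f : ℍ → ℂ} :
    New P N f ↔ f ∈ Sp N k ∧ ∀ g ∈ (data P).old N, P.ip f g = 0 := by
  have hle : (data P).old N ≤ Sp N k := (data P).old_le hN.ne'
  constructor
  · rintro ⟨hf, h⟩
    refine ⟨hf, ?_⟩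
    let W : Submodule ℂ (ℍ → ℂ) :=
      { carrier := {g | g ∈ Sp N k ∧ P.ip f g = 0}
        add_mem' := by
          rintro a b ⟨ha, ha'⟩ ⟨hb, hb'⟩
          exact ⟨(Sp N k).add_mem ha hb, by
            rw [P.add_right f a b (InV_of_mem hN hf) (InV_of_mem hN ha) (InV_of_mem hN hb),
              ha', hb', add_zero]⟩
        zero_mem' := ⟨(Sp N k).zero_mem, by
          have := P.smul_right 0 f 0 (InV_of_mem hN hf) (InV_of_mem hN ((Sp N k).zero_mem))
          rwa [zero_smul, zero_mul] at this⟩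
        smul_mem' := by
          rintro c a ⟨ha, ha'⟩
          exact ⟨(Sp N k).smul_mem c ha, by
            rw [P.smul_right c f a (InV_of_mem hN hf) (InV_of_mem hN ha), ha', mul_zero]⟩ }
    have hW : (data P).old N ≤ W := by
      refine old_le_of fun l _ hl hlN g hg => ?_
      have hgS : g ∈ Sp N k := hle (lold_le_old P l hl hlN hg)
      exact ⟨hgS, ip_symm_zero P hN hgS hf (h l hl hlN g hg)⟩
    exact fun g hg => (hW hg).2
  · rintro ⟨hf, h⟩
    refine ⟨hf, fun l _ hl hlN g hg => ?_⟩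
    have hg' := lold_le_old P l hl hlN hg
    exact ip_symm_zero P hN hf (hle hg') (h g hg')

/-- The two multiplicity one theorems (module N5), as a hypothesis. -/
structure MultHyp (P : IP k) : Prop where
  mult_one : ∀ {N D : ℕ} (_ : 0 < N) (_ : 0 < D) {f : ℍ → ℂ} (_ : New P N f)
    (_ : ∀ n, n.Coprime D → coef f n = 0), f = 0
  mult_two : ∀ {M₁ M₂ D : ℕ} (_ : 0 < M₁) (_ : 0 < M₂) (_ : 0 < D) {f₁ f₂ : ℍ → ℂ}
    (_ : New P M₁ f₁) (_ : New P M₂ f₂) (_ : ∀ n, n.Coprime D → coef f₁ n = coef f₂ n)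
    (_ : coef f₁ 1 ≠ 0), M₁ = M₂

theorem data_mult (P : IP k) (H : MultHyp P) : (data P).Mult where
  mult N D' f hN hD hf ho hc :=
    H.mult_one (Nat.pos_of_ne_zero hN) (Nat.pos_of_ne_zero hD)
      ((new_iff P (Nat.pos_of_ne_zero hN)).2 ⟨hf, ho⟩) hc
  mult2 M₁ M₂ D' f₁ f₂ h1 h2 hD hf₁ hf₂ ho₁ ho₂ hc hne := by
    have h : M₁ = M₂ := by
      refine H.mult_two (Nat.pos_of_ne_zero h1) (Nat.pos_of_ne_zero h2) (Nat.pos_of_ne_zero hD)
        ((new_iff P (Nat.pos_of_ne_zero h1)).2 ⟨hf₁, ho₁⟩)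
        ((new_iff P (Nat.pos_of_ne_zero h2)).2 ⟨hf₂, ho₂⟩) hc ?_
      have h3 := hc 1 (Nat.coprime_one_left D')
      change coef f₁ 1 = coef f₂ 1 at h3
      rw [h3]
      exact hne
    rw [h]

/-! ### Newforms -/

/-- the old forms as functions -/
theorem map_old (P : IP k) {N : ℕ} (hN : 0 < N) :
    (old N k).map (coeL N k) = (data P).old N := by
  apply le_antisymm
  · rw [Submodule.map_le_iff_le_comap, old, Submodule.span_le]
    rintro f ⟨l, hl, hlN, g, hg⟩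
    have : NeZero l := ⟨hl.ne_zero⟩
    rw [SetLike.mem_coe, Submodule.mem_comap, coeL_apply]
    refine lold_le_old P l hl hlN ?_
    rw [lold, if_pos hlN]
    rcases hg with hg | hg
    · have : (f : ℍ → ℂ) = g := funext hg
      rw [this]
      exact Submodule.mem_sup_left (coe_mem_Sp g)
    · have : (f : ℍ → ℂ) = B l g := by
        funext z
        exact hg z _ (coe_tri_d l z)
      rw [this]
      exact Submodule.mem_sup_right ⟨_, coe_mem_Sp g, rfl⟩
  · refine old_le_of fun l _ hl hlN => ?_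
    have h0 : 0 < N / l := Nat.div_pos (Nat.le_of_dvd hN hlN) hl.pos
    rw [lold, if_pos hlN]
    refine sup_le ?_ ?_
    · rintro h hh
      obtain ⟨g, rfl⟩ := hh
      obtain ⟨F, hF⟩ := Sp_mono (Nat.div_dvd_of_dvd hlN) hN (coe_mem_Sp g)
      refine ⟨F, Submodule.subset_span ⟨l, hl, hlN, g, Or.inl fun z => congrFun hF z⟩, hF⟩
    · rintro _ ⟨h, hh, rfl⟩
      obtain ⟨g, rfl⟩ := hh
      have h1 : B l (g : ℍ → ℂ) ∈ Sp N k := by
        have := B_mem (d := l) h0 (coe_mem_Sp g)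
        rwa [Nat.div_mul_cancel hlN] at this
      obtain ⟨F, hF⟩ := h1
      refine ⟨F, Submodule.subset_span ⟨l, hl, hlN, g, Or.inr fun z w hw => ?_⟩, hF⟩
      rw [← B_apply_of_eq l g z w hw]
      exact congrFun hF z

theorem mem_old_iff (P : IP k) {N : ℕ} (hN : 0 < N) (G : Cusp N k) :
    G ∈ old N k ↔ (G : ℍ → ℂ) ∈ (data P).old N := by
  rw [← map_old P hN]
  constructor
  · intro h
    exact ⟨G, h, rfl⟩
  · rintro ⟨G', h, hG⟩
    rwa [← coeL_injective N k hG]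

theorem pet_eq_zero_iff (P : IP k) {N : ℕ} (hN : 0 < N) (f g : Cusp N k) :
    pet N k f g = 0 ↔ P.ip f g = 0 := by
  obtain ⟨c, hc, h⟩ := P.pet N hN
  rw [h f g, mul_eq_zero, or_iff_right]
  exact_mod_cast hc.ne'

/-- newforms of the data are newforms -/
theorem isNF_iff (P : IP k) {N : ℕ} (hN : 0 < N) (F : Cusp N k) :
    (data P).IsNF N F ↔ IsNewform N k F := by
  constructor
  · intro h
    refine ⟨h.norm, fun l _ hl hlN => ?_, fun g hg => ?_⟩
    · obtain ⟨a, ha⟩ := h.eig l hl hlN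
      exact ⟨a, by rw [← data_T P, ha]⟩
    · rw [pet_eq_zero_iff P hN]
      exact h.orth g ((mem_old_iff P hN g).1 hg)
  · intro h
    refine ⟨coe_mem_Sp F, fun g hg => ?_, h.norm, fun l hl hlN => ?_⟩
    · obtain ⟨G, rfl⟩ := (data P).old_le hN.ne' hg
      exact (pet_eq_zero_iff P hN F G).1 (h.new G ((mem_old_iff P hN G).2 hg))
    · have : NeZero l := ⟨hl.ne_zero⟩
      obtain ⟨a, ha⟩ := h.eigen l hl hlN
      exact ⟨a, by rw [data_T P, ha]⟩

theorem exists_isNF_iff (P : IP k) {N : ℕ} (hN : 0 < N) (f : ℍ → ℂ) :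
    (data P).IsNF N f ↔ ∃ F : Cusp N k, IsNewform N k F ∧ ⇑F = f := by
  constructor
  · intro h
    obtain ⟨F, hF⟩ := mem_Sp.1 h.mem
    refine ⟨F, (isNF_iff P hN F).1 ?_, hF⟩
    rwa [hF]
  · rintro ⟨F, hF, rfl⟩
    exact (isNF_iff P hN F).2 hF

end Gouvea.NF
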