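import Pool.Agent.Work.MP_d3517d_nt.NF.DecInst
import Pool.Agent.Work.MP_d3517d_nt.ES.Mult2

/-!
# The basis theorem for newforms, for Mathlib's cusp forms

`exists_basis'`: the forms `f(dz)`, `f` a newform of level `M ∣ N`, `d ∣ N / M`, are a basis of
`Cusp N k`. `Sys_cusp`, `card_filter_Sys`, `count_newforms`: the systems of eigenvalues of the
Hecke operators and newforms.
-/

open UpperHalfPlane CongruenceSubgroup OnePoint Module
open scoped MatrixGroups ModularForm ComplexConjugate Manifold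

noncomputable section

namespace Gouvea.NF

variable {k : ℕ}

/-- the index set: `M ∣ N`, a newform of level `M`, `d ∣ N / M` -/
abbrev Idx (N k : ℕ) : Type :=
  Σ M : {M : ℕ // M ∣ N}, {f : Cusp M k // IsNewform M k f} × {d : ℕ // d ∣ N / M}

/-- the index set of `DecAbs` -/
def toIdx (P : IP k) {N : ℕ} (hN : 0 < N) (i : Idx N k) : Data.Idx (data P) N :=
  ⟨(i.1.1, (⇑i.2.1.1 : ℍ → ℂ), i.2.2.1),
    (isNF_iff P (Nat.pos_of_dvd_of_pos i.1.2 hN) i.2.1.1).2 i.2.1.2,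
    (Nat.dvd_div_iff_mul_dvd i.1.2).1 i.2.2.2⟩

theorem toIdx_bijective (P : IP k) {N : ℕ} (hN : 0 < N) :
    Function.Bijective (toIdx (k := k) P hN) := by
  constructor
  · rintro ⟨⟨M, hM⟩, ⟨f, hf⟩, ⟨d, hd⟩⟩ ⟨⟨M', hM'⟩, ⟨f', hf'⟩, ⟨d', hd'⟩⟩ h
    have h1 : (M, (⇑f : ℍ → ℂ), d) = (M', (⇑f' : ℍ → ℂ), d') := congrArg Subtype.val h
    obtain ⟨rfl, h2⟩ := Prod.ext_iff.1 h1
    obtain ⟨h3, h4⟩ := Prod.ext_iff.1 h2
    have h5 : f = f' := DFunLike.coe_injective h3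
    have h6 : d = d' := h4
    subst h5 h6
    rfl
  · rintro ⟨⟨M, f, d⟩, hf, hd⟩
    have hM : M ∣ N := (Dvd.intro _ rfl).trans hd
    obtain ⟨F, hF, rfl⟩ := (exists_isNF_iff P (Nat.pos_of_dvd_of_pos hM hN) f).1 hf
    exact ⟨⟨⟨M, hM⟩, ⟨F, hF⟩, ⟨d, (Nat.dvd_div_iff_mul_dvd hM).2 hd⟩⟩, rfl⟩

theorem Idx_d_pos {N : ℕ} (hN : 0 < N) (i : Idx N k) : 0 < i.2.2.1 :=
  Nat.pos_of_dvd_of_pos i.2.2.2
    (Nat.div_pos (Nat.le_of_dvd hN i.1.2) (Nat.pos_of_dvd_of_pos i.1.2 hN))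

/-- `Sp N k` and `Cusp N k` -/
def equivSp (N k : ℕ) : Cusp N k ≃ₗ[ℂ] Sp N k :=
  LinearEquiv.ofInjective (coeL N k) (coeL_injective N k)

theorem coe_equivSp (N k : ℕ) (f : Cusp N k) : ((equivSp N k f : Sp N k) : ℍ → ℂ) = f := rfl

theorem coe_equivSp_symm (N k : ℕ) (f : Sp N k) : ⇑((equivSp N k).symm f) = (f : ℍ → ℂ) := by
  rw [← coe_equivSp, LinearEquiv.apply_symm_apply]

/-- the basis of `(data P).Sp N` -/
def spBasis₀ (P : IP k) (H : MultHyp P) {N : ℕ} (hN : 0 < N) :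
    Basis (Idx N k) ℂ ((data P).Sp N) :=
  (Data.nfBasis (data_mult P H) (data_spec P) hN.ne').reindex
    (Equiv.ofBijective _ (toIdx_bijective P hN)).symm

theorem coe_spBasis₀ (P : IP k) (H : MultHyp P) {N : ℕ} (hN : 0 < N) (i : Idx N k) :
    ((spBasis₀ P H hN i : (data P).Sp N) : ℍ → ℂ) = BL i.2.2.1 (i.2.1.1 : ℍ → ℂ) := by
  rw [spBasis₀, Basis.reindex_apply, Equiv.symm_symm, Data.nfBasis_apply]
  rfl

/-- the basis of `Sp N k` -/
def spBasis (P : IP k) (H : MultHyp P) {N : ℕ} (hN : 0 < N) : Basis (Idx N k) ℂ (Sp N k) :=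
  spBasis₀ P H hN

theorem coe_spBasis (P : IP k) (H : MultHyp P) {N : ℕ} (hN : 0 < N) (i : Idx N k) :
    ((spBasis P H hN i : Sp N k) : ℍ → ℂ) = BL i.2.2.1 (i.2.1.1 : ℍ → ℂ) :=
  coe_spBasis₀ P H hN i

/-- the basis of `Cusp N k` -/
def cuspBasis (P : IP k) (H : MultHyp P) {N : ℕ} (hN : 0 < N) : Basis (Idx N k) ℂ (Cusp N k) :=
  (spBasis P H hN).map (equivSp N k).symm

theorem coe_cuspBasis (P : IP k) (H : MultHyp P) {N : ℕ} (hN : 0 < N) (i : Idx N k) :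
    ⇑(cuspBasis P H hN i) = BL i.2.2.1 (i.2.1.1 : ℍ → ℂ) := by
  rw [cuspBasis, Basis.map_apply, coe_equivSp_symm, coe_spBasis]

theorem cuspBasis_apply (P : IP k) (H : MultHyp P) {N : ℕ} (hN : 0 < N) (i : Idx N k)
    (z w : ℍ) (h : (w : ℂ) = (i.2.2 : ℕ) * z) : cuspBasis P H hN i z = i.2.1.1 w := by
  have : NeZero i.2.2.1 := ⟨(Idx_d_pos hN i).ne'⟩
  rw [coe_cuspBasis, BL_eq]
  exact B_apply_of_eq _ _ z w h

theorem Tl_cuspBasis (P : IP k) (H : MultHyp P) {N : ℕ} (hN : 0 < N) (i : Idx N k) (l : ℕ)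
    [NeZero l] (hl : l.Prime) (hlN : ¬ l ∣ N) :
    Tl k l (cuspBasis P H hN i) = coef i.2.1.1 l • ⇑(cuspBasis P H hN i) := by
  rw [coe_cuspBasis, ← data_T P]
  exact ((isNF_iff P (Nat.pos_of_dvd_of_pos i.1.2 hN) i.2.1.1).2 i.2.1.2).eigB hN.ne'
    ((Nat.dvd_div_iff_mul_dvd i.1.2).1 i.2.2.2) hl hlN

/-- **The basis theorem.** -/
theorem exists_basis' (P : IP k) (H : MultHyp P) (N : ℕ) (hN : 0 < N) :
    ∃ b : Basis (Idx N k) ℂ (Cusp N k),
      (∀ i : Idx N k, ∀ z w : ℍ, (w : ℂ) = (i.2.2 : ℕ) * z → b i z = i.2.1.1 w) ∧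
      ∀ (i : Idx N k) (l : ℕ) [NeZero l], l.Prime → ¬ l ∣ N →
        Tl k l (b i) = coef i.2.1.1 l • ⇑(b i) :=
  ⟨cuspBasis P H hN, cuspBasis_apply P H hN, fun i l _ hl hlN => Tl_cuspBasis P H hN i l hl hlN⟩

theorem Tl_newform' (P : IP k) {N l : ℕ} [NeZero l] (hN : 0 < N) (hl : l.Prime) (h : ¬ l ∣ N)
    {f : Cusp N k} (hf : IsNewform N k f) : Tl k l f = coef f l • ⇑f := by
  rw [← data_T P]
  exact ((isNF_iff P hN f).2 hf).eig' hN.ne' hl h

theorem finite_Idx (P : IP k) (H : MultHyp P) {N : ℕ} (hN : 0 < N) : Finite (Idx N k) := by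
  have := finite_Cusp (k := k) N hN
  exact (cuspBasis P H hN).linearIndependent.finite

theorem finite_newforms (P : IP k) (H : MultHyp P) {N : ℕ} (hN : 0 < N) :
    {f : Cusp N k | IsNewform N k f}.Finite := by
  have h := Data.finite_nf (data_mult P H) hN.ne'
  refine Set.Finite.of_finite_image (f := fun f : Cusp N k => (f : ℍ → ℂ)) ?_
    (DFunLike.coe_injective.injOn)
  refine h.subset ?_
  rintro _ ⟨f, hf, rfl⟩
  exact (isNF_iff P hN f).2 hf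

theorem cnt_data (P : IP k) {N : ℕ} (hN : 0 < N) (Q : (ℍ → ℂ) → Prop) :
    (data P).cnt N Q = Set.ncard {f : Cusp N k | IsNewform N k f ∧ Q f} := by
  rw [Data.cnt]
  have h1 : {f : ℍ → ℂ | (data P).IsNF N f ∧ Q f} =
      (fun f : Cusp N k => (f : ℍ → ℂ)) '' {f : Cusp N k | IsNewform N k f ∧ Q f} := by
    ext f
    constructor
    · rintro ⟨h, hQ⟩
      obtain ⟨F, hF, rfl⟩ := (exists_isNF_iff P hN f).1 h
      exact ⟨F, ⟨hF, hQ⟩, rfl⟩
    · rintro ⟨F, ⟨hF, hQ⟩, rfl⟩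
      exact ⟨(isNF_iff P hN F).2 hF, hQ⟩
  rw [h1, Set.ncard_image_of_injective _ DFunLike.coe_injective]

theorem tot_data (P : IP k) {N : ℕ} (hN : 0 < N) (Q : (ℍ → ℂ) → Prop) :
    (data P).tot N Q = Set.ncard {i : Idx N k | Q i.2.1.1} := by
  rw [Data.tot]
  have h1 : {x : ℕ × (ℍ → ℂ) × ℕ | x ∈ Data.Idx (data P) N ∧ Q x.2.1} =
      (fun i : Idx N k => (toIdx P hN i).1) '' {i : Idx N k | Q i.2.1.1} := by
    ext x
    constructor
    · rintro ⟨h, hQ⟩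
      obtain ⟨i, hi⟩ := (toIdx_bijective P hN).2 ⟨x, h⟩
      refine ⟨i, ?_, congrArg Subtype.val hi⟩
      have h2 : x = (toIdx P hN i).1 := (congrArg Subtype.val hi).symm
      rw [h2] at hQ
      exact hQ
    · rintro ⟨i, hQ, rfl⟩
      exact ⟨(toIdx P hN i).2, hQ⟩
  rw [h1, Set.ncard_image_of_injective]
  exact Subtype.val_injective.comp (toIdx_bijective P hN).1

/-! ### Systems of eigenvalues -/

section Sys

variable {ι : Type*} (q : ι → ℕ)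

/-- the system of eigenvalues of `f` -/
def ev (f : ℍ → ℂ) : MvPolynomial ι ℤ →+* ℂ :=
  MvPolynomial.eval₂Hom (Int.castRingHom ℂ) (fun i => coef f (q i))

theorem ev_X (f : ℍ → ℂ) (i : ι) : ev q f (MvPolynomial.X i) = coef f (q i) := by
  simp [ev]

/-- an eigenvector of the generators is an eigenvector -/
theorem eigen_of_X {V : Type*} [AddCommGroup V] [Module ℂ V]
    (ρ : MvPolynomial ι ℤ →+* Module.End ℂ V) (χ : MvPolynomial ι ℤ →+* ℂ) (v : V)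
    (h : ∀ i, ρ (MvPolynomial.X i) v = χ (MvPolynomial.X i) • v) (r : MvPolynomial ι ℤ) :
    ρ r v = χ r • v := by
  induction r using MvPolynomial.induction_on with
  | C n =>
    have h1 : (MvPolynomial.C n : MvPolynomial ι ℤ) = (n : MvPolynomial ι ℤ) := by simp
    rw [h1, map_intCast, map_intCast]
    simp [Int.cast_smul_eq_zsmul]
  | add a b ha hb => rw [map_add, map_add, LinearMap.add_apply, ha, hb, add_smul]
  | mul_X a i ha =>
    rw [map_mul, map_mul, Module.End.mul_apply, h i, LinearMap.map_smul, ha, smul_smul, mul_comm]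

variable {q}

/-- **Systems of eigenvalues on cusp forms.** -/
theorem Sys_cusp (P : IP k) (H : MultHyp P) {N : ℕ} (hN : 0 < N) [Fintype (Idx N k)]
    [FiniteDimensional ℂ (Cusp N k)] [∀ i, NeZero (q i)] (hq : ∀ i, (q i).Prime)
    (hqN : ∀ i, ¬ q i ∣ N) (ρ : MvPolynomial ι ℤ →+* Module.End ℂ (Cusp N k))
    (hρ : ∀ i (f : Cusp N k), ⇑(ρ (MvPolynomial.X i) f) = Tl k (q i) f) :
    Gouvea.Sys.Sys ρ = Finset.univ.val.map fun i : Idx N k => ev q i.2.1.1 := by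
  refine Gouvea.Sys.Sys_of_basis (cuspBasis P H hN) _ fun j r => ?_
  refine eigen_of_X ρ _ _ (fun i => ?_) r
  refine DFunLike.coe_injective ?_
  rw [hρ, Tl_cuspBasis P H hN j (q i) (hq i) (hqN i), ev_X]
  rfl

theorem card_filter_Sys_eq_tot (P : IP k) (H : MultHyp P) {N : ℕ} (hN : 0 < N)
    [FiniteDimensional ℂ (Cusp N k)] [∀ i, NeZero (q i)] (hq : ∀ i, (q i).Prime)
    (hqN : ∀ i, ¬ q i ∣ N) (ρ : MvPolynomial ι ℤ →+* Module.End ℂ (Cusp N k))
    (hρ : ∀ i (f : Cusp N k), ⇑(ρ (MvPolynomial.X i) f) = Tl k (q i) f)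
    (Q : (MvPolynomial ι ℤ →+* ℂ) → Prop) [DecidablePred Q] :
    ((Gouvea.Sys.Sys ρ).filter Q).card = (data P).tot N (fun f => Q (ev q f)) := by
  classical
  have := finite_Idx P H hN
  have := Fintype.ofFinite (Idx N k)
  rw [Sys_cusp P H hN hq hqN ρ hρ, Multiset.filter_map, Multiset.card_map, tot_data P hN]
  have h1 : {i : Idx N k | Q (ev q i.2.1.1)} =
      ((Finset.univ.filter fun i : Idx N k => Q (ev q i.2.1.1) : Finset (Idx N k)) :
        Set (Idx N k)) := by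
    ext i
    simp
  rw [h1, Set.ncard_coe_finset]
  rfl

/-- The systems of level `N` with property `Q` and newforms of the levels `M ∣ N`. -/
theorem card_filter_Sys_cusp (P : IP k) (H : MultHyp P) {N : ℕ} (hN : 0 < N)
    [FiniteDimensional ℂ (Cusp N k)] [∀ i, NeZero (q i)] (hq : ∀ i, (q i).Prime)
    (hqN : ∀ i, ¬ q i ∣ N) (ρ : MvPolynomial ι ℤ →+* Module.End ℂ (Cusp N k))
    (hρ : ∀ i (f : Cusp N k), ⇑(ρ (MvPolynomial.X i) f) = Tl k (q i) f)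
    (Q : (MvPolynomial ι ℤ →+* ℂ) → Prop) [DecidablePred Q] :
    ((Gouvea.Sys.Sys ρ).filter Q).card = ∑ M ∈ N.divisors, (N / M).divisors.card *
      Set.ncard {f : Cusp M k | IsNewform M k f ∧ Q (ev q f)} := by
  rw [card_filter_Sys_eq_tot P H hN hq hqN ρ hρ, Data.tot_eq (data_mult P H) hN.ne']
  refine Finset.sum_congr rfl fun M hM => ?_
  rw [cnt_data P (Nat.pos_of_mem_divisors hM)]

/-- **The number of newforms** in terms of the systems of the levels `M ∣ N`. -/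
theorem count_newforms (P : IP k) (H : MultHyp P) {N : ℕ} (hN : 0 < N)
    [∀ M : ℕ, FiniteDimensional ℂ (Cusp M k)] [∀ i, NeZero (q i)] (hq : ∀ i, (q i).Prime)
    (hqN : ∀ i, ¬ q i ∣ N) (ρ : ∀ M : ℕ, MvPolynomial ι ℤ →+* Module.End ℂ (Cusp M k))
    (hρ : ∀ M, M ∣ N → ∀ i (f : Cusp M k), ⇑(ρ M (MvPolynomial.X i) f) = Tl k (q i) f)
    (Q : (MvPolynomial ι ℤ →+* ℂ) → Prop) [DecidablePred Q] :
    (Set.ncard {f : Cusp N k | IsNewform N k f ∧ Q (ev q f)} : ℤ) =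
      ∑ x ∈ N.divisorsAntidiagonal,
        (ArithmeticFunction.moebius * ArithmeticFunction.moebius) x.1 *
          (((Gouvea.Sys.Sys (ρ x.2)).filter Q).card : ℤ) := by
  rw [← cnt_data P hN (fun f => Q (ev q f)), Data.cnt_eq (data_mult P H) hN.ne']
  refine Finset.sum_congr rfl fun x hx => ?_
  have h1 := Nat.mem_divisorsAntidiagonal.1 hx
  have h2 : x.2 ∣ N := Dvd.intro_left _ h1.1
  have h3 : 0 < x.2 := Nat.pos_of_dvd_of_pos h2 hN
  rw [card_filter_Sys_eq_tot P H h3 hq (fun i h => hqN i (h.trans h2)) (ρ x.2) (hρ _ h2)]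

end Sys

end Gouvea.NF
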