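import Mathlib

/-!
# Representatives of `Γ₀(M q) \ Γ₀(M)` inside `{M l ∣ c, l ∣ b}`
-/

open CongruenceSubgroup
open scoped MatrixGroups

namespace Gouvea.NF

theorem mem_Gamma0_iff {N : ℕ} {A : SL(2, ℤ)} : A ∈ Gamma0 N ↔ (N : ℤ) ∣ A 1 0 := by
  rw [Gamma0_mem, ZMod.intCast_zmod_eq_zero_iff_dvd]

/-- the lower left entry of `g h⁻¹` -/
theorem mul_inv_lower (g h : SL(2, ℤ)) :
    (g * h⁻¹) 1 0 = g 1 0 * h 1 1 - g 1 1 * h 1 0 := by
  rw [Matrix.SpecialLinearGroup.coe_mul, Matrix.SpecialLinearGroup.coe_inv,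
    Matrix.adjugate_fin_two, Matrix.mul_apply, Fin.sum_univ_two]
  simp
  ring

/-- Every right coset of `Γ₀(M q)` in `Γ₀(M)` contains a matrix whose lower left entry is divisible
by `M l`, and whose upper right entry is divisible by `l`, where `l`, `q` are different primes. -/
theorem exists_rep' {M l q : ℕ} (hl : l.Prime) (hq : q.Prime) (hlq : q ≠ l) {g : SL(2, ℤ)}
    (hg : g ∈ Gamma0 M) : ∃ h : SL(2, ℤ), ((M * l : ℕ) : ℤ) ∣ h 1 0 ∧ (l : ℤ) ∣ h 0 1 ∧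
      g * h⁻¹ ∈ Gamma0 (M * q) := by
  rw [mem_Gamma0_iff] at hg
  obtain ⟨c0, hc0⟩ := hg
  have hcop : IsCoprime (l : ℤ) (q : ℤ) :=
    Nat.isCoprime_iff_coprime.2 ((Nat.coprime_primes hl hq).2 (Ne.symm hlq))
  have hqp : Prime (q : ℤ) := Nat.prime_iff_prime_int.1 hq
  have hdet : g 0 0 * g 1 1 - g 0 1 * g 1 0 = 1 := by
    have := g.det_coe
    rwa [Matrix.det_fin_two] at this
  by_cases hd : (q : ℤ) ∣ g 1 1
  · -- `q` divides `d`
    have hqM : ¬ (q : ℤ) ∣ (M : ℤ) := by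
      intro h
      have h1 : (q : ℤ) ∣ g 1 0 := by
        rw [hc0]
        exact h.mul_right _
      have h2 : (q : ℤ) ∣ 1 := by
        rw [← hdet]
        exact (hd.mul_left _).sub (h1.mul_left _)
      exact hqp.not_isUnit (isUnit_of_dvd_one h2)
    have hcopM : IsCoprime (q : ℤ) (M : ℤ) :=
      (Prime.coprime_iff_not_dvd hqp).2 hqM
    have hcop2 : IsCoprime (q : ℤ) ((M : ℤ) * l * l) :=
      (hcopM.mul_right hcop.symm).mul_right hcop.symm
    obtain ⟨a, b, hab⟩ := hcop2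
    refine ⟨⟨!![a, -(b * l); (M : ℤ) * l, q], ?_⟩, ?_, ?_, ?_⟩
    · rw [Matrix.det_fin_two_of]
      rw [← hab]
      ring
    · simp
    · simp
    · rw [mem_Gamma0_iff, mul_inv_lower]
      simp only [Matrix.of_apply, Matrix.cons_val', Matrix.cons_val_zero, Matrix.cons_val_one,
        Matrix.cons_val_fin_one]
      rw [hc0]
      obtain ⟨d0, hd0⟩ := hd
      rw [hd0]
      exact ⟨c0 - d0 * l, by push_cast; ring⟩
  · -- `q` does not divide `d`
    have hcopd : IsCoprime (q : ℤ) (g 1 1) := (Prime.coprime_iff_not_dvd hqp).2 hd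
    have hcop2 : IsCoprime (q : ℤ) ((l : ℤ) * g 1 1) := hcop.symm.mul_right hcopd
    obtain ⟨a, b, hab⟩ := hcop2
    -- `b` is the inverse of `l d` modulo `q`
    refine ⟨⟨!![1, 0; (M : ℤ) * l * (b * c0), 1], ?_⟩, ?_, ?_, ?_⟩
    · rw [Matrix.det_fin_two_of]
      ring
    · simp only [Matrix.of_apply, Matrix.cons_val', Matrix.cons_val_zero, Matrix.cons_val_one,
        Matrix.cons_val_fin_one]
      push_cast
      exact Dvd.intro _ rfl
    · simp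
    · rw [mem_Gamma0_iff, mul_inv_lower]
      simp only [Matrix.of_apply, Matrix.cons_val', Matrix.cons_val_zero, Matrix.cons_val_one,
        Matrix.cons_val_fin_one]
      rw [hc0]
      refine ⟨c0 * a, ?_⟩
      push_cast
      linear_combination (-(M : ℤ) * c0) * hab

/-- The same with `N = M l`. -/
theorem exists_rep {N l q : ℕ} (hl : l.Prime) (hlN : l ∣ N) (hq : q.Prime) (hlq : q ≠ l)
    {g : SL(2, ℤ)} (hg : g ∈ Gamma0 (N / l)) : ∃ h : SL(2, ℤ), (N : ℤ) ∣ h 1 0 ∧ (l : ℤ) ∣ h 0 1 ∧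
      g * h⁻¹ ∈ Gamma0 (N / l * q) := by
  obtain ⟨h, h1, h2, h3⟩ := exists_rep' hl hq hlq hg
  rw [Nat.div_mul_cancel hlN] at h1
  exact ⟨h, h1, h2, h3⟩

/-- Every right coset of `Γ₀(M q)` in `Γ₀(M)` has a representative in `{M l ∣ c, l ∣ b}`. -/
def GoodRep (M l q : ℕ) : Prop :=
  ∀ g ∈ Gamma0 M, ∃ s : SL(2, ℤ), ((M * l : ℕ) : ℤ) ∣ s 1 0 ∧ (l : ℤ) ∣ s 0 1 ∧
    g * s⁻¹ ∈ Gamma0 (M * q)

theorem goodRep (M l q : ℕ) (_hM : M ≠ 0) (hl : l.Prime) (hq : q.Prime) (h : l ≠ q) :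
    GoodRep M l q :=
  fun _ hg => exists_rep' hl hq h.symm hg

end Gouvea.NF
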