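import Pool.Agent.Work.MP_d3517d_nt.NF.PetFd
import Pool.Agent.Work.MP_d3517d_nt.NF.IpDefs
import Pool.Agent.Work.MP_d3517d_nt.NF.Defs

/-!
# The level independent Petersson product (MP_d3517d_nt): invariance under `GL₂(ℚ)⁺`
-/

open MeasureTheory UpperHalfPlane CongruenceSubgroup
open scoped MatrixGroups ModularForm ENNReal ComplexConjugate

noncomputable section

namespace Gouvea

open ModularGroup (fd fdo)
open Matrix.SpecialLinearGroup (mapGL)

/-- Two weight functions of the same group give the same integral of invariant functions. -/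
lemma IsWt.integral_eq {Γ : Subgroup (GL (Fin 2) ℝ)} [Countable Γ] {w w' : ℍ → ℝ}
    (h : IsWt Γ w) (h' : IsWt Γ w') {F : ℍ → ℂ} (hF : Measurable F)
    (hinv : ∀ γ ∈ Γ, ∀ z, F (γ • z) = F z) (hint : Integrable fun z => w z * ‖F z‖) :
    ∫ z, (w z : ℂ) * F z = ∫ z, (w' z : ℂ) * F z := by
  have hΦm : ∀ γ : Γ, AEStronglyMeasurable
      (fun z : ℍ => (w z : ℂ) * ((w' ((γ : GL (Fin 2) ℝ) • z) : ℂ) * F z)) volume := by
    intro γ
    have hm : Measurable fun z : ℍ => ((γ : GL (Fin 2) ℝ) • z : ℍ) := measurable_const_smul _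
    exact ((Complex.measurable_ofReal.comp h.meas).mul
      ((Complex.measurable_ofReal.comp (h'.meas.comp hm)).mul hF)).aestronglyMeasurable
  have hA : ∀ᵐ z, HasSum (fun γ : Γ => (w z : ℂ) * ((w' ((γ : GL (Fin 2) ℝ) • z) : ℂ) * F z))
      (2 * ((w z : ℂ) * F z)) := by
    filter_upwards [h'.sum] with z hz
    have h1 : (2 : ℂ) * ((w z : ℂ) * F z) = (w z : ℂ) * (2 * F z) := by ring
    rw [h1]
    refine HasSum.mul_left _ (HasSum.mul_right _ ?_)
    simpa using Complex.hasSum_ofReal.2 hz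
  have hB : ∀ᵐ z, HasSum (fun γ : Γ => (w ((γ : GL (Fin 2) ℝ)⁻¹ • z) : ℂ) *
      ((w' ((γ : GL (Fin 2) ℝ) • (γ : GL (Fin 2) ℝ)⁻¹ • z) : ℂ) *
        F ((γ : GL (Fin 2) ℝ)⁻¹ • z))) (2 * ((w' z : ℂ) * F z)) := by
    filter_upwards [h.sum] with z hz
    rw [← (Equiv.inv Γ).hasSum_iff]
    have h1 : ∀ γ : Γ, ((fun γ : Γ => (w ((γ : GL (Fin 2) ℝ)⁻¹ • z) : ℂ) *
      ((w' ((γ : GL (Fin 2) ℝ) • (γ : GL (Fin 2) ℝ)⁻¹ • z) : ℂ) *
        F ((γ : GL (Fin 2) ℝ)⁻¹ • z))) ∘ (Equiv.inv Γ)) γ =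
        (w ((γ : GL (Fin 2) ℝ) • z) : ℂ) * ((w' z : ℂ) * F z) := by
      intro γ
      simp only [Function.comp_apply, Equiv.inv_apply, Subgroup.coe_inv, inv_inv, smul_inv_smul]
      rw [hinv _ γ.2]
    rw [funext h1]
    refine HasSum.mul_right _ ?_
    simpa using Complex.hasSum_ofReal.2 hz
  have hC : ∀ᵐ z, HasSum (fun γ : Γ => ‖(w z : ℂ) * ((w' ((γ : GL (Fin 2) ℝ) • z) : ℂ) * F z)‖)
      (2 * (w z * ‖F z‖)) := by
    filter_upwards [h'.sum] with z hz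
    have h1 : ∀ γ : Γ, ‖(w z : ℂ) * ((w' ((γ : GL (Fin 2) ℝ) • z) : ℂ) * F z)‖ =
        w' ((γ : GL (Fin 2) ℝ) • z) * (w z * ‖F z‖) := by
      intro γ
      simp only [norm_mul, Complex.norm_real, Real.norm_of_nonneg (h.nonneg _),
        Real.norm_of_nonneg (h'.nonneg _)]
      ring
    rw [funext h1]
    exact HasSum.mul_right _ hz
  have h7 := PetCore.swap (fun γ : Γ => (γ : GL (Fin 2) ℝ)⁻¹)
    (fun γ z => (w z : ℂ) * ((w' ((γ : GL (Fin 2) ℝ) • z) : ℂ) * F z)) hΦm hA hB hC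
    (hint.const_mul 2)
  rw [integral_const_mul, integral_const_mul] at h7
  exact mul_left_cancel₀ (two_ne_zero : (2 : ℂ) ≠ 0) h7

/-- Conjugation of weight functions. -/
lemma IsWt.conj {Γ Γ' : Subgroup (GL (Fin 2) ℝ)} {w : ℍ → ℝ} (h : IsWt Γ w) (a : GL (Fin 2) ℝ)
    (hΓ : ∀ g, g ∈ Γ' ↔ a⁻¹ * g * a ∈ Γ) : IsWt Γ' (fun z => w (a⁻¹ • z)) := by
  refine ⟨h.meas.comp (measurable_const_smul _), fun z => h.nonneg _, ?_⟩
  let e : Γ' ≃ Γ :=
    { toFun := fun g => ⟨a⁻¹ * g * a, (hΓ _).1 g.2⟩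
      invFun := fun g => ⟨a * g * a⁻¹, (hΓ _).2 (by
        have : a⁻¹ * (a * (g : GL (Fin 2) ℝ) * a⁻¹) * a = g := by group
        rw [this]
        exact g.2)⟩
      left_inv := fun g => Subtype.ext (by simp only; group)
      right_inv := fun g => Subtype.ext (by simp only; group) }
  filter_upwards [PetCore.ae_smul h.sum a⁻¹] with z hz
  rw [← e.hasSum_iff] at hz
  have h1 : (fun γ : Γ' => w (a⁻¹ • (γ : GL (Fin 2) ℝ) • z)) =
      (fun γ : Γ => w ((γ : GL (Fin 2) ℝ) • a⁻¹ • z)) ∘ e := by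
    funext γ
    show _ = w ((a⁻¹ * (γ : GL (Fin 2) ℝ) * a) • a⁻¹ • z)
    rw [← mul_smul, ← mul_smul, mul_assoc, mul_assoc, mul_inv_cancel, mul_one]
  rw [h1]
  exact hz

namespace Ip

lemma integrableOn_fd {F : ℍ → ℂ} (hF : Measurable F) (hb : ∃ C, ∀ z, ‖F z‖ ≤ C) :
    IntegrableOn F fd := by
  obtain ⟨C, hC⟩ := hb
  exact Measure.integrableOn_of_bounded PetFd.volume_fd_lt_top.ne hF.aestronglyMeasurable
    (M := C) (Filter.Eventually.of_forall hC)

lemma wt_eq (Γ : Subgroup SL(2, ℤ)) [Fintype (SL(2, ℤ) ⧸ Γ)] (z : ℍ) : wt Γ z =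
    ∑ c : SL(2, ℤ) ⧸ Γ, fd.indicator (fun _ => (1 : ℝ)) (Quotient.out c • z) :=
  finsum_eq_sum_of_fintype _

lemma integrable_ind (g : SL(2, ℤ)) :
    Integrable fun z : ℍ => fd.indicator (fun _ => (1 : ℝ)) (g • z) := by
  have h1 : Integrable (fd.indicator (fun _ : ℍ => (1 : ℝ))) := by
    rw [integrable_indicator_iff PetFd.measurableSet_fd]
    exact integrableOn_const (hs := PetFd.volume_fd_lt_top.ne)
  exact (measurePreserving_smul (mapGL ℝ g) volume).integrable_comp_of_integrable h1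

lemma integrable_wt (Γ : Subgroup SL(2, ℤ)) [Γ.FiniteIndex] : Integrable (wt Γ) := by
  classical
  have : Fintype (SL(2, ℤ) ⧸ Γ) := Fintype.ofFinite _
  rw [funext (wt_eq Γ)]
  exact integrable_finsetSum _ fun c _ => integrable_ind _

lemma integrable_wt_mul (Γ : Subgroup SL(2, ℤ)) [Γ.FiniteIndex] {F : ℍ → ℂ} (hF : Measurable F)
    (hb : ∃ C, ∀ z, ‖F z‖ ≤ C) : Integrable fun z => wt Γ z * ‖F z‖ := by
  obtain ⟨C, hC⟩ := hb
  refine (integrable_wt Γ).mul_bdd (c := C) hF.norm.aestronglyMeasurable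
    (Filter.Eventually.of_forall fun z => ?_)
  simpa using hC z

/-- The integral over the fundamental domain of a sum over cosets. -/
lemma integral_sum (Γ : Subgroup SL(2, ℤ)) [Γ.FiniteIndex] {F : ℍ → ℂ} (hF : Measurable F)
    (hb : ∃ C, ∀ z, ‖F z‖ ≤ C) :
    ∫ z in fd, ∑ᶠ c : SL(2, ℤ) ⧸ Γ, F ((Quotient.out c)⁻¹ • z) = ∫ z, (wt Γ z : ℂ) * F z := by
  classical
  have : Fintype (SL(2, ℤ) ⧸ Γ) := Fintype.ofFinite _
  simp_rw [finsum_eq_sum_of_fintype]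
  have hFc : ∀ g : SL(2, ℤ), Measurable fun z : ℍ => F (g • z) := fun g =>
    hF.comp (PetFd.measurable_smul_SL g)
  have hbc : ∀ g : SL(2, ℤ), ∃ C, ∀ z : ℍ, ‖F (g • z)‖ ≤ C := fun g => by
    obtain ⟨C, hC⟩ := hb
    exact ⟨C, fun z => hC _⟩
  rw [integral_finsetSum _ fun c _ => integrableOn_fd (hFc _) (hbc _)]
  have h1 : ∀ g : SL(2, ℤ), ∫ z in fd, F (g⁻¹ • z) =
      ∫ z, ((fd.indicator (fun _ => (1 : ℝ)) (g • z) : ℝ) : ℂ) * F z := by
    intro g
    rw [← integral_indicator PetFd.measurableSet_fd]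
    have h2 : ∀ z : ℍ, fd.indicator (fun z => F (g⁻¹ • z)) z =
        (fun z => ((fd.indicator (fun _ => (1 : ℝ)) (g • z) : ℝ) : ℂ) * F z) (g⁻¹ • z) := by
      intro z
      by_cases hz : z ∈ fd
      · simp [Set.indicator_of_mem hz]
      · simp [Set.indicator_of_notMem hz]
    rw [funext h2]
    exact (measurePreserving_smul (mapGL ℝ g⁻¹) volume).integral_comp
      (measurableEmbedding_const_smul (mapGL ℝ g⁻¹)) _
  refine (Finset.sum_congr rfl fun c _ => h1 (Quotient.out c)).trans ?_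
  rw [← integral_finsetSum]
  · refine integral_congr_ae (Filter.Eventually.of_forall fun z => ?_)
    simp only [wt_eq]
    rw [Complex.ofReal_sum, Finset.sum_mul]
    rfl
  · intro c _
    have h3 : Integrable fun z : ℍ => ((fd.indicator (fun _ => (1 : ℝ)) (Quotient.out c • z) : ℝ) :
        ℂ) := (integrable_ind _).ofReal
    obtain ⟨C, hC⟩ := hb
    exact h3.mul_bdd (c := C) hF.aestronglyMeasurable (Filter.Eventually.of_forall hC)

lemma ip_eq (k : ℤ) {f g : ℍ → ℂ} (Γ : Subgroup SL(2, ℤ)) [Γ.FiniteIndex]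
    (hΓ : Γ ≤ stabF (petersson k f g)) (hm : Measurable (petersson k f g))
    (hb : ∃ C, ∀ z, ‖petersson k f g z‖ ≤ C) :
    ip k f g = (Γ.index : ℂ)⁻¹ * ∫ z, (wt Γ z : ℂ) * petersson k f g z := by
  rw [ip]
  simp_rw [avg_eq Γ hΓ]
  rw [integral_const_mul, integral_sum Γ hm hb]

lemma le_stabF (k : ℤ) {f g : ℍ → ℂ} {Γ : Subgroup SL(2, ℤ)}
    (hf : ∀ γ ∈ Γ, f ∣[k] (γ : SL(2, ℤ)) = f) (hg : ∀ γ ∈ Γ, g ∣[k] (γ : SL(2, ℤ)) = g) :
    Γ ≤ stabF (petersson k f g) := by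
  intro γ hγ z
  rw [← petersson_slash_SL, hf γ hγ, hg γ hγ]

/-- The Petersson product of the statement in terms of `ip`. -/
theorem pet_eq (N k : ℕ) (hN : 0 < N) (f g : Cusp N k) :
    pet N k f g = ((Gamma0 N).index : ℂ) * ip k f g := by
  have : NeZero N := ⟨hN.ne'⟩
  have hf : ∀ γ ∈ Gamma0 N, ⇑f ∣[(k : ℤ)] (γ : SL(2, ℤ)) = ⇑f := fun γ hγ =>
    SlashInvariantFormClass.slash_action_eq f _ (Subgroup.mem_map_of_mem _ hγ)
  have hg : ∀ γ ∈ Gamma0 N, ⇑g ∣[(k : ℤ)] (γ : SL(2, ℤ)) = ⇑g := fun γ hγ =>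
    SlashInvariantFormClass.slash_action_eq g _ (Subgroup.mem_map_of_mem _ hγ)
  rw [ip, pet]
  simp_rw [avg_eq (Gamma0 N) (le_stabF (k : ℤ) hf hg), petersson_slash_SL]
  rw [integral_const_mul, ← mul_assoc, mul_inv_cancel₀, one_mul]
  exact_mod_cast (Subgroup.FiniteIndex.index_ne_zero : (Gamma0 N).index ≠ 0)

lemma integral_wt (Γ : Subgroup SL(2, ℤ)) [Γ.FiniteIndex] :
    ∫ z, (wt Γ z : ℂ) * 1 = (Γ.index : ℂ) * ∫ _z in (fd : Set ℍ), (1 : ℂ) := by
  classical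
  have : Fintype (SL(2, ℤ) ⧸ Γ) := Fintype.ofFinite _
  have h1 := integral_sum Γ (F := fun _ => 1) measurable_const ⟨1, fun z => by simp⟩
  rw [← h1]
  simp_rw [finsum_eq_sum_of_fintype]
  simp only [Finset.sum_const, Finset.card_univ, nsmul_eq_mul, mul_one]
  rw [← Nat.card_eq_fintype_card]
  have h2 : (Nat.card (SL(2, ℤ) ⧸ Γ) : ℂ) = (Γ.index : ℂ) * 1 := by rw [mul_one]; rfl
  rw [h2, integral_const_mul]

lemma volume_fd_ne : (∫ _z in (fd : Set ℍ), (1 : ℂ)) ≠ 0 := by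
  have h1 : 0 < (volume : Measure ℍ) fd := by
    refine lt_of_lt_of_le ?_ (measure_mono ModularGroup.fdo_subset_fd)
    rw [volume_eq_lintegral, setLIntegral_pos_iff]
    · have h2 : (Function.support fun z : ℂ => ((((1 / ‖z.im‖₊) ^ 2 : NNReal)) : ℝ≥0∞)) ∩
          UpperHalfPlane.coe '' fdo = UpperHalfPlane.coe '' fdo := by
        refine Set.inter_eq_right.2 ?_
        rintro _ ⟨z, hz, rfl⟩
        have := z.im_pos.ne'
        simp [this]
      rw [h2]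
      refine (isOpenEmbedding_coe.isOpenMap _ ModularGroup.isOpen_fdo).measure_pos _ ?_
      refine Set.Nonempty.image _ ⟨⟨2 * Complex.I, by simp⟩, ?_, ?_⟩
      · norm_num [Complex.normSq_apply]
      · show |(2 * Complex.I : ℂ).re| < 1 / 2
        norm_num
    · refine Measurable.coe_nnreal_ennreal ?_
      exact (measurable_const.div (Complex.measurable_im.nnnorm)).pow_const 2
  simp only [integral_const, MeasurableSet.univ, measureReal_restrict_apply, Set.univ_inter]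
  rw [Measure.real]
  simp only [Complex.real_smul, mul_one, ne_eq, Complex.ofReal_eq_zero]
  exact (ENNReal.toReal_pos h1.ne' PetFd.volume_fd_lt_top.ne).ne'

/-- Invariance of the level independent product under `GL₂(ℚ)⁺`. -/
theorem ip_slash (k : ℤ) {f g : ℍ → ℂ} {M : ℕ} (hM : 0 < M)
    (hf : ∀ γ ∈ Gamma M, f ∣[k] (γ : SL(2, ℤ)) = f)
    (hg : ∀ γ ∈ Gamma M, g ∣[k] (γ : SL(2, ℤ)) = g) (hm : Measurable (petersson k f g))
    (hb : ∃ C, ∀ z, ‖petersson k f g z‖ ≤ C) (a : GL (Fin 2) ℚ) (ha : 0 < a.det.val) :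
    ip k (f ∣[k] NF.qR a) (g ∣[k] NF.qR a) =
      ((a.det.val : ℚ) : ℂ) ^ (k - 2) * ip k f g := by
  have : NeZero M := ⟨hM.ne'⟩
  set A : GL (Fin 2) ℝ := NF.qR a with hA
  have hA' : A = a.map (Rat.castHom ℝ) := rfl
  have hdet : ((Matrix.GeneralLinearGroup.det A : ℝˣ) : ℝ) = ((a.det.val : ℚ) : ℝ) := by
    rw [hA, NF.qR, Matrix.GeneralLinearGroup.map_det]
    rfl
  have hdpos : 0 < ((Matrix.GeneralLinearGroup.det A : ℝˣ) : ℝ) := by
    rw [hdet]
    exact_mod_cast ha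
  have hpt : ∀ z, petersson k (f ∣[k] A) (g ∣[k] A) z =
      ((a.det.val : ℚ) : ℂ) ^ (k - 2) * petersson k f g (A • z) := by
    intro z
    rw [petersson_slash, σ, if_pos hdpos, abs_of_pos hdpos, hdet]
    simp
  set F := petersson k f g with hF
  have hFinv : ∀ γ ∈ Gamma M, ∀ z, F (γ • z) = F z := fun γ hγ => le_stabF k hf hg hγ
  -- the two groups
  let Γb : Subgroup SL(2, ℤ) := conjGL (Gamma M) A
  let Γc : Subgroup SL(2, ℤ) := Gamma M ⊓ conjGL ⊤ A⁻¹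
  have hΓb : Γb.FiniteIndex := ((Gamma_is_cong_sub M).conjGL a).finiteIndex
  have hΓc : Γc.FiniteIndex := by
    have h1 : (conjGL ⊤ A⁻¹).FiniteIndex := by
      have := finiteIndex_conjGL a⁻¹
      have h2 : (a⁻¹).map (Rat.castHom ℝ) = A⁻¹ := by
        rw [hA', map_inv]
      rwa [h2] at this
    infer_instance
  have hsl : ∀ (x : SL(2, ℤ)) (z : ℍ), mapGL ℝ x • z = x • z := fun x z => rfl
  have hmemb : ∀ x : SL(2, ℤ), x ∈ Γb ↔ ∃ y ∈ Gamma M, mapGL ℝ y = A * mapGL ℝ x * A⁻¹ :=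
    fun x => mem_conjGL
  have hmemc : ∀ x : SL(2, ℤ), x ∈ Γc ↔ x ∈ Gamma M ∧ ∃ y : SL(2, ℤ), mapGL ℝ y = A⁻¹ * mapGL ℝ x * A := by
    intro x
    have h1 := mem_conjGL (Γ := ⊤) (g := A⁻¹) (x := x)
    simp only [Subgroup.mem_top, true_and, inv_inv] at h1
    exact and_congr Iff.rfl h1
  -- the left hand side
  have hFA : Measurable (petersson k (f ∣[k] A) (g ∣[k] A)) := by
    rw [funext hpt]
    exact measurable_const.mul (hm.comp (measurable_const_smul A))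
  have hbA : ∃ C, ∀ z, ‖petersson k (f ∣[k] A) (g ∣[k] A) z‖ ≤ C := by
    obtain ⟨C, hC⟩ := hb
    refine ⟨‖((a.det.val : ℚ) : ℂ) ^ (k - 2)‖ * C, fun z => ?_⟩
    rw [hpt, norm_mul]
    exact mul_le_mul_of_nonneg_left (hC _) (norm_nonneg _)
  have hstb : Γb ≤ stabF (petersson k (f ∣[k] A) (g ∣[k] A)) := by
    intro x hx z
    obtain ⟨y, hy, hyx⟩ := (hmemb x).1 hx
    rw [hpt, hpt]
    have h1 : A • x • z = y • A • z := by
      rw [← hsl x, ← hsl y, ← mul_smul, ← mul_smul, hyx, inv_mul_cancel_right]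
    rw [h1, hFinv y hy]
  have hstc : Γc ≤ stabF F := fun x hx => hFinv x ((hmemc x).1 hx).1
  rw [ip_eq k Γb hstb hFA hbA, ip_eq k Γc hstc hm hb]
  -- the weights
  have hw := PetFd.isWt_wt Γb
  have hw' := PetFd.isWt_wt Γc
  have hconj : ∀ g : GL (Fin 2) ℝ, g ∈ Γc.map (mapGL ℝ) ↔ A⁻¹ * g * A ∈ Γb.map (mapGL ℝ) := by
    intro g
    constructor
    · rintro ⟨x, hx, rfl⟩
      obtain ⟨hx1, y, hy⟩ := (hmemc x).1 hx
      refine ⟨y, (hmemb y).2 ⟨x, hx1, ?_⟩, hy⟩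
      rw [hy]
      group
    · rintro ⟨x, hx, hxg⟩
      obtain ⟨y, hy, hyx⟩ := (hmemb x).1 hx
      have hg : g = mapGL ℝ y := by
        rw [hyx]
        have h1 : mapGL ℝ x = A⁻¹ * g * A := hxg
        rw [h1]
        group
      refine ⟨y, (hmemc y).2 ⟨hy, x, ?_⟩, hg.symm⟩
      rw [hyx]
      group
  have hw2 : IsWt (Γc.map (mapGL ℝ)) (fun z => wt Γb (A⁻¹ • z)) := hw.conj A hconj
  have hcount : Countable (Γc.map (mapGL ℝ)) :=
    (Γc.equivMapOfInjective _ Matrix.SpecialLinearGroup.mapGL_injective).toEquiv.symm.countable_iff.2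
      inferInstance
  have hchange : ∀ G : ℍ → ℂ, ∫ z, (wt Γb z : ℂ) * G (A • z) =
      ∫ z, (wt Γb (A⁻¹ • z) : ℂ) * G z := by
    intro G
    have h1 := (measurePreserving_smul A (volume : Measure ℍ)).integral_comp
      (measurableEmbedding_const_smul A) (fun z => (wt Γb (A⁻¹ • z) : ℂ) * G z)
    simp only [inv_smul_smul] at h1
    exact h1
  have hint2 : ∀ G : ℍ → ℂ, Measurable G → (∃ C, ∀ z, ‖G z‖ ≤ C) →
      Integrable fun z => wt Γb (A⁻¹ • z) * ‖G z‖ := by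
    intro G hG hGb
    have h2 : Integrable fun z : ℍ => wt Γb (A⁻¹ • z) :=
      (measurePreserving_smul A⁻¹ volume).integrable_comp_of_integrable (integrable_wt Γb)
    obtain ⟨C, hC⟩ := hGb
    refine h2.mul_bdd (c := C) hG.norm.aestronglyMeasurable
      (Filter.Eventually.of_forall fun z => ?_)
    simpa using hC z
  have hinvc : ∀ γ ∈ Γc.map (mapGL ℝ), ∀ z, F (γ • z) = F z := by
    rintro _ ⟨x, hx, rfl⟩ z
    exact hFinv x ((hmemc x).1 hx).1 z
  have h3 := hw2.integral_eq hw' hm hinvc (hint2 F hm hb)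
  have h4 := hw2.integral_eq hw' (F := fun _ => 1) measurable_const (fun _ _ _ => rfl)
    (hint2 _ measurable_const ⟨1, fun z => by simp⟩)
  rw [← hchange (fun _ => 1), integral_wt, integral_wt] at h4
  have h5 : (Γb.index : ℂ) = Γc.index := mul_right_cancel₀ volume_fd_ne h4
  have h6 : ∫ z, (wt Γb z : ℂ) * petersson k (f ∣[k] A) (g ∣[k] A) z =
      ((a.det.val : ℚ) : ℂ) ^ (k - 2) * ∫ z, (wt Γc z : ℂ) * F z := by
    rw [← h3, ← hchange F, ← integral_const_mul]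
    refine integral_congr_ae (Filter.Eventually.of_forall fun z => ?_)
    simp only [hpt]
    ring
  rw [h6, h5]
  ring

end Ip

end Gouvea
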