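import Pool.Agent.Work.MP_d3517d_nt.NF.Defs

/-!
# Newforms (MP_d3517d_nt, part NF): multiplicity one from the depletion lemmas

The earlier modules enter as the structure `MH`.
-/

open UpperHalfPlane CongruenceSubgroup OnePoint
open scoped MatrixGroups ModularForm ComplexConjugate Manifold

noncomputable section

namespace Gouvea.NF

variable {k : ℕ}

theorem coprime_of_primeFactors {D n : ℕ} (hD : 0 < D)
    (h : ∀ q ∈ D.primeFactors, ¬ q ∣ n) : n.Coprime D := by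
  by_contra hne
  obtain ⟨q, hq, h1, h2⟩ := Nat.Prime.not_coprime_iff_dvd.1 hne
  exact h q (Nat.mem_primeFactors.2 ⟨hq, h2, hD.ne'⟩) h1

/-- The facts on cusp forms which are used here. -/
structure MH (P : IP k) : Prop where
  Sp_mono : ∀ {M N : ℕ}, M ∣ N → 0 < N → Sp M k ≤ Sp N k
  coef_add : ∀ {N : ℕ}, 0 < N → ∀ {f g : ℍ → ℂ}, f ∈ Sp N k → g ∈ Sp N k → ∀ n : ℕ,
    coef (f + g) n = coef f n + coef g n
  coef_smul : ∀ {N : ℕ}, 0 < N → ∀ {f : ℍ → ℂ}, f ∈ Sp N k → ∀ (c : ℂ) (n : ℕ),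
    coef (c • f) n = c * coef f n
  coef_ext : ∀ {M N : ℕ}, 0 < M → 0 < N → ∀ {f g : ℍ → ℂ}, f ∈ Sp M k → g ∈ Sp N k →
    (∀ n, coef f n = coef g n) → f = g
  InV_of_mem : ∀ {N : ℕ}, 0 < N → ∀ {f : ℍ → ℂ}, f ∈ Sp N k → InV k f
  one_prime : ∀ {N l : ℕ} [NeZero l], 0 < N → l.Prime → l ∣ N → ∀ {f : ℍ → ℂ}, f ∈ Sp N k →
    (∀ n, ¬ l ∣ n → coef f n = 0) → ∃ g ∈ Sp (N / l) k, f = B l g
  one_prime' : ∀ {N l : ℕ}, 0 < N → l.Prime → ¬ l ∣ N → ∀ {f : ℍ → ℂ}, f ∈ Sp N k →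
    (∀ n, ¬ l ∣ n → coef f n = 0) → f = 0
  LNew_incl : ∀ {N l q : ℕ} [NeZero l], 0 < N → l.Prime → q.Prime → l ≠ q → ∀ {f : ℍ → ℂ},
    LNew P l N f → LNew P l (N * q) f
  dep_mem : ∀ {N q : ℕ} [NeZero q], 0 < N → q.Prime → ∀ {f : ℍ → ℂ}, f ∈ Sp N k →
    dep k q f ∈ Sp (N * q * q) k
  coef_dep : ∀ {N q : ℕ} [NeZero q], 0 < N → q.Prime → ∀ {f : ℍ → ℂ}, f ∈ Sp N k → ∀ n : ℕ,
    coef (dep k q f) n = if q ∣ n then 0 else coef f n
  LNew_dep : ∀ {N l q : ℕ} [NeZero l] [NeZero q], 0 < N → l.Prime → q.Prime → l ≠ q →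
    ∀ {f : ℍ → ℂ}, LNew P l N f → LNew P l (N * q * q) (dep k q f)

namespace MH

variable {P : IP k} (H : MH P)
include H

theorem InV_zero : InV k (0 : ℍ → ℂ) := H.InV_of_mem one_pos (Sp 1 k).zero_mem

theorem coef_zero' (n : ℕ) : coef (0 : ℍ → ℂ) n = 0 := by
  have h := H.coef_smul one_pos (Sp 1 k).zero_mem 0 n
  rwa [zero_smul, zero_mul] at h

theorem ip_zero_left {f : ℍ → ℂ} (hf : InV k f) : P.ip 0 f = 0 := by
  have h1 : P.ip f 0 = 0 := by
    have h := P.smul_right 0 f 0 hf H.InV_zero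
    rwa [zero_smul, zero_mul] at h
  rw [P.symm f 0 hf H.InV_zero, h1, map_zero]

theorem LNew_of_not_dvd {l N : ℕ} [NeZero l] (hN : 0 < N) (h : ¬ l ∣ N) {f : ℍ → ℂ}
    (hf : f ∈ Sp N k) : LNew P l N f := by
  refine ⟨hf, fun g hg => ?_⟩
  rw [lold, if_neg h, Submodule.mem_bot] at hg
  rw [hg, H.ip_zero_left (H.InV_of_mem hN hf)]

theorem LNew_of_New {l N : ℕ} [NeZero l] (hN : 0 < N) (hl : l.Prime) {f : ℍ → ℂ}
    (hf : New P N f) : LNew P l N f := by
  by_cases h : l ∣ N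
  · exact ⟨hf.1, hf.2 l hl h⟩
  · exact H.LNew_of_not_dvd hN h hf.1

theorem LNew_mul {l : ℕ} [NeZero l] (hl : l.Prime) {f : ℍ → ℂ} (m : ℕ) :
    ∀ {N : ℕ}, 0 < N → 0 < m → ¬ l ∣ m → LNew P l N f → LNew P l (N * m) f := by
  induction m using Nat.strong_induction_on with
  | _ m ih =>
    intro N hN hm hlm hf
    by_cases h1 : m = 1
    · rwa [h1, mul_one]
    · have hq : m.minFac.Prime := Nat.minFac_prime h1
      obtain ⟨m', hm'⟩ := Nat.minFac_dvd m
      have hm0 : 0 < m' := by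
        rcases Nat.eq_zero_or_pos m' with h | h
        · rw [h, mul_zero] at hm'
          omega
        · exact h
      have hlt : m' < m := by
        calc m' < m.minFac * m' := lt_mul_left hm0 hq.one_lt
          _ = m := hm'.symm
      have hlq : l ≠ m.minFac := fun h => hlm (h ▸ Nat.minFac_dvd m)
      have hlm' : ¬ l ∣ m' := fun h => hlm (h.trans (Dvd.intro_left _ hm'.symm))
      have h2 := ih m' hlt (N := N * m.minFac) (Nat.mul_pos hN hq.pos) hm0 hlm'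
        (H.LNew_incl hN hl hq hlq hf)
      rwa [mul_assoc, ← hm'] at h2

theorem eq_zero_of_lold {l N : ℕ} [NeZero l] (hN : 0 < N) {f : ℍ → ℂ} (hf : LNew P l N f)
    (h : f ∈ lold l N k) : f = 0 := by
  by_contra hne
  have h1 := P.pos f (H.InV_of_mem hN hf.1) hne
  rw [hf.2 f h] at h1
  simp at h1

open Classical in
/-- Depletion at the primes of a finite set. -/
theorem depl (S : Finset ℕ) (hS : ∀ q ∈ S, q.Prime) :
    ∃ m : ℕ, 0 < m ∧ (∀ l : ℕ, l.Prime → l ∣ m → l ∈ S) ∧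
      ∀ (N : ℕ) (f : ℍ → ℂ), 0 < N → f ∈ Sp N k → ∃ g ∈ Sp (N * m) k,
        (∀ n, coef g n = if ∀ q ∈ S, ¬ q ∣ n then coef f n else 0) ∧
        ∀ (l : ℕ) [NeZero l], l.Prime → l ∉ S → LNew P l N f → LNew P l (N * m) g := by
  induction S using Finset.induction_on with
  | empty =>
    refine ⟨1, one_pos, fun l hl h => absurd (Nat.dvd_one.1 h) hl.ne_one, ?_⟩
    intro N f hN hf
    refine ⟨f, by rwa [mul_one], fun n => ?_, fun l _ _ _ h => by rwa [mul_one]⟩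
    simp
  | insert q S hqS ih =>
    obtain ⟨m, hm, h1, h2⟩ := ih fun r hr => hS r (Finset.mem_insert_of_mem hr)
    have hq : q.Prime := hS q (Finset.mem_insert_self q S)
    have : NeZero q := ⟨hq.ne_zero⟩
    refine ⟨m * q * q, Nat.mul_pos (Nat.mul_pos hm hq.pos) hq.pos, ?_, ?_⟩
    · intro l hl h
      rcases (Nat.Prime.dvd_mul hl).1 h with h | h
      · rcases (Nat.Prime.dvd_mul hl).1 h with h | h
        · exact Finset.mem_insert_of_mem (h1 l hl h)
        · rw [(Nat.prime_dvd_prime_iff_eq hl hq).1 h]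
          exact Finset.mem_insert_self q S
      · rw [(Nat.prime_dvd_prime_iff_eq hl hq).1 h]
        exact Finset.mem_insert_self q S
    · intro N f hN hf
      obtain ⟨g, hg, h3, h4⟩ := h2 N f hN hf
      have hNm : 0 < N * m := Nat.mul_pos hN hm
      have e : N * (m * q * q) = N * m * q * q := by ring
      rw [e]
      refine ⟨dep k q g, H.dep_mem hNm hq hg, fun n => ?_, fun l _ hl hlS hf' => ?_⟩
      · rw [H.coef_dep hNm hq hg, h3]
        by_cases h5 : q ∣ n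
        · rw [if_pos h5, if_neg]
          intro h6
          exact h6 q (Finset.mem_insert_self q S) h5
        · rw [if_neg h5]
          by_cases h6 : ∀ r ∈ S, ¬ r ∣ n
          · rw [if_pos h6, if_pos]
            intro r hr
            rcases Finset.mem_insert.1 hr with rfl | hr
            · exact h5
            · exact h6 r hr
          · rw [if_neg h6, if_neg]
            intro h7
            exact h6 fun r hr => h7 r (Finset.mem_insert_of_mem hr)
      · rw [Finset.mem_insert, not_or] at hlS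
        exact H.LNew_dep hNm hl hq hlS.1 (h4 l hl hlS.2 hf')

/-- A form which is new at all primes and whose coefficients at the `n` prime to `S` vanish is
zero. -/
theorem mult_one_set {N : ℕ} (hN : 0 < N) {f : ℍ → ℂ} (hf : New P N f) (S : Finset ℕ)
    (hS : ∀ q ∈ S, q.Prime) (h : ∀ n, (∀ q ∈ S, ¬ q ∣ n) → coef f n = 0) : f = 0 := by
  classical
  induction S using Finset.induction_on with
  | empty =>
    refine H.coef_ext hN hN hf.1 (Sp N k).zero_mem fun n => ?_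
    rw [h n (by simp), H.coef_zero']
  | insert l S hlS ih =>
    have hS' : ∀ q ∈ S, q.Prime := fun r hr => hS r (Finset.mem_insert_of_mem hr)
    have hl : l.Prime := hS l (Finset.mem_insert_self l S)
    have : NeZero l := ⟨hl.ne_zero⟩
    refine ih hS' fun n hn => ?_
    obtain ⟨m, hm, h1, h2⟩ := H.depl S hS'
    obtain ⟨g, hg, h3, h4⟩ := h2 N f hN hf.1
    have hNm : 0 < N * m := Nat.mul_pos hN hm
    have h5 : LNew P l (N * m) g := h4 l hl hlS (H.LNew_of_New hN hl hf)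
    have h6 : ∀ n, ¬ l ∣ n → coef g n = 0 := by
      intro n hn
      rw [h3]
      split_ifs with h7
      · refine h n fun q hq => ?_
        rcases Finset.mem_insert.1 hq with rfl | hq
        · exact hn
        · exact h7 q hq
      · rfl
    have h8 : g = 0 := by
      by_cases h9 : l ∣ N * m
      · obtain ⟨g', hg', h10⟩ := H.one_prime hNm hl h9 hg h6
        refine H.eq_zero_of_lold hNm h5 ?_
        rw [lold, if_pos h9, h10]
        exact Submodule.mem_sup_right (Submodule.mem_map_of_mem hg')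
      · exact H.one_prime' hNm hl h9 hg h6
    have h9 := h3 n
    rw [if_pos hn, h8, H.coef_zero'] at h9
    exact h9.symm

/-- **Multiplicity one**, vanishing form. -/
theorem mult_one {N D : ℕ} (hN : 0 < N) (hD : 0 < D) {f : ℍ → ℂ} (hf : New P N f)
    (h : ∀ n, n.Coprime D → coef f n = 0) : f = 0 :=
  H.mult_one_set hN hf D.primeFactors (fun _ hq => Nat.prime_of_mem_primeFactors hq)
    fun n hn => h n (coprime_of_primeFactors hD hn)

theorem mult_two_aux {M₁ M₂ D : ℕ} (h₁ : 0 < M₁) (h₂ : 0 < M₂) (hD : 0 < D) {f₁ f₂ : ℍ → ℂ}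
    (hf₁ : New P M₁ f₁) (hf₂ : New P M₂ f₂) (h : ∀ n, n.Coprime D → coef f₁ n = coef f₂ n)
    (h0 : coef f₂ 1 ≠ 0) (l : ℕ) (hl : l.Prime) :
    M₂.factorization l ≤ M₁.factorization l := by
  classical
  by_contra hlt
  rw [not_le] at hlt
  have : NeZero l := ⟨hl.ne_zero⟩
  set S := D.primeFactors.erase l with hSdef
  have hS : ∀ q ∈ S, q.Prime := fun q hq =>
    Nat.prime_of_mem_primeFactors (Finset.mem_of_mem_erase hq)
  have hlS : l ∉ S := Finset.notMem_erase l _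
  obtain ⟨m, hm, e1, e2⟩ := H.depl S hS
  have hlm : ¬ l ∣ m := fun hd => hlS (e1 l hl hd)
  obtain ⟨g₁, hg₁, a1, -⟩ := e2 M₁ f₁ h₁ hf₁.1
  obtain ⟨g₂, hg₂, b1, b2⟩ := e2 M₂ f₂ h₂ hf₂.1
  have hL0 : 0 < Nat.lcm M₁ M₂ := Nat.lcm_pos h₁ h₂
  set L := Nat.lcm M₁ M₂ * m with hL
  have hLpos : 0 < L := Nat.mul_pos hL0 hm
  obtain ⟨c₁, hc₁⟩ := Nat.dvd_lcm_left M₁ M₂
  obtain ⟨c₂, hc₂⟩ := Nat.dvd_lcm_right M₁ M₂
  have hc₁0 : c₁ ≠ 0 := by
    rintro rfl
    rw [mul_zero] at hc₁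
    omega
  have hc₂0 : c₂ ≠ 0 := by
    rintro rfl
    rw [mul_zero] at hc₂
    omega
  have f0 : (Nat.lcm M₁ M₂).factorization l = M₂.factorization l := by
    rw [Nat.factorization_lcm h₁.ne' h₂.ne', Finsupp.sup_apply]
    exact max_eq_right hlt.le
  have f1 : (Nat.lcm M₁ M₂).factorization l = M₁.factorization l + c₁.factorization l := by
    rw [hc₁, Nat.factorization_mul h₁.ne' hc₁0]
    rfl
  have f2 : (Nat.lcm M₁ M₂).factorization l = M₂.factorization l + c₂.factorization l := by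
    rw [hc₂, Nat.factorization_mul h₂.ne' hc₂0]
    rfl
  have hlc₁ : l ∣ c₁ := Nat.dvd_of_factorization_pos (by omega)
  have hlc₂ : ¬ l ∣ c₂ := by
    intro hd
    have := (hl.dvd_iff_one_le_factorization hc₂0).1 hd
    omega
  obtain ⟨c, hc⟩ := hlc₁
  have hL1 : L = M₁ * m * c * l := by
    rw [hL, hc₁, hc]
    ring
  have hL2 : L = M₂ * m * c₂ := by
    rw [hL, hc₂]
    ring
  have hlL : l ∣ L := Dvd.intro_left _ hL1.symm
  have hLl : L / l = M₁ * m * c := by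
    rw [hL1, Nat.mul_div_cancel _ hl.pos]
  have hLl0 : 0 < L / l := Nat.div_pos (Nat.le_of_dvd hLpos hlL) hl.pos
  have hg₁L : g₁ ∈ Sp L k := H.Sp_mono (by rw [hL1, mul_assoc]; exact Dvd.intro _ rfl) hLpos hg₁
  have hg₁l : g₁ ∈ Sp (L / l) k := H.Sp_mono (by rw [hLl]; exact Dvd.intro _ rfl) hLl0 hg₁
  have hg₂L : g₂ ∈ Sp L k := H.Sp_mono (by rw [hL2]; exact Dvd.intro _ rfl) hLpos hg₂
  have hneg : (-1 : ℂ) • g₂ ∈ Sp L k := (Sp L k).smul_mem _ hg₂L
  have hsub : g₁ - g₂ ∈ Sp L k := (Sp L k).sub_mem hg₁L hg₂L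
  have hcoef : ∀ n, coef (g₁ - g₂) n = coef g₁ n - coef g₂ n := by
    intro n
    have e : g₁ - g₂ = g₁ + (-1 : ℂ) • g₂ := by
      rw [neg_one_smul, sub_eq_add_neg]
    rw [e, H.coef_add hLpos hg₁L hneg, H.coef_smul hLpos hg₂L]
    ring
  have hvan : ∀ n, ¬ l ∣ n → coef (g₁ - g₂) n = 0 := by
    intro n hn
    rw [hcoef, a1, b1]
    split_ifs with h7
    · rw [h n, sub_self]
      refine coprime_of_primeFactors hD fun q hq => ?_
      by_cases hql : q = l
      · rwa [hql]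
      · exact h7 q (Finset.mem_erase.2 ⟨hql, hq⟩)
    · exact sub_zero 0
  obtain ⟨g, hg, hgB⟩ := H.one_prime hLpos hl hlL hsub hvan
  have hold : g₂ ∈ lold l L k := by
    rw [lold, if_pos hlL]
    have e : g₂ = g₁ + B l (-g) := by
      rw [map_neg, ← hgB]
      abel
    rw [e]
    exact Submodule.add_mem_sup hg₁l (Submodule.mem_map_of_mem (Submodule.neg_mem _ hg))
  have hnew : LNew P l L g₂ := by
    rw [hL2]
    exact H.LNew_mul hl c₂ (Nat.mul_pos h₂ hm) (Nat.pos_of_ne_zero hc₂0) hlc₂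
      (b2 l hl hlS (H.LNew_of_New h₂ hl hf₂))
  have hz : g₂ = 0 := H.eq_zero_of_lold hLpos hnew hold
  have h9 := b1 1
  rw [if_pos, hz, H.coef_zero'] at h9
  · exact h0 h9.symm
  · intro q hq hd
    exact (hS q hq).ne_one (Nat.dvd_one.1 hd)

/-- **Multiplicity one**, the levels. -/
theorem mult_two {M₁ M₂ D : ℕ} (h₁ : 0 < M₁) (h₂ : 0 < M₂) (hD : 0 < D) {f₁ f₂ : ℍ → ℂ}
    (hf₁ : New P M₁ f₁) (hf₂ : New P M₂ f₂) (h : ∀ n, n.Coprime D → coef f₁ n = coef f₂ n)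
    (h0 : coef f₁ 1 ≠ 0) : M₁ = M₂ := by
  have h0' : coef f₂ 1 ≠ 0 := by
    rwa [← h 1 (Nat.coprime_one_left D)]
  refine Nat.eq_of_factorization_eq h₁.ne' h₂.ne' fun l => ?_
  by_cases hl : l.Prime
  · exact le_antisymm (H.mult_two_aux h₂ h₁ hD hf₂ hf₁ (fun n hn => (h n hn).symm) h0 l hl)
      (H.mult_two_aux h₁ h₂ hD hf₁ hf₂ h h0' l hl)
  · rw [Nat.factorization_eq_zero_of_not_prime _ hl, Nat.factorization_eq_zero_of_not_prime _ hl]

end MH

end Gouvea.NF
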