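import Mathlib

/-!
# Petersson products by weight functions (MP_d3517d_nt)

A weight function of a countable group `Γ ≤ GL₂(ℝ)` is a measurable `w ≥ 0` on the upper half
plane with `Σ_{γ ∈ Γ} w (γ z) = 2` almost everywhere. We prove the adjointness of Hecke operators
for the products `∫ w · petersson f h`.
-/

open MeasureTheory UpperHalfPlane
open scoped MatrixGroups ModularForm ENNReal ComplexConjugate

noncomputable section

namespace Gouvea

/-- A weight function of `Γ`: `w ≥ 0` is measurable and `Σ_{γ ∈ Γ} w (γ z) = 2` for almost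
all `z`. -/
structure IsWt (Γ : Subgroup (GL (Fin 2) ℝ)) (w : ℍ → ℝ) : Prop where
  meas : Measurable w
  nonneg : ∀ z, 0 ≤ w z
  sum : ∀ᵐ z : ℍ, HasSum (fun γ : Γ => w ((γ : GL (Fin 2) ℝ) • z)) 2

/-- The product attached to a weight function. -/
def petW (w : ℍ → ℝ) (k : ℤ) (f g : ℍ → ℂ) : ℂ := ∫ z, (w z : ℂ) * petersson k f g z

namespace PetCore

lemma hasSum_prod_fin {α ι E : Type*} [Fintype ι] [AddCommMonoid E] [TopologicalSpace E]
    [ContinuousAdd E] {g : α × ι → E} {a : ι → E} (h : ∀ i, HasSum (fun x => g (x, i)) (a i)) :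
    HasSum g (∑ i, a i) := by
  classical
  have hg : g = fun p => ∑ i, if p.2 = i then g p else 0 := by
    funext p
    simp
  rw [hg]
  refine hasSum_sum fun i _ => ?_
  have hinj : Function.Injective (fun x : α => (x, i)) := fun x y hxy => (Prod.ext_iff.1 hxy).1
  refine (hinj.hasSum_iff ?_).1 ?_
  · rintro ⟨x, j⟩ hx
    have : j ≠ i := fun hji => hx ⟨x, by simp [hji]⟩
    simp [this]
  · have he : ((fun p : α × ι => if p.2 = i then g p else 0) ∘ fun x : α => (x, i)) =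
        fun x => g (x, i) := by
      funext x
      simp
    rw [he]
    exact h i

/-- The exchange of the sum and the integral in the double unfolding. -/
lemma swap {J : Type*} [Countable J] (m : J → GL (Fin 2) ℝ) (F : J → ℍ → ℂ)
    (hF : ∀ d, AEStronglyMeasurable (F d) volume) {A B : ℍ → ℂ} {C : ℍ → ℝ}
    (hA : ∀ᵐ z, HasSum (fun d => F d z) (A z))
    (hB : ∀ᵐ z, HasSum (fun d => F d (m d • z)) (B z))
    (hC : ∀ᵐ z, HasSum (fun d => ‖F d z‖) (C z)) (hCi : Integrable C) :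
    ∫ z, A z = ∫ z, B z := by
  have hmp : ∀ d, MeasurePreserving (fun z : ℍ => m d • z) volume volume := fun d =>
    measurePreserving_smul (m d) volume
  have hme : ∀ d, MeasurableEmbedding (fun z : ℍ => m d • z) := fun d =>
    measurableEmbedding_const_smul (m d)
  have hfin : ∑' d, ∫⁻ z, ‖F d z‖ₑ ≠ ∞ := by
    rw [← lintegral_tsum fun d => (hF d).enorm]
    have h1 : ∫⁻ z, ∑' d, ‖F d z‖ₑ = ∫⁻ z, ENNReal.ofReal (C z) := by
      refine lintegral_congr_ae ?_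
      filter_upwards [hC] with z hz
      rw [← hz.tsum_eq, ENNReal.ofReal_tsum_of_nonneg (fun d => norm_nonneg _) hz.summable]
      refine tsum_congr fun d => ?_
      rw [ofReal_norm]
    rw [h1]
    exact hCi.lintegral_lt_top.ne
  have hfin' : ∑' d, ∫⁻ z, ‖F d (m d • z)‖ₑ ≠ ∞ := by
    have h1 : ∀ d, ∫⁻ z, ‖F d (m d • z)‖ₑ = ∫⁻ z, ‖F d z‖ₑ := fun d =>
      (hmp d).lintegral_comp_emb (hme d) fun z => ‖F d z‖ₑ
    simp_rw [h1]
    exact hfin
  have hF' : ∀ d, AEStronglyMeasurable (fun z => F d (m d • z)) volume := fun d =>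
    (hF d).comp_measurePreserving (hmp d)
  have hA' : ∫ z, A z = ∑' d, ∫ z, F d z := by
    rw [← integral_tsum hF hfin]
    refine integral_congr_ae ?_
    filter_upwards [hA] with z hz
    exact hz.tsum_eq.symm
  have hB' : ∫ z, B z = ∑' d, ∫ z, F d (m d • z) := by
    rw [← integral_tsum hF' hfin']
    refine integral_congr_ae ?_
    filter_upwards [hB] with z hz
    exact hz.tsum_eq.symm
  rw [hA', hB']
  refine tsum_congr fun d => ?_
  exact ((hmp d).integral_comp (hme d) (F d)).symm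

lemma petersson_sum_left {ι : Type*} [Fintype ι] (k : ℤ) (F : ι → ℍ → ℂ) (h : ℍ → ℂ) (z : ℍ) :
    petersson k (∑ i, F i) h z = ∑ i, petersson k (F i) h z := by
  simp only [petersson, Finset.sum_apply, map_sum, Finset.sum_mul]

lemma petersson_sum_right {ι : Type*} [Fintype ι] (k : ℤ) (F : ι → ℍ → ℂ) (h : ℍ → ℂ) (z : ℍ) :
    petersson k h (∑ i, F i) z = ∑ i, petersson k h (F i) z := by
  simp only [petersson, Finset.sum_apply, Finset.mul_sum, Finset.sum_mul]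

/-- Change of variables in the Petersson integrand. -/
lemma petersson_slash_left (k : ℤ) (f h : ℍ → ℂ) (d : GL (Fin 2) ℝ) (hd : 0 < (d.det : ℝ))
    (z : ℍ) : petersson k (f ∣[k] d) h (d⁻¹ • z) =
      ((d.det : ℝ) : ℂ) ^ (k - 2) * petersson k f (h ∣[k] d⁻¹) z := by
  have h1 := petersson_slash k f (h ∣[k] d⁻¹) d (d⁻¹ • z)
  rw [← SlashAction.slash_mul, inv_mul_cancel, SlashAction.slash_one, smul_inv_smul] at h1
  rw [h1, σ, if_pos hd, abs_of_pos hd]
  simp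

/-- A countable union of translates of a null condition. -/
lemma ae_smul {p : ℍ → Prop} (hp : ∀ᵐ z, p z) (g : GL (Fin 2) ℝ) : ∀ᵐ z : ℍ, p (g • z) :=
  (measurePreserving_smul g volume).quasiMeasurePreserving.ae hp

theorem adj (k : ℤ) {Γ₁ Γ₂ : Subgroup (GL (Fin 2) ℝ)} [Countable Γ₁] [Countable Γ₂]
    {w₁ w₂ : ℍ → ℝ} (h₁ : IsWt Γ₁ w₁) (h₂ : IsWt Γ₂ w₂) {f h : ℍ → ℂ}
    (hf : ∀ γ ∈ Γ₁, f ∣[k] γ = f) (hh : ∀ γ ∈ Γ₂, h ∣[k] γ = h)
    {ι κ : Type*} [Fintype ι] [Fintype κ] (δ : ι → GL (Fin 2) ℝ) (ε : κ → GL (Fin 2) ℝ)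
    (Δ : Set (GL (Fin 2) ℝ)) (e₁ : Γ₁ × ι ≃ Δ)
    (he₁ : ∀ γ i, (e₁ (γ, i) : GL (Fin 2) ℝ) = γ * δ i) (e₂ : Γ₂ × κ ≃ Δ)
    (he₂ : ∀ γ j, (e₂ (γ, j) : GL (Fin 2) ℝ) = (γ * ε j)⁻¹) {D : ℝ} (hD : 0 < D)
    (hΔ : ∀ d ∈ Δ, ((Matrix.GeneralLinearGroup.det d : ℝˣ) : ℝ) = D)
    (hfm : ∀ i, Measurable fun z => petersson k (f ∣[k] δ i) h z)
    (hint : ∀ i, Integrable fun z => w₂ z * ‖petersson k (f ∣[k] δ i) h z‖) :
    petW w₂ k (∑ i, f ∣[k] δ i) h = (D : ℂ) ^ (k - 2) * petW w₁ k f (∑ j, h ∣[k] ε j) := by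
  classical
  have : Countable Δ := e₁.symm.countable_iff.2 inferInstance
  -- the slash of `f` by the elements of `Δ`
  have hfd : ∀ γ i, f ∣[k] (e₁ (γ, i) : GL (Fin 2) ℝ) = f ∣[k] δ i := fun γ i => by
    rw [he₁, SlashAction.slash_mul, hf _ γ.2]
  have hhd : ∀ γ j, h ∣[k] (e₂ (γ, j) : GL (Fin 2) ℝ)⁻¹ = h ∣[k] ε j := fun γ j => by
    rw [he₂, inv_inv, SlashAction.slash_mul, hh _ γ.2]
  -- the sums of the weights
  have hw1 : ∀ i, ∀ᵐ z : ℍ, HasSum (fun γ : Γ₁ => w₁ ((e₁ (γ, i) : GL (Fin 2) ℝ) • z)) 2 := by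
    intro i
    filter_upwards [ae_smul h₁.sum (δ i)] with z hz
    have he : (fun γ : Γ₁ => w₁ ((e₁ (γ, i) : GL (Fin 2) ℝ) • z)) =
        fun γ : Γ₁ => w₁ ((γ : GL (Fin 2) ℝ) • δ i • z) := by
      funext γ
      rw [he₁, mul_smul]
    rw [he]
    exact hz
  have hw2 : ∀ j, ∀ᵐ z : ℍ, HasSum (fun γ : Γ₂ => w₂ ((e₂ (γ, j) : GL (Fin 2) ℝ)⁻¹ • z)) 2 := by
    intro j
    filter_upwards [ae_smul h₂.sum (ε j)] with z hz
    have he : (fun γ : Γ₂ => w₂ ((e₂ (γ, j) : GL (Fin 2) ℝ)⁻¹ • z)) =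
        fun γ : Γ₂ => w₂ ((γ : GL (Fin 2) ℝ) • ε j • z) := by
      funext γ
      rw [he₂, inv_inv, mul_smul]
    rw [he]
    exact hz
  let F : Δ → ℍ → ℂ := fun d z =>
    (w₂ z : ℂ) * ((w₁ ((d : GL (Fin 2) ℝ) • z) : ℂ) * petersson k (f ∣[k] (d : GL (Fin 2) ℝ)) h z)
  have hFm : ∀ d, AEStronglyMeasurable (F d) volume := by
    intro d
    obtain ⟨⟨γ, i⟩, rfl⟩ := e₁.surjective d
    have hm : Measurable fun z : ℍ => ((e₁ (γ, i) : GL (Fin 2) ℝ) • z : ℍ) :=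
      measurable_const_smul _
    have h3 := hfm i
    have h4 : Measurable (F (e₁ (γ, i))) := by
      simp only [F, hfd]
      exact (Complex.measurable_ofReal.comp h₂.meas).mul
        ((Complex.measurable_ofReal.comp (h₁.meas.comp hm)).mul h3)
    exact h4.aestronglyMeasurable
  have hA : ∀ᵐ z, HasSum (fun d => F d z) (2 * ((w₂ z : ℂ) *
      petersson k (∑ i, f ∣[k] δ i) h z)) := by
    have hw1' := (ae_all_iff (ι := ι)).2 hw1
    filter_upwards [hw1'] with z hz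
    rw [← e₁.hasSum_iff]
    have h5 : 2 * ((w₂ z : ℂ) * petersson k (∑ i, f ∣[k] δ i) h z) =
        ∑ i, (w₂ z : ℂ) * ((2 : ℂ) * petersson k (f ∣[k] δ i) h z) := by
      rw [petersson_sum_left, Finset.mul_sum, Finset.mul_sum]
      exact Finset.sum_congr rfl fun i _ => by ring
    rw [h5]
    refine hasSum_prod_fin fun i => ?_
    simp only [Function.comp_apply, F, hfd]
    refine HasSum.mul_left _ (HasSum.mul_right _ ?_)
    have := (Complex.hasSum_ofReal.2 (hz i))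
    simpa using this
  have hB : ∀ᵐ z, HasSum (fun d : Δ => F d ((d : GL (Fin 2) ℝ)⁻¹ • z)) (2 * ((D : ℂ) ^ (k - 2) *
      ((w₁ z : ℂ) * petersson k f (∑ j, h ∣[k] ε j) z))) := by
    have hw2' := (ae_all_iff (ι := κ)).2 hw2
    filter_upwards [hw2'] with z hz
    rw [← e₂.hasSum_iff]
    have h5 : 2 * ((D : ℂ) ^ (k - 2) * ((w₁ z : ℂ) * petersson k f (∑ j, h ∣[k] ε j) z)) =
        ∑ j, (2 : ℂ) * ((w₁ z : ℂ) * ((D : ℂ) ^ (k - 2) * petersson k f (h ∣[k] ε j) z)) := by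
      rw [petersson_sum_right, Finset.mul_sum, Finset.mul_sum, Finset.mul_sum]
      exact Finset.sum_congr rfl fun i _ => by ring
    rw [h5]
    refine hasSum_prod_fin fun j => ?_
    have hpos : ∀ γ, 0 < ((Matrix.GeneralLinearGroup.det (e₂ (γ, j) : GL (Fin 2) ℝ) : ℝˣ) : ℝ) :=
      fun γ => by rw [hΔ _ (e₂ (γ, j)).2]; exact hD
    have h6 : ∀ γ, F (e₂ (γ, j)) ((e₂ (γ, j) : GL (Fin 2) ℝ)⁻¹ • z) =
        (w₂ ((e₂ (γ, j) : GL (Fin 2) ℝ)⁻¹ • z) : ℂ) *
          ((w₁ z : ℂ) * ((D : ℂ) ^ (k - 2) * petersson k f (h ∣[k] ε j) z)) := by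
      intro γ
      simp only [F]
      rw [petersson_slash_left k f h _ (hpos γ), smul_inv_smul, hhd, hΔ _ (e₂ (γ, j)).2]
    simp only [Function.comp_apply, h6]
    refine HasSum.mul_right _ ?_
    have := (Complex.hasSum_ofReal.2 (hz j))
    simpa using this
  have hC : ∀ᵐ z, HasSum (fun d => ‖F d z‖) (∑ i, 2 * (w₂ z * ‖petersson k (f ∣[k] δ i) h z‖)) := by
    have hw1' := (ae_all_iff (ι := ι)).2 hw1
    filter_upwards [hw1'] with z hz
    rw [← e₁.hasSum_iff]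
    refine hasSum_prod_fin fun i => ?_
    have h6 : ∀ γ, ‖F (e₁ (γ, i)) z‖ = w₁ ((e₁ (γ, i) : GL (Fin 2) ℝ) • z) *
        (w₂ z * ‖petersson k (f ∣[k] δ i) h z‖) := by
      intro γ
      simp only [F, hfd, norm_mul, Complex.norm_real, Real.norm_of_nonneg (h₁.nonneg _),
        Real.norm_of_nonneg (h₂.nonneg _)]
      ring
    simp only [Function.comp_apply, h6]
    exact HasSum.mul_right _ (hz i)
  have hCi : Integrable (fun z => ∑ i, 2 * (w₂ z * ‖petersson k (f ∣[k] δ i) h z‖)) :=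
    integrable_finsetSum _ fun i _ => (hint i).const_mul 2
  have h7 := swap (fun d : Δ => (d : GL (Fin 2) ℝ)⁻¹) F hFm hA hB hC hCi
  rw [integral_const_mul, integral_const_mul, integral_const_mul] at h7
  have h8 : (2 : ℂ) ≠ 0 := two_ne_zero
  exact mul_left_cancel₀ h8 h7

end PetCore

end Gouvea
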