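import Pool.Agent.Work.MP_d3517d_nt.NF.Decomp
import Pool.Agent.Work.MP_d3517d_nt.ES.RhoC
import Pool.Agent.Work.MP_d3517d_nt.ES.Mult2

/-!
# The number of newforms with a given property in terms of systems of eigenvalues
-/

set_option autoImplicit false

open UpperHalfPlane CongruenceSubgroup Module
open scoped MatrixGroups ModularForm ComplexConjugate Manifold

noncomputable section

namespace Gouvea.NF

open Gouvea.ES Gouvea.Sys

variable {k : ℕ}

/-- the ring homomorphism given by the prime coefficients of a function -/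
def chiNF (f : ℍ → ℂ) : MvPolynomial Nat.Primes ℤ →+* ℂ :=
  MvPolynomial.eval₂Hom (Int.castRingHom ℂ) fun q => coef f q

theorem chiNF_X (f : ℍ → ℂ) (q : Nat.Primes) : chiNF f (MvPolynomial.X q) = coef f q := by
  rw [chiNF, MvPolynomial.coe_eval₂Hom, MvPolynomial.eval₂_X]

/-- the polynomials in the operators prime to `N` -/
def resN (N : ℕ) :
    MvPolynomial {q : Nat.Primes // ¬ (q : ℕ) ∣ N} ℤ →+* MvPolynomial Nat.Primes ℤ :=
  (MvPolynomial.rename (R := ℤ) Subtype.val : MvPolynomial {q : Nat.Primes // ¬ (q : ℕ) ∣ N} ℤ →ₐ[ℤ]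
    MvPolynomial Nat.Primes ℤ).toRingHom

theorem resN_X (N : ℕ) (q : {q : Nat.Primes // ¬ (q : ℕ) ∣ N}) :
    resN N (MvPolynomial.X q) = MvPolynomial.X q.1 := MvPolynomial.rename_X _ _

open Classical in
/-- extension by zero -/
def extN (N : ℕ) (χ : MvPolynomial {q : Nat.Primes // ¬ (q : ℕ) ∣ N} ℤ →+* ℂ) :
    MvPolynomial Nat.Primes ℤ →+* ℂ :=
  MvPolynomial.eval₂Hom (Int.castRingHom ℂ) fun q =>
    if h : (q : ℕ) ∣ N then 0 else χ (MvPolynomial.X ⟨q, h⟩)

theorem extN_X (N : ℕ) (χ : MvPolynomial {q : Nat.Primes // ¬ (q : ℕ) ∣ N} ℤ →+* ℂ)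
    (q : Nat.Primes) (h : ¬ (q : ℕ) ∣ N) :
    extN N χ (MvPolynomial.X q) = χ (MvPolynomial.X ⟨q, h⟩) := by
  rw [extN, MvPolynomial.coe_eval₂Hom, MvPolynomial.eval₂_X, dif_neg h]

/-- a condition on the values at the primes not dividing `N` -/
def PrimeTo (N : ℕ) (Q : (MvPolynomial Nat.Primes ℤ →+* ℂ) → Prop) : Prop :=
  ∀ χ χ' : MvPolynomial Nat.Primes ℤ →+* ℂ,
    (∀ q : Nat.Primes, ¬ (q : ℕ) ∣ N → χ (MvPolynomial.X q) = χ' (MvPolynomial.X q)) → Q χ → Q χ'

theorem PrimeTo.iff {N : ℕ} {Q : (MvPolynomial Nat.Primes ℤ →+* ℂ) → Prop} (hQ : PrimeTo N Q)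
    {χ χ' : MvPolynomial Nat.Primes ℤ →+* ℂ}
    (h : ∀ q : Nat.Primes, ¬ (q : ℕ) ∣ N → χ (MvPolynomial.X q) = χ' (MvPolynomial.X q)) :
    Q χ ↔ Q χ' := ⟨hQ _ _ h, hQ _ _ fun q hq => (h q hq).symm⟩

theorem PrimeTo.ext_comp {N : ℕ} {Q : (MvPolynomial Nat.Primes ℤ →+* ℂ) → Prop}
    (hQ : PrimeTo N Q) (χ : MvPolynomial Nat.Primes ℤ →+* ℂ) :
    Q (extN N (χ.comp (resN N))) ↔ Q χ := by
  refine hQ.iff fun q hq => ?_
  rw [extN_X _ _ _ hq, RingHom.comp_apply, resN_X]

/-- the cusp forms as functions -/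
def spEquiv (N k : ℕ) : Sp N k ≃ₗ[ℂ] Cusp N k :=
  (LinearEquiv.ofInjective (coeL N k) (coeL_injective N k)).symm

theorem coe_spEquiv (N k : ℕ) (f : Sp N k) : (spEquiv N k f : ℍ → ℂ) = f := by
  have h := (LinearEquiv.ofInjective (coeL N k) (coeL_injective N k)).apply_symm_apply f
  exact congrArg Subtype.val h

theorem opC_newform (P : IP k) {M N : ℕ} [NeZero M] (hMN : M ∣ N)
    (x : Data.Idx (data P) M) (q : Nat.Primes) (hq : ¬ (q : ℕ) ∣ N)
    (F : Cusp M k) (hF : (F : ℍ → ℂ) = (data P).B x.1.2.2 x.1.2.1) :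
    opC M k q F = coef x.1.2.1 q • F := by
  have hqM : ¬ (q : ℕ) ∣ M := fun h => hq (h.trans hMN)
  apply DFunLike.coe_injective
  have h1 := x.2.1.eigB (NeZero.ne M) x.2.2 q.2 hqM
  rw [data_T] at h1
  rw [opC_coe_not_dvd M k q hqM, hF, h1]
  change coef x.1.2.1 q • _ = coef x.1.2.1 q • (F : ℍ → ℂ)
  rw [hF]

/-- the basis `f(dz)` of the cusp forms -/
def cBas (P : IP k) (H : MultHyp P) (M : ℕ) [NeZero M] :
    Module.Basis (Data.Idx (data P) M) ℂ (Cusp M k) :=
  (show Module.Basis (Data.Idx (data P) M) ℂ (Sp M k) from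
    Data.nfBasis (data_mult P H) (data_spec P) (NeZero.ne M)).map (spEquiv M k)

theorem coe_cBas (P : IP k) (H : MultHyp P) (M : ℕ) [NeZero M]
    (x : Data.Idx (data P) M) :
    (cBas P H M x : ℍ → ℂ) = (data P).B x.1.2.2 x.1.2.1 := by
  have h1 := Data.nfBasis_apply (data_mult P H) (data_spec P) (NeZero.ne M) x
  rw [← h1, cBas, Module.Basis.map_apply, coe_spEquiv]
  rfl

open Classical in
theorem Sys_comp_resN (P : IP k) (H : MultHyp P) {M N : ℕ} [NeZero M] (hMN : M ∣ N)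
    [Fintype (Data.Idx (data P) M)] :
    (Sys (rhoC M k)).map (fun χ => χ.comp (resN N)) =
      (Finset.univ : Finset (Data.Idx (data P) M)).val.map
        fun x => (chiNF x.1.2.1).comp (resN N) := by
  rw [← Sys_comp]
  refine Sys_of_basis (cBas P H M) _ ?_
  intro x r
  have hX : ∀ q : {q : Nat.Primes // ¬ (q : ℕ) ∣ N}, (((rhoC M k).comp (resN N))
      (MvPolynomial.X q)) (cBas P H M x) =
      (((chiNF x.1.2.1).comp (resN N)) (MvPolynomial.X q)) • cBas P H M x := by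
    intro q
    rw [RingHom.comp_apply, RingHom.comp_apply, resN_X, rhoC_X, chiNF_X]
    exact opC_newform P hMN x q.1 q.2 _ (coe_cBas P H M x)
  generalize cBas P H M x = v at hX ⊢
  induction r using MvPolynomial.induction_on with
  | C a =>
    have h1 : (MvPolynomial.C a : MvPolynomial {q : Nat.Primes // ¬ (q : ℕ) ∣ N} ℤ) = (a : ℤ) := by
      simp
    rw [h1, map_intCast, map_intCast]
    simp [Int.cast_smul_eq_zsmul]
  | add a b ha hb =>
    rw [map_add, map_add, LinearMap.add_apply, ha, hb, add_smul]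
  | mul_X a q ha =>
    rw [map_mul, map_mul, Module.End.mul_apply, hX, map_smul, ha, smul_smul, mul_comm]

open Classical in
/-- the number of systems of level `M` with the property `Q` -/
def cS (M k : ℕ) (Q : (MvPolynomial Nat.Primes ℤ →+* ℂ) → Prop) : ℕ :=
  if h : M = 0 then 0 else
    haveI : NeZero M := ⟨h⟩
    ((Sys (rhoC M k)).filter Q).card

open Classical in
theorem cS_eq (M k : ℕ) [NeZero M] (Q : (MvPolynomial Nat.Primes ℤ →+* ℂ) → Prop) :
    cS M k Q = ((Sys (rhoC M k)).filter Q).card := by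
  rw [cS, dif_neg (NeZero.ne M)]

theorem cS_eq_tot (P : IP k) (H : MultHyp P) {M N : ℕ} (hM : M ≠ 0) (hMN : M ∣ N)
    {Q : (MvPolynomial Nat.Primes ℤ →+* ℂ) → Prop} (hQ : PrimeTo N Q) :
    cS M k Q = (data P).tot M fun f => Q (chiNF f) := by
  classical
  have : NeZero M := ⟨hM⟩
  have hfin := Data.finite_idx (data_mult P H) hM
  have := Fintype.ofFinite (Data.Idx (data P) M)
  rw [cS_eq]
  have h1 : ((Sys (rhoC M k)).filter Q).card =
      (((Sys (rhoC M k)).map (fun χ => χ.comp (resN N))).filter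
        (fun χ => Q (extN N χ))).card := by
    rw [Multiset.filter_map, Multiset.card_map]
    congr 1
    exact Multiset.filter_congr fun χ _ => (hQ.ext_comp χ).symm
  rw [h1, Sys_comp_resN P H hMN, Multiset.filter_map, Multiset.card_map]
  have h2 : (Multiset.filter ((fun χ => Q (extN N χ)) ∘ fun x : Data.Idx (data P) M =>
      (chiNF x.1.2.1).comp (resN N)) Finset.univ.val).card =
      (Finset.univ.filter fun x : Data.Idx (data P) M => Q (chiNF x.1.2.1)).card := by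
    rw [← Finset.filter_val, Finset.card_val]
    congr 1
    ext x
    simp only [Finset.mem_filter, Finset.mem_univ, true_and, Function.comp_apply]
    exact hQ.ext_comp _
  rw [h2, Data.tot]
  have h3 : {x : ℕ × (ℍ → ℂ) × ℕ | x ∈ Data.Idx (data P) M ∧ Q (chiNF x.2.1)} =
      Subtype.val '' {x : Data.Idx (data P) M | Q (chiNF x.1.2.1)} := by
    ext x
    constructor
    · rintro ⟨hx, hx2⟩
      exact ⟨⟨x, hx⟩, hx2, rfl⟩
    · rintro ⟨⟨y, hy⟩, hy2, rfl⟩
      exact ⟨hy, hy2⟩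
  rw [h3, Set.ncard_image_of_injective _ Subtype.val_injective, Set.ncard_eq_toFinset_card']
  congr 1
  ext x
  simp

theorem cnt_eq_ncard (P : IP k) {N : ℕ} (hN : 0 < N) (R : (ℍ → ℂ) → Prop) :
    (data P).cnt N R = {F : Cusp N k | IsNewform N k F ∧ R F}.ncard := by
  rw [Data.cnt]
  have h : {f | (data P).IsNF N f ∧ R f} =
      (fun F : Cusp N k => (F : ℍ → ℂ)) '' {F : Cusp N k | IsNewform N k F ∧ R F} := by
    ext f
    constructor
    · rintro ⟨h1, h2⟩
      obtain ⟨F, hF, rfl⟩ := (exists_isNF_iff P hN f).1 h1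
      exact ⟨F, ⟨hF, h2⟩, rfl⟩
    · rintro ⟨F, ⟨hF, h2⟩, rfl⟩
      exact ⟨(isNF_iff P hN F).2 hF, h2⟩
  rw [h, Set.ncard_image_of_injective _ DFunLike.coe_injective]

/-- **The number of newforms with the property `Q`.** -/
theorem card_newforms_of (P : IP k) (H : MultHyp P) {N : ℕ} (hN : 0 < N)
    {Q : (MvPolynomial Nat.Primes ℤ →+* ℂ) → Prop} (hQ : PrimeTo N Q) :
    (({F : Cusp N k | IsNewform N k F ∧ Q (chiNF F)}.ncard : ℕ) : ℤ) =
      ∑ x ∈ N.divisorsAntidiagonal,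
        (ArithmeticFunction.moebius * ArithmeticFunction.moebius) x.1 * (cS x.2 k Q : ℤ) := by
  rw [← cnt_eq_ncard P hN (fun f => Q (chiNF f)),
    Data.cnt_eq (data_mult P H) hN.ne' (fun f => Q (chiNF f))]
  refine Finset.sum_congr rfl fun x hx => ?_
  have hx' := Nat.mem_divisorsAntidiagonal.1 hx
  have h2 : x.2 ≠ 0 := fun h => hx'.2 (by rw [← hx'.1, h, mul_zero])
  rw [cS_eq_tot P H h2 (Dvd.intro_left _ hx'.1) hQ]

/-- the total number of systems in terms of newforms -/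
theorem cS_eq_sum_of (P : IP k) (H : MultHyp P) {M N : ℕ} (hM : 0 < M) (hMN : M ∣ N)
    {Q : (MvPolynomial Nat.Primes ℤ →+* ℂ) → Prop} (hQ : PrimeTo N Q) :
    cS M k Q = ∑ D ∈ M.divisors,
      (M / D).divisors.card * {F : Cusp D k | IsNewform D k F ∧ Q (chiNF F)}.ncard := by
  rw [cS_eq_tot P H hM.ne' hMN hQ, Data.tot_eq (data_mult P H) hM.ne']
  refine Finset.sum_congr rfl fun D hD => ?_
  rw [cnt_eq_ncard P (Nat.pos_of_mem_divisors hD) (fun f => Q (chiNF f))]

theorem finite_newforms_of (P : IP k) (H : MultHyp P) {N : ℕ} (hN : 0 < N) :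
    {F : Cusp N k | IsNewform N k F}.Finite := by
  have h := Data.finite_nf (data_mult P H) hN.ne'
  refine Set.Finite.of_finite_image (f := fun F : Cusp N k => (F : ℍ → ℂ))
    (h.subset ?_) DFunLike.coe_injective.injOn
  rintro _ ⟨F, hF, rfl⟩
  exact (isNF_iff P hN F).2 hF

end Gouvea.NF
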